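import Pool.Agent.Confl.EarDefs

/-! # A new arc between consecutive vertices -/

set_option autoImplicit false

open Filter Topology Set

namespace Pool.Agent.Confl

variable {V : Type}

/-- All points of the drawing. -/
private def aePts (D : Drawing V) : Set ℂ := (⋃ a, range (D.curve a)) ∪ range D.pt

private theorem aePts_closed [Finite V] (D : Drawing V) : IsClosed (aePts D) := by
  have := D.finite_J
  have := D.finite_A
  refine IsClosed.union ?_ (Set.finite_range D.pt).isClosed
  exact isClosed_iUnion_of_finite fun a => (isCompact_range (D.curve_cont a)).isClosed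

private theorem aePts_real (D : Drawing V) {z : ℂ} (hz : z ∈ aePts D) (him : z.im = 0) :
    ∃ w, z = D.pt (Sum.inl w) := by
  have hpt : ∀ x, z = D.pt x → ∃ w, z = D.pt (Sum.inl w) := by
    intro x hx
    cases x with
    | inl w => exact ⟨w, hx⟩
    | inr j =>
      have := D.junction_im j
      rw [← hx, him] at this
      exact absurd this (lt_irrefl _)
  rcases hz with hz | ⟨x, hx⟩
  · obtain ⟨a, t, ht⟩ := Set.mem_iUnion.mp hz
    by_cases h0 : t = 0
    · exact hpt (D.ep a false) (by rw [← ht, h0]; exact D.curve_par a false)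
    · by_cases h1 : t = 1
      · exact hpt (D.ep a true) (by rw [← ht, h1]; exact D.curve_par a true)
      · have := (D.curve_int a t h0 h1).1
        rw [ht, him] at this
        exact absurd this (lt_irrefl _)
  · exact hpt x hx.symm

/-- The height of the new arc. -/
private noncomputable def aeH (D : Drawing V) (x : ℝ) : ℝ := (1 / 2) * Metric.infDist (x : ℂ) (aePts D)

/-- The abscissa of the new arc. -/
private def aeX (p q : ℝ) (t : unitInterval) : ℝ := p + (t : ℝ) * (q - p)

/-- The new arc. -/
private noncomputable def aeC (D : Drawing V) (p q : ℝ) (t : unitInterval) : ℂ :=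
  ((aeX p q t : ℝ) : ℂ) - ((aeH D (aeX p q t) : ℝ) : ℂ) * Complex.I

private theorem aeC_re (D : Drawing V) (p q : ℝ) (t : unitInterval) :
    (aeC D p q t).re = aeX p q t := by
  simp [aeC]

private theorem aeC_im (D : Drawing V) (p q : ℝ) (t : unitInterval) :
    (aeC D p q t).im = - aeH D (aeX p q t) := by
  simp [aeC]

private theorem aeC_cont (D : Drawing V) (p q : ℝ) : Continuous (aeC D p q) := by
  have h1 : Continuous (aeX p q) := by
    unfold aeX
    fun_prop
  have h2 : Continuous fun t => aeH D (aeX p q t) := by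
    unfold aeH
    exact continuous_const.mul
      ((Metric.continuous_infDist_pt _).comp (Complex.continuous_ofReal.comp h1))
  unfold aeC
  fun_prop

private theorem aeC_inj (D : Drawing V) {p q : ℝ} (hpq : p < q) :
    Function.Injective (aeC D p q) := by
  intro s t hst
  have := congrArg Complex.re hst
  rw [aeC_re, aeC_re] at this
  unfold aeX at this
  have h2 : ((s : ℝ) - t) * (q - p) = 0 := by linarith
  rcases mul_eq_zero.mp h2 with h | h
  · exact Subtype.ext (by linarith)
  · linarith

private theorem aeC_notMem [Finite V] (D : Drawing V) (hne : (aePts D).Nonempty) {p q : ℝ}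
    (hpq : p < q)
    (hc : ∀ w, ¬ (p < (D.pt (Sum.inl w)).re ∧ (D.pt (Sum.inl w)).re < q)) {t : unitInterval}
    (h0 : t ≠ 0) (h1 : t ≠ 1) : 0 < aeH D (aeX p q t) ∧ aeC D p q t ∉ aePts D := by
  have ht0 : (0 : ℝ) < t := lt_of_le_of_ne t.2.1 (fun h => h0 (Subtype.ext h.symm))
  have ht1 : (t : ℝ) < 1 := lt_of_le_of_ne t.2.2 (fun h => h1 (Subtype.ext h))
  have hx0 : p < aeX p q t := by
    unfold aeX
    nlinarith [mul_pos ht0 (sub_pos.mpr hpq)]
  have hx1 : aeX p q t < q := by
    unfold aeX
    nlinarith [mul_pos (sub_pos.mpr ht1) (sub_pos.mpr hpq)]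
  have hx : ((aeX p q t : ℝ) : ℂ) ∉ aePts D := by
    intro h
    obtain ⟨w, hw⟩ := aePts_real D h (by simp)
    apply hc w
    rw [← hw]
    simpa using ⟨hx0, hx1⟩
  have hpos : 0 < Metric.infDist ((aeX p q t : ℝ) : ℂ) (aePts D) :=
    ((aePts_closed D).notMem_iff_infDist_pos hne).mp hx
  have hh : 0 < aeH D (aeX p q t) := by
    unfold aeH
    linarith
  refine ⟨hh, fun hmem => ?_⟩
  have h3 := Metric.infDist_le_dist_of_mem (x := ((aeX p q t : ℝ) : ℂ)) hmem
  have h4 : dist ((aeX p q t : ℝ) : ℂ) (aeC D p q t) = aeH D (aeX p q t) := by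
    rw [Complex.dist_eq]
    unfold aeC
    rw [sub_sub_cancel, norm_mul, Complex.norm_I, mul_one, Complex.norm_real,
      Real.norm_of_nonneg hh.le]
  rw [h4] at h3
  unfold aeH at h3
  linarith

private theorem aeC_zero (D : Drawing V) (u : V) (q : ℝ) :
    aeC D (D.pt (Sum.inl u)).re q 0 = D.pt (Sum.inl u) := by
  have hx : aeX (D.pt (Sum.inl u)).re q 0 = (D.pt (Sum.inl u)).re := by
    simp [aeX]
  have hu : (((D.pt (Sum.inl u)).re : ℝ) : ℂ) = D.pt (Sum.inl u) :=
    Complex.ext (by simp) (by simp [D.vertex_im])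
  have h0 : aeH D (D.pt (Sum.inl u)).re = 0 := by
    unfold aeH
    have hm : D.pt (Sum.inl u) ∈ aePts D := Or.inr ⟨_, rfl⟩
    rw [hu, Metric.infDist_zero_of_mem hm, mul_zero]
  unfold aeC
  rw [hx, h0, hu]
  simp

private theorem aeC_one (D : Drawing V) (v : V) (p : ℝ) :
    aeC D p (D.pt (Sum.inl v)).re 1 = D.pt (Sum.inl v) := by
  have hx : aeX p (D.pt (Sum.inl v)).re 1 = (D.pt (Sum.inl v)).re := by
    simp [aeX]
  have hu : (((D.pt (Sum.inl v)).re : ℝ) : ℂ) = D.pt (Sum.inl v) :=
    Complex.ext (by simp) (by simp [D.vertex_im])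
  have h0 : aeH D (D.pt (Sum.inl v)).re = 0 := by
    unfold aeH
    have hm : D.pt (Sum.inl v) ∈ aePts D := Or.inr ⟨_, rfl⟩
    rw [hu, Metric.infDist_zero_of_mem hm, mul_zero]
  unfold aeC
  rw [hx, h0, hu]
  simp

/-- The end points of the arcs. -/
private def aeEp (D : Drawing V) (u v : V) : Option D.A → Bool → V ⊕ D.J
  | none, b => Sum.inl (if b then v else u)
  | some a, b => D.ep a b

/-- The directions of the arcs. -/
private def aeDir (D : Drawing V) : Option D.A → Bool → Bool
  | none, _ => true
  | some a, b => D.dir a b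

/-- The curves. -/
private noncomputable def aeCurve (D : Drawing V) (u v : V) : Option D.A → unitInterval → ℂ
  | none => aeC D (D.pt (Sum.inl u)).re (D.pt (Sum.inl v)).re
  | some a => D.curve a

/-- The new drawing. -/
private noncomputable def aeD [Finite V] (D : Drawing V) {u v : V}
    (huv : (D.pt (Sum.inl u)).re < (D.pt (Sum.inl v)).re)
    (hc : ∀ w, ¬ ((D.pt (Sum.inl u)).re < (D.pt (Sum.inl w)).re ∧
      (D.pt (Sum.inl w)).re < (D.pt (Sum.inl v)).re)) : Drawing V where
  J := D.J
  A := Option D.A
  pt := D.pt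
  ep := aeEp D u v
  dir := aeDir D
  finite_J := D.finite_J
  finite_A := by
    have := D.finite_A
    infer_instance
  pt_inj := D.pt_inj
  vertex_im := D.vertex_im
  junction_im := D.junction_im
  curve := aeCurve D u v
  curve_cont := by
    rintro (_ | a)
    · exact aeC_cont D _ _
    · exact D.curve_cont a
  curve_inj := by
    rintro (_ | a)
    · exact aeC_inj D huv
    · exact D.curve_inj a
  curve_par := by
    rintro (_ | a) b
    · cases b with
      | false => exact aeC_zero D u _
      | true => exact aeC_one D v _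
    · exact D.curve_par a b
  curve_int := by
    rintro (_ | a) t h0 h1
    · obtain ⟨h2, h3⟩ := aeC_notMem D ⟨_, Or.inr ⟨Sum.inl u, rfl⟩⟩ huv hc h0 h1
      refine ⟨?_, fun x hx => h3 (Or.inr ⟨x, hx.symm⟩)⟩
      change (aeC D _ _ t).im < 0
      rw [aeC_im]
      linarith
    · exact D.curve_int a t h0 h1
  curve_disj := by
    have key : ∀ (a : D.A) (s t : unitInterval),
        aeC D (D.pt (Sum.inl u)).re (D.pt (Sum.inl v)).re s = D.curve a t →
        (s = 0 ∨ s = 1) ∧ (t = 0 ∨ t = 1) := by
      intro a s t hst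
      have hs : s = 0 ∨ s = 1 := by
        by_contra hcon
        push Not at hcon
        apply (aeC_notMem D ⟨_, Or.inr ⟨Sum.inl u, rfl⟩⟩ huv hc hcon.1 hcon.2).2
        rw [hst]
        exact Or.inl (Set.mem_iUnion.mpr ⟨a, t, rfl⟩)
      refine ⟨hs, ?_⟩
      by_contra hcon
      push Not at hcon
      have h2 := (D.curve_int a t hcon.1 hcon.2).2
      rcases hs with rfl | rfl
      · rw [aeC_zero] at hst
        exact h2 _ hst.symm
      · rw [aeC_one] at hst
        exact h2 _ hst.symm
    rintro (_ | a) (_ | b) s t hab hst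
    · exact absurd rfl hab
    · exact key b s t hst
    · exact (key a t s hst.symm).symm
    · exact D.curve_disj a b s t (fun h => hab (by rw [h])) hst
  u := D.u
  norm_u := D.norm_u
  tangent := by
    rintro (_ | a) b j hj
    · exact absurd hj (by simp [aeEp])
    · exact D.tangent a b j hj

/-- Smooth paths and embeddings of skeletons. -/
private theorem aePath_map (S S' : Skel V) (f : S.Dart → S'.Dart) (g : S.J → S'.J)
    (hg : Function.Injective g)
    (ht : ∀ d, S'.tail (f d) = Sum.map id g (S.tail d))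
    (hh : ∀ d, S'.head (f d) = Sum.map id g (S.head d))
    (hd : ∀ d d', S'.dir (f d).1 (!(f d).2) ≠ S'.dir (f d').1 (f d').2 ↔
      S.dir d.1 (!d.2) ≠ S.dir d'.1 d'.2) (a b : V) (p : List S.Dart) :
    S'.IsSmoothPath a b (p.map f) ↔ S.IsSmoothPath a b p := by
  have hinj : Function.Injective (Sum.map (id : V → V) g) :=
    Sum.map_injective.mpr ⟨Function.injective_id, hg⟩
  have hT : ∀ d d' : S.Dart, S'.Turn (f d) (f d') ↔ S.Turn d d' := by
    intro d d'
    unfold Skel.Turn
    rw [ht, hh]
    constructor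
    · rintro ⟨j', h1, h2, h3⟩
      cases hx : S.head d with
      | inl w => rw [hx] at h1; simp at h1
      | inr j =>
        rw [hx, Sum.map_inr, Sum.inr.injEq] at h1
        refine ⟨j, rfl, ?_, (hd d d').mp h3⟩
        apply hinj
        rw [h2, Sum.map_inr, h1]
    · rintro ⟨j, h1, h2, h3⟩
      exact ⟨g j, by rw [h1]; rfl, by rw [h2]; rfl, (hd d d').mpr h3⟩
  have e1 : ((p.map f).head?.map S'.tail = some (Sum.inl a)) ↔
      (p.head?.map S.tail = some (Sum.inl a)) := by
    rw [List.head?_map, Option.map_map]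
    cases p.head? with
    | none => simp
    | some d =>
      simp only [Option.map_some, Function.comp, ht, Option.some.injEq]
      constructor
      · intro h
        exact hinj h
      · intro h
        rw [h]
        rfl
  have e2 : ((p.map f).getLast?.map S'.head = some (Sum.inl b)) ↔
      (p.getLast?.map S.head = some (Sum.inl b)) := by
    rw [List.getLast?_map, Option.map_map]
    cases p.getLast? with
    | none => simp
    | some d =>
      simp only [Option.map_some, Function.comp, hh, Option.some.injEq]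
      constructor
      · intro h
        exact hinj h
      · intro h
        rw [h]
        rfl
  have e3 : (p.map f).IsChain S'.Turn ↔ p.IsChain S.Turn := by
    rw [List.isChain_map]
    have : (fun d d' => S'.Turn (f d) (f d')) = S.Turn := by
      funext d d'
      exact propext (hT d d')
    rw [this]
  have e4 : ((p.map f).map S'.head).Nodup ↔ (p.map S.head).Nodup := by
    have : (p.map f).map S'.head = (p.map S.head).map (Sum.map id g) := by
      rw [List.map_map, List.map_map]
      exact List.map_congr_left fun d _ => hh d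
    rw [this, List.nodup_map_iff hinj]
  constructor
  · rintro ⟨h1, h2, h3, h4⟩
    exact ⟨e1.mp h1, e2.mp h2, e3.mp h3, e4.mp h4⟩
  · rintro ⟨h1, h2, h3, h4⟩
    exact ⟨e1.mpr h1, e2.mpr h2, e3.mpr h3, e4.mpr h4⟩

section

variable [Finite V] (D : Drawing V) {u v : V}
    (huv : (D.pt (Sum.inl u)).re < (D.pt (Sum.inl v)).re)
    (hc : ∀ w, ¬ ((D.pt (Sum.inl u)).re < (D.pt (Sum.inl w)).re ∧
      (D.pt (Sum.inl w)).re < (D.pt (Sum.inl v)).re))

/-- The darts of the old drawing. -/
private def aeEmb (d : D.Dart) : (aeD D huv hc).Dart := ((some d.1 : Option D.A), d.2)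

/-- The new darts. -/
private def aeNew (b : Bool) : (aeD D huv hc).Dart := ((none : Option D.A), b)

private theorem aeNew_head (b : Bool) :
    (aeD D huv hc).head (aeNew D huv hc b) = Sum.inl (if b then u else v) := by
  cases b <;> rfl

private theorem aeNew_tail (b : Bool) :
    (aeD D huv hc).tail (aeNew D huv hc b) = Sum.inl (if b then v else u) := by
  cases b <;> rfl

private theorem aeD_old (a b : V) (p : List D.Dart) :
    (aeD D huv hc).IsSmoothPath a b (p.map (aeEmb D huv hc)) ↔ D.IsSmoothPath a b p := by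
  refine aePath_map D.toSkel (aeD D huv hc).toSkel (aeEmb D huv hc) id Function.injective_id
    ?_ ?_ ?_ a b p
  · intro d
    exact (congrFun (Sum.map_id_id (α := V) (β := D.J)) (D.tail d)).symm
  · intro d
    exact (congrFun (Sum.map_id_id (α := V) (β := D.J)) (D.head d)).symm
  · intro d d'
    exact Iff.rfl

private theorem aeDart (d : (aeD D huv hc).Dart) :
    (∃ b, d = aeNew D huv hc b) ∨ ∃ d', d = aeEmb D huv hc d' := by
  obtain ⟨a, b⟩ := d
  change Option D.A at a
  cases a with
  | none => exact Or.inl ⟨b, rfl⟩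
  | some a => exact Or.inr ⟨(a, b), rfl⟩

private theorem aeD_path (p : List (aeD D huv hc).Dart) (hp : p.IsChain (aeD D huv hc).Turn) :
    (∃ b, p = [aeNew D huv hc b]) ∨ ∃ p' : List D.Dart, p = p'.map (aeEmb D huv hc) := by
  induction p with
  | nil => exact Or.inr ⟨[], rfl⟩
  | cons d p ih =>
    cases p with
    | nil =>
      rcases aeDart D huv hc d with ⟨b, rfl⟩ | ⟨d', rfl⟩
      · exact Or.inl ⟨b, rfl⟩
      · exact Or.inr ⟨[d'], rfl⟩
    | cons d' p =>
      rw [List.isChain_cons_cons] at hp
      obtain ⟨⟨j, hj1, hj2, _⟩, hp2⟩ := hp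
      rcases aeDart D huv hc d with ⟨b, rfl⟩ | ⟨e, rfl⟩
      · rw [aeNew_head] at hj1
        exact absurd hj1 (by simp)
      · rcases ih hp2 with ⟨b', hb'⟩ | ⟨p', hp'⟩
        · exfalso
          rw [List.cons.injEq] at hb'
          rw [hb'.1, aeNew_tail] at hj2
          exact absurd hj2 (by simp)
        · exact Or.inr ⟨e :: p', by rw [hp']; rfl⟩

end

theorem add_edge [Finite V] (D : Drawing V) {u v : V}
    (huv : (D.pt (Sum.inl u)).re < (D.pt (Sum.inl v)).re)
    (hc : ∀ w, ¬ ((D.pt (Sum.inl u)).re < (D.pt (Sum.inl w)).re ∧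
      (D.pt (Sum.inl w)).re < (D.pt (Sum.inl v)).re)) :
    ∃ D' : Drawing V, (∀ w, D'.pt (Sum.inl w) = D.pt (Sum.inl w)) ∧
      ∀ G : SimpleGraph V, D.Represents G → D'.Represents (G ⊔ SimpleGraph.edge u v) := by
  refine ⟨aeD D huv hc, fun w => rfl, ?_⟩
  intro G hG a b hab
  rw [SimpleGraph.sup_adj, hG a b hab, SimpleGraph.edge_adj]
  have hnew : ∀ c : Bool, (aeD D huv hc).IsSmoothPath (if c then v else u) (if c then u else v)
      [aeNew D huv hc c] := by
    intro c
    refine ⟨?_, ?_, List.isChain_singleton _, by simp⟩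
    · rw [List.head?_cons, Option.map_some, aeNew_tail]
    · rw [List.getLast?_singleton, Option.map_some, aeNew_head]
  constructor
  · rintro (⟨p, hp⟩ | ⟨h, _⟩)
    · exact ⟨p.map (aeEmb D huv hc), (aeD_old D huv hc a b p).mpr hp⟩
    · rcases h with ⟨rfl, rfl⟩ | ⟨rfl, rfl⟩
      · exact ⟨_, hnew false⟩
      · exact ⟨_, hnew true⟩
  · rintro ⟨p, hp⟩
    rcases aeD_path D huv hc p hp.turns with ⟨c, rfl⟩ | ⟨p', rfl⟩
    · right
      refine ⟨?_, hab⟩
      have h1 := hp.start
      have h2 := hp.finish
      rw [List.head?_cons, Option.map_some, aeNew_tail, Option.some.injEq] at h1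
      rw [List.getLast?_singleton, Option.map_some, aeNew_head, Option.some.injEq] at h2
      have h1' := Sum.inl_injective h1
      have h2' := Sum.inl_injective h2
      cases c with
      | false => exact Or.inl ⟨h1'.symm, h2'.symm⟩
      | true => exact Or.inr ⟨h1'.symm, h2'.symm⟩
    · exact Or.inl ⟨p', (aeD_old D huv hc a b p').mp hp⟩

end Pool.Agent.Confl
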