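import Pool.Agent.Confl.EarDefs

/-!
# EA5: new vertices and an outer arc
-/

set_option autoImplicit false

open Filter Topology Set

namespace Pool.Agent.Confl

variable {V W : Type}

/-- The lower half-circle with diameter `[p, q]`. -/
private noncomputable def ao_circ (p q : ℝ) (t : unitInterval) : ℂ :=
  ⟨(p + q) / 2 - (q - p) / 2 * Real.cos (Real.pi * t), - ((q - p) / 2 * Real.sin (Real.pi * t))⟩

private theorem ao_circ_cont (p q : ℝ) : Continuous (ao_circ p q) := by
  have h : ao_circ p q = fun t : unitInterval =>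
      (((p + q) / 2 - (q - p) / 2 * Real.cos (Real.pi * t) : ℝ) : ℂ) +
        ((- ((q - p) / 2 * Real.sin (Real.pi * t)) : ℝ) : ℂ) * Complex.I := by
    funext t
    exact Complex.mk_eq_add_mul_I _ _
  rw [h]
  fun_prop

private theorem ao_mem (t : unitInterval) : Real.pi * (t : ℝ) ∈ Icc (0 : ℝ) Real.pi := by
  constructor
  · exact mul_nonneg Real.pi_pos.le t.2.1
  · calc Real.pi * (t : ℝ) ≤ Real.pi * 1 := mul_le_mul_of_nonneg_left t.2.2 Real.pi_pos.le
      _ = Real.pi := mul_one _

private theorem ao_circ_inj {p q : ℝ} (h : p < q) : Function.Injective (ao_circ p q) := by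
  intro s t hst
  have h1 := congrArg Complex.re hst
  simp only [ao_circ] at h1
  have h2 : Real.cos (Real.pi * s) = Real.cos (Real.pi * t) := by
    have h3 : 0 < (q - p) / 2 := by linarith
    have h4 : (q - p) / 2 * Real.cos (Real.pi * s) = (q - p) / 2 * Real.cos (Real.pi * t) := by
      linarith
    exact mul_left_cancel₀ h3.ne' h4
  have h3 := Real.injOn_cos (ao_mem s) (ao_mem t) h2
  exact Subtype.ext (mul_left_cancel₀ Real.pi_pos.ne' h3)

private theorem ao_circ_par (p q : ℝ) (b : Bool) :
    ao_circ p q (par b) = ((if b then q else p : ℝ) : ℂ) := by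
  cases b
  · apply Complex.ext
    · simp [ao_circ, par]; ring
    · simp [ao_circ, par]
  · apply Complex.ext
    · simp [ao_circ, par]; ring
    · simp [ao_circ, par]

private theorem ao_circ_im {p q : ℝ} (h : p < q) (t : unitInterval) (h0 : t ≠ 0) (h1 : t ≠ 1) :
    (ao_circ p q t).im < 0 := by
  simp only [ao_circ]
  have ht0 : (0 : ℝ) < t := lt_of_le_of_ne t.2.1 (fun h => h0 (Subtype.ext h.symm))
  have ht1 : (t : ℝ) < 1 := lt_of_le_of_ne t.2.2 (fun h => h1 (Subtype.ext h))
  have hs : 0 < Real.sin (Real.pi * t) := by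
    apply Real.sin_pos_of_pos_of_lt_pi
    · exact mul_pos Real.pi_pos ht0
    · calc Real.pi * (t : ℝ) < Real.pi * 1 := mul_lt_mul_of_pos_left ht1 Real.pi_pos
        _ = Real.pi := mul_one _
  have : 0 < (q - p) / 2 * Real.sin (Real.pi * t) := mul_pos (by linarith) hs
  linarith

private theorem ao_circ_norm {p q R : ℝ} (hp : p < -R) (hq : R < q) (hR : 0 < R)
    (t : unitInterval) : R < ‖ao_circ p q t‖ := by
  set c := (p + q) / 2 with hc
  set r := (q - p) / 2 with hr
  have e : ao_circ p q t = (c : ℂ) - ⟨r * Real.cos (Real.pi * t), r * Real.sin (Real.pi * t)⟩ := by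
    apply Complex.ext <;> simp [ao_circ, hc, hr]
  have hn : ‖(⟨r * Real.cos (Real.pi * t), r * Real.sin (Real.pi * t)⟩ : ℂ)‖ = r := by
    rw [Complex.norm_def, Complex.normSq_mk]
    have h1 : r * Real.cos (Real.pi * t) * (r * Real.cos (Real.pi * t)) +
        r * Real.sin (Real.pi * t) * (r * Real.sin (Real.pi * t)) = r ^ 2 := by
      have := Real.sin_sq_add_cos_sq (Real.pi * t)
      nlinarith [this]
    rw [h1, Real.sqrt_sq (by rw [hr]; linarith)]
  have h2 : ‖(⟨r * Real.cos (Real.pi * t), r * Real.sin (Real.pi * t)⟩ : ℂ)‖ - ‖(c : ℂ)‖ ≤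
      ‖ao_circ p q t‖ := by
    rw [e, norm_sub_rev]
    exact norm_sub_norm_le _ _
  rw [hn, Complex.norm_real, Real.norm_eq_abs] at h2
  have h3 : |c| < r - R := by
    rw [abs_lt]
    constructor
    · rw [hc, hr]; linarith
    · rw [hc, hr]; linarith
  linarith

private theorem ao_bound [Finite V] (D : Drawing V) : ∃ R : ℝ, 0 < R ∧ (∀ x, ‖D.pt x‖ < R) ∧
    ∀ a t, ‖D.curve a t‖ < R := by
  have := D.finite_J
  have := D.finite_A
  obtain ⟨R1, h1⟩ := (Set.finite_range fun x => ‖D.pt x‖).bddAbove
  have h2 : ∀ a, ∃ C : ℝ, ∀ t, ‖D.curve a t‖ ≤ C := by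
    intro a
    obtain ⟨C, hC⟩ := (isCompact_range (D.curve_cont a)).isBounded.exists_norm_le
    exact ⟨C, fun t => hC _ ⟨t, rfl⟩⟩
  choose C hC using h2
  obtain ⟨R2, h3⟩ := (Set.finite_range C).bddAbove
  refine ⟨max 0 (max R1 R2) + 1, by positivity, fun x => ?_, fun a t => ?_⟩
  · have : ‖D.pt x‖ ≤ R1 := h1 ⟨x, rfl⟩
    have h4 : R1 ≤ max 0 (max R1 R2) := le_trans (le_max_left _ _) (le_max_right _ _)
    linarith
  · have : ‖D.curve a t‖ ≤ C a := hC a t
    have h5 : C a ≤ R2 := h3 ⟨a, rfl⟩
    have h4 : R2 ≤ max 0 (max R1 R2) := le_trans (le_max_right _ _) (le_max_right _ _)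
    linarith

/-- The new skeleton. -/
private def ao_skel (S : Skel V) (f : V ↪ W) (pt : W ⊕ S.J → ℂ) (u v : W) : Skel W where
  J := S.J
  A := Option S.A
  pt := pt
  ep := fun a b => a.elim (Sum.inl (if b then v else u)) fun a => Sum.map f id (S.ep a b)
  dir := fun a b => a.elim true fun a => S.dir a b

private theorem ao_map_inl {J : Type} (f : V ↪ W) (x : V ⊕ J) (w : W)
    (h : Sum.map f id x = Sum.inl w) : ∃ v, x = Sum.inl v ∧ f v = w := by
  rcases x with x | x
  · exact ⟨x, rfl, Sum.inl_injective h⟩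
  · simp at h

private theorem ao_map_inr {J : Type} (f : V ↪ W) (x : V ⊕ J) (j : J) :
    Sum.map f id x = Sum.inr j ↔ x = Sum.inr j := by
  rcases x with x | x <;> simp

section

variable (S : Skel V) (f : V ↪ W) (pt : W ⊕ S.J → ℂ) (u v : W)

/-- The inclusion of the old darts. -/
private def ao_d (d : S.Dart) : (ao_skel S f pt u v).Dart := (some d.1, d.2)

private theorem ao_tail (d : S.Dart) :
    (ao_skel S f pt u v).tail (ao_d S f pt u v d) = Sum.map f id (S.tail d) := rfl

private theorem ao_head (d : S.Dart) :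
    (ao_skel S f pt u v).head (ao_d S f pt u v d) = Sum.map f id (S.head d) := rfl

private theorem ao_turn (d d' : S.Dart) :
    (ao_skel S f pt u v).Turn (ao_d S f pt u v d) (ao_d S f pt u v d') ↔ S.Turn d d' := by
  unfold Skel.Turn
  apply exists_congr
  intro j
  rw [ao_tail, ao_head]
  exact and_congr (ao_map_inr f _ _) (and_congr (ao_map_inr f _ _) Iff.rfl)

private theorem ao_path (x y : V) (p : List S.Dart) :
    (ao_skel S f pt u v).IsSmoothPath (f x) (f y) (p.map (ao_d S f pt u v)) ↔
      S.IsSmoothPath x y p := by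
  have hh : ∀ o : Option (V ⊕ S.J), ∀ x : V,
      o.map (Sum.map f id) = some (Sum.inl (f x)) ↔ o = some (Sum.inl x) := by
    intro o x
    rcases o with _ | (o | o) <;> simp
  have hinj : Function.Injective (Sum.map f id : V ⊕ S.J → W ⊕ S.J) :=
    Sum.map_injective.2 ⟨f.injective, Function.injective_id⟩
  have k1 : (((p.map (ao_d S f pt u v)).head?.map (ao_skel S f pt u v).tail :
      Option (W ⊕ S.J))) = (p.head?.map S.tail).map (Sum.map f id) := by
    cases p <;> rfl
  have k2 : (((p.map (ao_d S f pt u v)).getLast?.map (ao_skel S f pt u v).head :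
      Option (W ⊕ S.J))) = (p.getLast?.map S.head).map (Sum.map f id) := by
    rw [List.getLast?_map]
    cases p.getLast? <;> rfl
  have k3 : (((p.map (ao_d S f pt u v)).map (ao_skel S f pt u v).head :
      List (W ⊕ S.J))) = (p.map S.head).map (Sum.map f id) := by
    clear k1 k2
    induction p with
    | nil => rfl
    | cons d p ih => exact congrArg₂ List.cons rfl ih
  have k4 : (p.map (ao_d S f pt u v)).IsChain (ao_skel S f pt u v).Turn ↔ p.IsChain S.Turn := by
    rw [List.isChain_map]
    constructor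
    · intro h
      exact h.imp fun a b h => (ao_turn S f pt u v a b).1 h
    · intro h
      exact h.imp fun a b h => (ao_turn S f pt u v a b).2 h
  constructor
  · rintro ⟨h1, h2, h3, h4⟩
    refine ⟨(hh _ _).1 (k1.symm.trans h1), (hh _ _).1 (k2.symm.trans h2), k4.1 h3, ?_⟩
    have h5 : ((p.map S.head).map (Sum.map f id)).Nodup := k3 ▸ h4
    exact (List.nodup_map_iff hinj).1 h5
  · rintro ⟨h1, h2, h3, h4⟩
    refine ⟨k1.trans ((hh _ _).2 h1), k2.trans ((hh _ _).2 h2), k4.2 h3, ?_⟩
    have h5 : ((p.map S.head).map (Sum.map f id)).Nodup := (List.nodup_map_iff hinj).2 h4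
    exact k3.symm ▸ h5

/-- A path using the new arc is this arc alone. -/
private theorem ao_cases (p : List (ao_skel S f pt u v).Dart)
    (h : p.IsChain (ao_skel S f pt u v).Turn) :
    (∃ b, p = [(none, b)]) ∨ ∃ q : List S.Dart, p = q.map (ao_d S f pt u v) := by
  induction p with
  | nil => exact Or.inr ⟨[], rfl⟩
  | cons d p ih =>
    obtain ⟨a, b⟩ := d
    rcases p with _ | ⟨d', p⟩
    · rcases a with _ | a
      · exact Or.inl ⟨b, rfl⟩
      · exact Or.inr ⟨[(a, b)], rfl⟩
    · rw [List.isChain_cons_cons] at h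
      obtain ⟨⟨j, hj1, hj2, -⟩, h⟩ := h
      rcases ih h with ⟨b', hb'⟩ | ⟨q, hq⟩
      · exfalso
        have h0 : d' = (none, b') := (List.cons.inj hb').1
        rw [h0] at hj2
        exact Sum.inl_ne_inr hj2
      · rcases a with _ | a
        · exfalso
          exact Sum.inl_ne_inr hj1
        · refine Or.inr ⟨(a, b) :: q, ?_⟩
          rw [hq]
          rfl

private theorem ao_represents (G : SimpleGraph V) (huv : u ≠ v) (hS : S.Represents G) :
    (ao_skel S f pt u v).Represents (G.map f ⊔ SimpleGraph.edge u v) := by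
  intro x y hxy
  constructor
  · intro h
    rw [SimpleGraph.sup_adj, SimpleGraph.map_adj, SimpleGraph.edge_adj] at h
    rcases h with ⟨x', y', hadj, rfl, rfl⟩ | ⟨⟨rfl, rfl⟩ | ⟨rfl, rfl⟩, -⟩
    · obtain ⟨p, hp⟩ := (hS x' y' hadj.ne).1 hadj
      exact ⟨_, (ao_path S f pt u v x' y' p).2 hp⟩
    · exact ⟨[(none, false)], ⟨rfl, rfl, List.isChain_singleton _, List.nodup_singleton _⟩⟩
    · exact ⟨[(none, true)], ⟨rfl, rfl, List.isChain_singleton _, List.nodup_singleton _⟩⟩
  · rintro ⟨p, hp⟩
    rw [SimpleGraph.sup_adj, SimpleGraph.map_adj, SimpleGraph.edge_adj]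
    rcases ao_cases S f pt u v p hp.turns with ⟨b, rfl⟩ | ⟨q, rfl⟩
    · right
      refine ⟨?_, hxy⟩
      have h1 := hp.start
      have h2 := hp.finish
      cases b
      · left
        simp [Skel.tail, Skel.head, ao_skel] at h1 h2
        exact ⟨h1.symm, h2.symm⟩
      · right
        simp [Skel.tail, Skel.head, ao_skel] at h1 h2
        exact ⟨h1.symm, h2.symm⟩
    · left
      have h1 := hp.start
      have h2 := hp.finish
      rw [List.head?_map, Option.map_map] at h1
      rw [List.getLast?_map, Option.map_map] at h2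
      rw [Option.map_eq_some_iff] at h1 h2
      obtain ⟨d, -, hd⟩ := h1
      obtain ⟨d', -, hd'⟩ := h2
      obtain ⟨x', -, rfl⟩ := ao_map_inl f _ x hd
      obtain ⟨y', -, rfl⟩ := ao_map_inl f _ y hd'
      have hne : x' ≠ y' := fun h => hxy (by rw [h])
      exact ⟨x', y', (hS x' y' hne).2 ⟨q, (ao_path S f pt u v x' y' q).1 hp⟩, rfl, rfl⟩

end

theorem add_outer [Finite V] [Finite W] (D : Drawing V) : ∃ R : ℝ, ∀ (f : V ↪ W) (z : W → ℝ),
    Function.Injective z → (∀ v, D.pt (Sum.inl v) = (z (f v) : ℂ)) → ∀ u v : W,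
    (∀ w, z u ≤ z w) → (∀ w, z w ≤ z v) → z u < - R → R < z v →
    ∃ D' : Drawing W, (∀ w, D'.pt (Sum.inl w) = (z w : ℂ)) ∧
      ∀ G : SimpleGraph V, D.Represents G → D'.Represents (G.map f ⊔ SimpleGraph.edge u v) := by
  obtain ⟨R, hR, hpt, hcv⟩ := ao_bound D
  refine ⟨R, fun f z hz hf u v _ _ hu hv => ?_⟩
  have huv : z u < z v := by linarith
  have hne : u ≠ v := fun h => by rw [h] at huv; exact lt_irrefl _ huv
  set pt : W ⊕ D.J → ℂ := fun x => Sum.elim (fun w => (z w : ℂ)) (fun j => D.pt (Sum.inr j)) x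
    with hptd
  have hmap : ∀ x : V ⊕ D.J, pt (Sum.map f id x) = D.pt x := by
    rintro (x | x)
    · exact (hf x).symm
    · rfl
  have hnorm : ∀ j, ‖pt (Sum.inr j)‖ < R := fun j => hpt _
  refine ⟨{ toSkel := ao_skel D.toSkel f pt u v
            finite_J := D.finite_J
            finite_A := ?_
            pt_inj := ?_
            vertex_im := ?_
            junction_im := D.junction_im
            curve := fun a => a.elim (ao_circ (z u) (z v)) D.curve
            curve_cont := ?_
            curve_inj := ?_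
            curve_par := ?_
            curve_int := ?_
            curve_disj := ?_
            u := D.u
            norm_u := D.norm_u
            tangent := ?_ }, ?_, ?_⟩
  · have := D.finite_A
    exact (inferInstance : Finite (Option D.A))
  · rintro (x | x) (y | y) h
    · have h' : (z x : ℂ) = (z y : ℂ) := h
      rw [hz (Complex.ofReal_injective h')]
    · exfalso
      have h' : (z x : ℂ) = D.pt (Sum.inr y) := h
      have h2 := D.junction_im y
      rw [← h'] at h2
      simp at h2
    · exfalso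
      have h' : D.pt (Sum.inr x) = (z y : ℂ) := h
      have h2 := D.junction_im x
      rw [h'] at h2
      simp at h2
    · have h' : D.pt (Sum.inr x) = D.pt (Sum.inr y) := h
      rw [Sum.inr_injective (D.pt_inj h')]
  · intro w
    exact Complex.ofReal_im _
  · rintro (_ | a)
    · exact ao_circ_cont _ _
    · exact D.curve_cont a
  · rintro (_ | a)
    · exact ao_circ_inj huv
    · exact D.curve_inj a
  · rintro (_ | a) b
    · change ao_circ (z u) (z v) (par b) = pt (Sum.inl (if b then v else u))
      rw [ao_circ_par]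
      cases b <;> rfl
    · change D.curve a (par b) = pt (Sum.map f id (D.ep a b))
      rw [hmap, D.curve_par]
  · rintro (_ | a) t h0 h1
    · refine ⟨ao_circ_im huv t h0 h1, ?_⟩
      rintro (w | j) h
      · have h2 := ao_circ_im huv t h0 h1
        have h' : ao_circ (z u) (z v) t = (z w : ℂ) := h
        rw [h'] at h2
        simp at h2
      · have h' : ao_circ (z u) (z v) t = pt (Sum.inr j) := h
        have h2 := ao_circ_norm hu hv hR t
        rw [h'] at h2
        exact lt_asymm h2 (hnorm j)
    · refine ⟨(D.curve_int a t h0 h1).1, ?_⟩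
      rintro (w | j) h
      · have h2 := (D.curve_int a t h0 h1).1
        have h' : D.curve a t = (z w : ℂ) := h
        rw [h'] at h2
        simp at h2
      · exact (D.curve_int a t h0 h1).2 (Sum.inr j) h
  · rintro (_ | a) (_ | b) s t hab h
    · exact absurd rfl hab
    · exfalso
      have h' : ao_circ (z u) (z v) s = D.curve b t := h
      have h2 := ao_circ_norm hu hv hR s
      rw [h'] at h2
      exact lt_asymm h2 (hcv b t)
    · exfalso
      have h' : D.curve a s = ao_circ (z u) (z v) t := h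
      have h2 := ao_circ_norm hu hv hR t
      rw [← h'] at h2
      exact lt_asymm h2 (hcv a s)
    · exact D.curve_disj a b s t (fun hh => hab (by rw [hh])) h
  · rintro (_ | a) b j h
    · exfalso
      have h' : (Sum.inl (if b then v else u) : W ⊕ D.J) = Sum.inr j := h
      exact Sum.inl_ne_inr h'
    · have h' : Sum.map f id (D.ep a b) = Sum.inr j := h
      exact D.tangent a b j ((ao_map_inr f _ _).1 h')
  · intro w
    rfl
  · intro G hG
    exact ao_represents D.toSkel f pt u v G hne hG

end Pool.Agent.Confl
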