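import Pool.Agent.Confl.Defs

/-!
# The relation on which the recognition algorithm is based: definitions
-/

set_option autoImplicit false

namespace Pool.Agent.Confl

variable {V : Type}

/-- Nodes: `lit o a b s` (for `s = true`: in the cyclic order starting at `o`, the vertex `a`
comes before `b`; for `s = false` the contrary) and auxiliary nodes. -/
inductive Node (V : Type) : Type
  | lit (o a b : V) (s : Bool) : Node V
  | walk (o p q b r : V) (s : Bool) : Node V

/-- The edges `pq` and `rs` must not cross. -/
def Illegal (G : SimpleGraph V) (p q r s : V) : Prop :=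
  ¬ ((G.Adj p r ∧ G.Adj q s) ∨ (G.Adj p s ∧ G.Adj q r))

/-- The steps. -/
inductive Step (G : SimpleGraph V) : Node V → Node V → Prop
  | flip (o a b : V) (s : Bool) (h : a ≠ b) : Step G (.lit o a b s) (.lit o b a (!s))
  | enter (o p q b : V) (s : Bool) (h : G.Adj p q) (hp : b ≠ p) (hq : b ≠ q) (hpo : p ≠ o)
      (hqo : q ≠ o) : Step G (.lit o p b s) (.walk o p q b b s)
  | move (o p q b r r' : V) (s : Bool) (h : G.Adj r r') (h1 : r ≠ p) (h2 : r ≠ q) (h3 : r' ≠ p)
      (h4 : r' ≠ q) (hi : Illegal G p q r r') :
      Step G (.walk o p q b r s) (.walk o p q b r' s)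
  | leave (o p q b : V) (s : Bool) (h : G.Adj p q) (hp : b ≠ p) (hq : b ≠ q) (hpo : p ≠ o)
      (hqo : q ≠ o) : Step G (.walk o p q b o s) (.lit o q b s)

/-- No literal is connected with its negation. -/
def NoConflict (G : SimpleGraph V) : Prop :=
  ∀ o a b : V, ¬ Relation.EqvGen (Step G) (.lit o a b true) (.lit o a b false)

/-- `w` is neither `v` nor adjacent to `v`. -/
def Out (G : SimpleGraph V) (v w : V) : Prop := w ≠ v ∧ ¬ G.Adj v w

/-- `a` and `b` lie in the same component of `G - N[v]`. -/
def SameComp (G : SimpleGraph V) (v a b : V) : Prop :=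
  Out G v a ∧ Relation.ReflTransGen (fun p q => G.Adj p q ∧ Out G v p ∧ Out G v q) a b

end Pool.Agent.Confl
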