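import Pool.Agent.Confl.Alg

/-!
# Special chains and the theorem on arcs (package CF4)
-/

set_option autoImplicit false

namespace Pool.Agent.Confl

variable {V : Type}

theorem arcs_sc_out {G : SimpleGraph V} {v a b : V} (h : SameComp G v a b) : Out G v b := by
  obtain ⟨ha, h⟩ := h
  induction h with
  | refl => exact ha
  | tail _ h _ => exact h.2.2

theorem arcs_sc_refl {G : SimpleGraph V} {v a : V} (h : Out G v a) : SameComp G v a a :=
  ⟨h, Relation.ReflTransGen.refl⟩

theorem arcs_sc_step {G : SimpleGraph V} {v k a b : V} (h : SameComp G v k a) (hab : G.Adj a b)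
    (hb : Out G v b) : SameComp G v k b :=
  ⟨h.1, h.2.tail ⟨hab, arcs_sc_out h, hb⟩⟩

theorem arcs_sc_trans {G : SimpleGraph V} {v a b c : V} (h : SameComp G v a b)
    (h' : SameComp G v b c) : SameComp G v a c :=
  ⟨h.1, h.2.trans h'.2⟩

theorem arcs_sc_symm {G : SimpleGraph V} {v a b : V} (h : SameComp G v a b) :
    SameComp G v b a := by
  refine ⟨arcs_sc_out h, ?_⟩
  obtain ⟨_, h⟩ := h
  induction h with
  | refl => exact Relation.ReflTransGen.refl
  | tail _ h ih => exact Relation.ReflTransGen.head ⟨h.1.symm, h.2.2, h.2.1⟩ ih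

theorem special_chain (G : SimpleGraph V) {v k c : V} (hk : Out G v k)
    (hc : ¬ SameComp G v k c) (hr : G.Reachable c v) :
    Relation.ReflTransGen (fun r s => G.Adj r s ∧ ¬ SameComp G v k r ∧ ¬ SameComp G v k s ∧
      ((∀ w, SameComp G v k w → ¬ G.Adj r w) ∨ (∀ w, SameComp G v k w → ¬ G.Adj s w))) c v := by
  obtain ⟨p⟩ := hr
  induction p with
  | nil => exact Relation.ReflTransGen.refl
  | @cons c c' v hcc p ih =>
    by_cases h1 : c = v
    · rw [h1]
    by_cases h2 : G.Adj v c
    · refine Relation.ReflTransGen.single ⟨h2.symm, hc, fun h => (arcs_sc_out h).1 rfl,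
        Or.inr fun w hw => (arcs_sc_out hw).2⟩
    · have hO : Out G v c := ⟨h1, h2⟩
      have h3 : ∀ w, SameComp G v k w → ¬ G.Adj c w := fun w hw hcw =>
        hc (arcs_sc_step hw hcw.symm hO)
      have h4 : ¬ SameComp G v k c' := fun h => h3 c' h hcc
      exact Relation.ReflTransGen.head ⟨hcc, hc, h4, Or.inl h3⟩ (ih hk h4)

theorem lc_of_arcs (G : SimpleGraph V) (x : V → ℝ)
    (h : ∀ v k, Out G v k → ∀ p, G.Adj v p →
      ∀ a b, SameComp G v k a → SameComp G v k b → (Btw x a b v ↔ Btw x a b p)) :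
    LC G x := by
  intro a b c d hab hbc hcd hac hbd
  have key : ∀ v p k l : V, G.Adj v p → G.Adj k l → Out G v k → Out G v l →
      (Btw x k l v ↔ Btw x k l p) := fun v p k l hvp hkl hk hl =>
    h v k hk p hvp k l (arcs_sc_refl hk) (arcs_sc_step (arcs_sc_refl hk) hkl hl)
  have nab : a ≠ b := fun h => by rw [h] at hab; exact lt_irrefl _ hab
  have nad : a ≠ d := fun h => by
    rw [h] at hab; exact lt_asymm (hab.trans hbc) hcd
  have nbc : b ≠ c := fun h => by rw [h] at hbc; exact lt_irrefl _ hbc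
  have ncd : c ≠ d := fun h => by rw [h] at hcd; exact lt_irrefl _ hcd
  have T1 : Btw x b d c := Or.inl ⟨hbc, hcd⟩
  have T2 : Btw x a c b := Or.inl ⟨hab, hbc⟩
  have F1 : ¬ Btw x b d a := by
    rintro (⟨h1, h2⟩ | ⟨h1, h2⟩) <;> linarith
  have F2 : ¬ Btw x a c d := by
    rintro (⟨h1, h2⟩ | ⟨h1, h2⟩) <;> linarith
  by_contra hcon
  push Not at hcon
  obtain ⟨h1, h2⟩ := hcon
  by_cases hab' : G.Adj a b
  · have hcd' := h1 hab'
    by_cases had' : G.Adj a d
    · have hbc' := h2 had'
      have := key c a b d hac.symm hbd ⟨nbc, fun h => hbc' h.symm⟩ ⟨ncd.symm, hcd'⟩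
      exact F1 (this.1 T1)
    · have := key d b a c hbd.symm hac ⟨nad, fun h => had' h.symm⟩ ⟨ncd, fun h => hcd' h.symm⟩
      exact F2 (this.2 T2)
  · by_cases had' : G.Adj a d
    · have hbc' := h2 had'
      have := key b d a c hbd hac ⟨nab, fun h => hab' h.symm⟩ ⟨nbc.symm, hbc'⟩
      exact F2 (this.1 T2)
    · have := key a c b d hac hbd ⟨nab.symm, hab'⟩ ⟨nad.symm, had'⟩
      exact F1 (this.2 T1)

theorem arcs_supp (G : SimpleGraph V) (v k : V) (hk : Out G v k) :
    (Subtype.val '' ((G.induce {w | w ≠ v ∧ ¬ G.Adj v w}).connectedComponentMk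
      ⟨k, hk⟩).supp : Set V) = {w | SameComp G v k w} := by
  ext w
  constructor
  · rintro ⟨⟨w', hw'⟩, hs, rfl⟩
    have hs' : (G.induce {w | w ≠ v ∧ ¬ G.Adj v w}).Reachable ⟨w', hw'⟩ ⟨k, hk⟩ :=
      SimpleGraph.ConnectedComponent.exact hs
    rw [SimpleGraph.reachable_iff_reflTransGen] at hs'
    have : ∀ a b : {w | w ≠ v ∧ ¬ G.Adj v w},
        Relation.ReflTransGen (G.induce {w | w ≠ v ∧ ¬ G.Adj v w}).Adj a b →
        SameComp G v a.1 b.1 := by
      intro a b hab
      induction hab with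
      | refl => exact arcs_sc_refl a.2
      | @tail b c _ h ih => exact arcs_sc_step ih h c.2
    exact arcs_sc_symm (this _ _ hs')
  · intro hw
    have hw' : SameComp G v k w := hw
    refine ⟨⟨w, arcs_sc_out hw'⟩, ?_, rfl⟩
    refine SimpleGraph.ConnectedComponent.sound ?_
    refine SimpleGraph.Reachable.symm ?_
    rw [SimpleGraph.reachable_iff_reflTransGen]
    obtain ⟨h1, h2⟩ := hw'
    clear hw
    induction h2 with
    | refl => exact Relation.ReflTransGen.refl
    | @tail b c _ h ih => exact Relation.ReflTransGen.tail ih (by exact h.1)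

theorem arcProp_iff (G : SimpleGraph V) (x : V → ℝ) :
    ArcProp G x ↔ ∀ v k, Out G v k → IsArc x {w | SameComp G v k w} := by
  constructor
  · intro h v k hk
    have := h v ((G.induce {w | w ≠ v ∧ ¬ G.Adj v w}).connectedComponentMk ⟨k, hk⟩)
    rwa [arcs_supp G v k hk] at this
  · intro h v C
    induction C using SimpleGraph.ConnectedComponent.ind with
    | h k =>
      obtain ⟨k, hk⟩ := k
      have := arcs_supp G v k hk
      rw [this]
      exact h v k hk

/-- The exchange of the two pairs in the statement on alternation. -/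
theorem arcs_btw_swap {r s a b : ℝ} (h2 : r ≠ a) (h3 : r ≠ b) (h4 : s ≠ a) (h5 : s ≠ b)
    (h : ((r < a ∧ a < s) ∨ (s < a ∧ a < r)) ↔ ((r < b ∧ b < s) ∨ (s < b ∧ b < r))) :
    ((a < r ∧ r < b) ∨ (b < r ∧ r < a)) ↔ ((a < s ∧ s < b) ∨ (b < s ∧ s < a)) := by
  grind

/-- Alternating edges. -/
theorem arcs_lc_alt (G : SimpleGraph V) (x : V → ℝ) (hx : Function.Injective x)
    (hlc : LC G x) {a b c d : V} (hab : G.Adj a b) (hcd : G.Adj c d)
    (had : a ≠ d) (hbd : b ≠ d) (h1 : Btw x a b c) (h2 : ¬ Btw x a b d) :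
    (G.Adj a c ∧ G.Adj b d) ∨ (G.Adj a d ∧ G.Adj b c) := by
  have h3 := hlc a c b d
  have h4 := hlc b c a d
  have h5 := hlc d a c b
  have h6 := hlc d b c a
  have s1 := G.adj_comm a b
  have s2 := G.adj_comm a c
  have s3 := G.adj_comm a d
  have s4 := G.adj_comm b c
  have s5 := G.adj_comm b d
  have s6 := G.adj_comm c d
  have n1 : x a ≠ x d := fun h => had (hx h)
  have n2 : x b ≠ x d := fun h => hbd (hx h)
  unfold Btw at h1 h2
  rcases lt_or_gt_of_ne n1 with g1 | g1 <;> rcases lt_or_gt_of_ne n2 with g2 | g2 <;>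
    rcases h1 with ⟨g3, g4⟩ | ⟨g3, g4⟩ <;> grind

theorem arcs_step (G : SimpleGraph V) (x : V → ℝ) (hx : Function.Injective x)
    (hlc : LC G x) {v k r s : V} (hrs : G.Adj r s) (hr : ¬ SameComp G v k r)
    (hs : ¬ SameComp G v k s)
    (h : (∀ w, SameComp G v k w → ¬ G.Adj r w) ∨ (∀ w, SameComp G v k w → ¬ G.Adj s w))
    {a b : V} (ha : SameComp G v k a) (hb : SameComp G v k b) :
    Btw x a b r ↔ Btw x a b s := by
  have nra : ∀ w, SameComp G v k w → r ≠ w := fun w hw h => hr (h ▸ hw)
  have nsa : ∀ w, SameComp G v k w → s ≠ w := fun w hw h => hs (h ▸ hw)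
  have key : ∀ p p', SameComp G v k p → SameComp G v k p' → G.Adj p p' → Btw x r s p →
      Btw x r s p' := by
    intro p p' hp hp' hpp h1
    by_contra h2
    have := arcs_lc_alt G x hx hlc hrs hpp (nra p' hp') (nsa p' hp') h1 h2
    rcases this with ⟨g1, g2⟩ | ⟨g1, g2⟩
    · rcases h with h | h
      · exact h _ hp g1
      · exact h _ hp' g2
    · rcases h with h | h
      · exact h _ hp' g1
      · exact h _ hp g2
  have key2 : ∀ c, SameComp G v k c → (Btw x r s k ↔ Btw x r s c) := by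
    rintro c ⟨hk, hc⟩
    induction hc with
    | refl => exact Iff.rfl
    | @tail b c hb h ih =>
      have hb' : SameComp G v k b := ⟨hk, hb⟩
      have hc' : SameComp G v k c := arcs_sc_step hb' h.1 h.2.2
      exact ih.trans ⟨key b c hb' hc' h.1, key c b hc' hb' h.1.symm⟩
  have h3 : Btw x r s a ↔ Btw x r s b := (key2 a ha).symm.trans (key2 b hb)
  exact arcs_btw_swap (fun h => nra a ha (hx h)) (fun h => nra b hb (hx h))
    (fun h => nsa a ha (hx h)) (fun h => nsa b hb (hx h)) h3

theorem lc_iff_arcProp [Finite V] (G : SimpleGraph V) (x : V → ℝ) (hx : Function.Injective x)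
    (hG : G.Connected) : LC G x ↔ ArcProp G x := by
  rw [arcProp_iff]
  constructor
  · intro hlc v k hk a ha b hb c hc d hd
    have key : ∀ c, ¬ SameComp G v k c → (Btw x a b c ↔ Btw x a b v) := by
      intro c hc
      have := special_chain G hk hc (hG.preconnected c v)
      induction this using Relation.ReflTransGen.head_induction_on with
      | refl => exact Iff.rfl
      | @head c c' h _ ih =>
        exact (arcs_step G x hx hlc h.1 h.2.1 h.2.2.1 h.2.2.2 ha hb).trans (ih h.2.2.1)
    exact (key c hc).trans (key d hd).symm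
  · intro h
    apply lc_of_arcs
    intro v k hk p hvp a b ha hb
    exact h v k hk a ha b hb v (fun h => (arcs_sc_out h).1 rfl) p
      (fun h => (arcs_sc_out h).2 hvp)

end Pool.Agent.Confl
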