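import Pool.Agent.Confl.Defs

/-!
# The chord drawing: definitions

Vertices are placed at the points `x v` of the real axis; the edge with end points `a`, `b` is
drawn as the parabola arc `y = (t - x a) * (t - x b)` below the real axis. Two such arcs meet in at
most one point besides common end points, and they do so iff the end points alternate.
-/

set_option autoImplicit false

open Filter Topology Set

namespace Pool.Agent.Confl

variable {V : Type}

/-- The parabola through `x a` and `x b`. -/
def q (x : V → ℝ) (a b : V) (t : ℝ) : ℝ := (t - x a) * (t - x b)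

/-- The pairs `{a, b}` and `{c, d}` alternate in the order `x`. -/
def Alt (x : V → ℝ) (a b c d : V) : Prop :=
  (Btw x a b c ∧ ¬ Btw x a b d ∧ d ≠ a ∧ d ≠ b) ∨ (Btw x a b d ∧ ¬ Btw x a b c ∧ c ≠ a ∧ c ≠ b)

/-- The coordinate of the crossing of the chords `ab` and `cd`. -/
noncomputable def X (x : V → ℝ) (a b c d : V) : ℝ :=
  (x c * x d - x a * x b) / ((x c + x d) - (x a + x b))

/-- No three chords have a common interior point. -/
def Generic (x : V → ℝ) : Prop :=
  ∀ a b c d e f : V, ∀ t : ℝ, x a < t → t < x b → x c < t → t < x d → x e < t → t < x f →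
    (a, b) ≠ (c, d) → (a, b) ≠ (e, f) → (c, d) ≠ (e, f) →
    q x a b t = q x c d t → q x a b t ≠ q x e f t

/-- The edges, from left to right. -/
abbrev Edge (G : SimpleGraph V) (x : V → ℝ) : Type :=
  {e : V × V // x e.1 < x e.2 ∧ G.Adj e.1 e.2}

/-- The crossings: pairs of edges `e`, `f` with `e.1 < f.1 < e.2 < f.2`. -/
abbrev Cro (G : SimpleGraph V) (x : V → ℝ) : Type :=
  {c : Edge G x × Edge G x // x c.1.1.1 < x c.2.1.1 ∧ x c.2.1.1 < x c.1.1.2 ∧
    x c.1.1.2 < x c.2.1.2}

variable {G : SimpleGraph V} {x : V → ℝ}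

/-- The coordinate of a node (vertex or crossing). -/
noncomputable def cx (G : SimpleGraph V) (x : V → ℝ) : V ⊕ Cro G x → ℝ
  | Sum.inl v => x v
  | Sum.inr c => X x c.1.1.1.1 c.1.1.1.2 c.1.2.1.1 c.1.2.1.2

/-- The point of a node. -/
noncomputable def cpt (G : SimpleGraph V) (x : V → ℝ) : V ⊕ Cro G x → ℂ
  | Sum.inl v => (x v : ℂ)
  | Sum.inr c => ⟨cx G x (Sum.inr c), q x c.1.1.1.1 c.1.1.1.2 (cx G x (Sum.inr c))⟩

/-- The node lies on the edge. -/
def On (e : Edge G x) : V ⊕ Cro G x → Prop
  | Sum.inl v => v = e.1.1 ∨ v = e.1.2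
  | Sum.inr c => c.1.1 = e ∨ c.1.2 = e

/-- The arcs: parts of edges between consecutive nodes. -/
structure Arc (G : SimpleGraph V) (x : V → ℝ) where
  /-- the edge -/
  e : Edge G x
  /-- left end -/
  l : V ⊕ Cro G x
  /-- right end -/
  r : V ⊕ Cro G x
  on_l : On e l
  on_r : On e r
  lt : cx G x l < cx G x r
  cons : ∀ n, On e n → ¬ (cx G x l < cx G x n ∧ cx G x n < cx G x r)

/-- The crossing is of the kind `Y`: the two left end points are adjacent, and so are the two
right end points. -/
def KindY (c : Cro G x) : Prop := G.Adj c.1.1.1.1 c.1.2.1.1 ∧ G.Adj c.1.1.1.2 c.1.2.1.2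

open Classical in
/-- Direction of an arc at a node; the arc leaves its left end (`false`) to the right. -/
noncomputable def cdir (a : Arc G x) (b : Bool) : Bool :=
  match (if b then a.r else a.l) with
  | Sum.inl _ => true
  | Sum.inr c => if KindY c then (decide (a.e = c.1.1) == !b) else !b

/-- The skeleton of the chord drawing. -/
noncomputable def chordSkel (G : SimpleGraph V) (x : V → ℝ) : Skel V where
  J := Cro G x
  A := Arc G x
  pt := cpt G x
  ep := fun a b => if b then a.r else a.l
  dir := cdir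

/-- The curve of an arc of the chord drawing. -/
noncomputable def ccurve (a : Arc G x) (t : unitInterval) : ℂ :=
  ⟨cx G x a.l + t * (cx G x a.r - cx G x a.l),
    q x a.e.1.1 a.e.1.2 (cx G x a.l + t * (cx G x a.r - cx G x a.l))⟩

/-- The slope of the bisecting line at a crossing. -/
noncomputable def slope (c : Cro G x) : ℝ :=
  2 * cx G x (Sum.inr c) - (x c.1.1.1.1 + x c.1.1.1.2 + x c.1.2.1.1 + x c.1.2.1.2) / 2

open Classical in
/-- The direction of the tangent at a crossing: upward normal of the bisecting line if the kind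
is `Y`, and to the right otherwise. -/
noncomputable def cu (c : Cro G x) : ℂ :=
  if KindY c then
    (⟨- slope c, 1⟩ : ℂ) / ((Real.sqrt (1 + slope c ^ 2) : ℝ) : ℂ)
  else 1

/-- A drawing in which the arcs at each junction leave within cones around the two directions of
the tangent, instead of being tangent. -/
structure WeakDrawing (V : Type) extends Skel V where
  finite_J : Finite J
  finite_A : Finite A
  pt_inj : Function.Injective pt
  vertex_im : ∀ v, (pt (Sum.inl v)).im = 0
  junction_im : ∀ j, (pt (Sum.inr j)).im < 0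
  curve : A → unitInterval → ℂ
  curve_cont : ∀ a, Continuous (curve a)
  curve_inj : ∀ a, Function.Injective (curve a)
  curve_par : ∀ a b, curve a (par b) = pt (ep a b)
  curve_int : ∀ a t, t ≠ 0 → t ≠ 1 → (curve a t).im < 0 ∧ ∀ x, curve a t ≠ pt x
  curve_disj : ∀ a b s t, a ≠ b → curve a s = curve b t → (s = 0 ∨ s = 1) ∧ (t = 0 ∨ t = 1)
  u : J → ℂ
  norm_u : ∀ j, ‖u j‖ = 1
  cone : ∀ a b j, ep a b = Sum.inr j → ∃ M : ℝ, ∀ᶠ t in 𝓝[≠] par b,
    0 < sgn (dir a b) * ((curve a t - pt (Sum.inr j)) * (starRingEnd ℂ) (u j)).re ∧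
    |((curve a t - pt (Sum.inr j)) * (starRingEnd ℂ) (u j)).im| ≤
      M * (sgn (dir a b) * ((curve a t - pt (Sum.inr j)) * (starRingEnd ℂ) (u j)).re)

end Pool.Agent.Confl
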