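import Mathlib

/-!
# Linear orders from equivalences of pairs
-/

set_option autoImplicit false
set_option linter.unusedSectionVars false

namespace Pool.Agent.Confl

section Linear

variable {α : Type*} [DecidableEq α] {E : Finset α} {R : α → α → α → α → Prop}

private def linF (E : Finset α) (R : α → α → α → α → Prop) (S : Set α) : Prop :=
  S ⊆ E ∧ ∀ a ∈ S, ∀ b ∈ S, ∀ c ∈ E, c ∉ S → R a c b c

private def linGood (E : Finset α) (R : α → α → α → α → Prop) (r : α → ℝ) : Prop :=
  Set.InjOn r E ∧ ∀ S : Set α, linF E R S →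
    ∀ a ∈ S, ∀ b ∈ S, ∀ c ∈ E, r a < r c → r c < r b → c ∈ S

private theorem linF_union (htrans : ∀ a b c d e f, R a b c d → R c d e f → R a b e f)
    {S T : Set α} (hS : linF E R S) (hT : linF E R T) {d : α} (hdS : d ∈ S) (hdT : d ∈ T) :
    linF E R (S ∪ T) := by
  refine ⟨Set.union_subset hS.1 hT.1, ?_⟩
  intro a ha b hb c hc hcn
  have hcS : c ∉ S := fun h => hcn (Or.inl h)
  have hcT : c ∉ T := fun h => hcn (Or.inr h)
  have h1 : ∀ z ∈ S ∪ T, R z c d c ∧ R d c z c := by
    rintro z (hz | hz)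
    · exact ⟨hS.2 z hz d hdS c hc hcS, hS.2 d hdS z hz c hc hcS⟩
    · exact ⟨hT.2 z hz d hdT c hc hcT, hT.2 d hdT z hz c hc hcT⟩
  exact htrans _ _ _ _ _ _ (h1 a ha).1 (h1 b hb).2

private theorem linF_inter {S T : Set α} (hS : linF E R S) (hT : linF E R T) :
    linF E R (S ∩ T) := by
  refine ⟨fun x hx => hS.1 hx.1, ?_⟩
  intro a ha b hb c hc hcn
  by_cases h : c ∈ S
  · exact hT.2 a ha.2 b hb.2 c hc fun h' => hcn ⟨h, h'⟩
  · exact hS.2 a ha.1 b hb.1 c hc h

private theorem linF_diff (htrans : ∀ a b c d e f, R a b c d → R c d e f → R a b e f)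
    (hinv : ∀ a b c d, R a b c d → R b a d c)
    {S T : Set α} (hS : linF E R S) (hT : linF E R T) {d : α} (hdT : d ∈ T) (hdS : d ∉ S) :
    linF E R (S \ T) := by
  refine ⟨fun x hx => hS.1 hx.1, ?_⟩
  intro a ha b hb c hc hcn
  by_cases h : c ∈ S
  · have hcT : c ∈ T := by
      by_contra h'
      exact hcn ⟨h, h'⟩
    have h1 : R a c a d := hinv _ _ _ _ (hT.2 c hcT d hdT a (hS.1 ha.1) ha.2)
    have h2 : R a d b d := hS.2 a ha.1 b hb.1 d (hT.1 hdT) hdS
    have h3 : R b d b c := hinv _ _ _ _ (hT.2 d hdT c hcT b (hS.1 hb.1) hb.2)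
    exact htrans _ _ _ _ _ _ h1 (htrans _ _ _ _ _ _ h2 h3)
  · exact hS.2 a ha.1 b hb.1 c hc h

private theorem linF_erase (b : α) {S : Set α} (hS : linF E R S) :
    linF (E.erase b) R (S \ {b}) := by
  refine ⟨?_, ?_⟩
  · intro x hx
    rw [Finset.mem_coe, Finset.mem_erase]
    exact ⟨hx.2, hS.1 hx.1⟩
  · intro x hx y hy c hc hcn
    rw [Finset.mem_erase] at hc
    exact hS.2 x hx.1 y hy.1 c hc.2 fun h => hcn ⟨h, hc.1⟩

private theorem linGood_neg {r : α → ℝ} (h : linGood E R r) : linGood E R fun x => -r x := by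
  refine ⟨fun x hx y hy hxy => h.1 hx hy (neg_injective hxy), ?_⟩
  intro S hS a ha b hb c hc h1 h2
  exact h.2 S hS b hb a ha c hc (neg_lt_neg_iff.1 h2) (neg_lt_neg_iff.1 h1)

/-- Insertion of `b` directly to the right of `a`. -/
private theorem lin_ins (E : Finset α) (r : α → ℝ) {a b : α} (ha : a ∈ E.erase b) (hr : Set.InjOn r (E.erase b)) :
    ∃ r' : α → ℝ, Set.InjOn r' E ∧
      (∀ x ∈ E.erase b, ∀ y ∈ E.erase b, (r' x < r' y ↔ r x < r y)) ∧
      (∀ x ∈ E.erase b, (r' x < r' b ↔ r x ≤ r a)) ∧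
      (∀ x ∈ E.erase b, (r' b < r' x ↔ r a < r x)) := by
  obtain ⟨ε, hε, hE⟩ : ∃ ε > 0, ∀ x ∈ E.erase b, r a < r x → r a + ε < r x := by
    by_cases hne : ((E.erase b).filter fun x => r a < r x).Nonempty
    · obtain ⟨x₀, hx₀, hmin⟩ := Finset.exists_min_image _ r hne
      rw [Finset.mem_filter] at hx₀
      refine ⟨(r x₀ - r a) / 2, by linarith [hx₀.2], fun x hx hax => ?_⟩
      have := hmin x (Finset.mem_filter.2 ⟨hx, hax⟩)
      linarith [hx₀.2]
    · refine ⟨1, one_pos, fun x hx hax => absurd ⟨x, Finset.mem_filter.2 ⟨hx, hax⟩⟩ hne⟩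
  refine ⟨Function.update r b (r a + ε), ?_, ?_, ?_, ?_⟩
  · intro x hx y hy hxy
    by_cases h1 : x = b <;> by_cases h2 : y = b
    · rw [h1, h2]
    · exfalso
      subst h1
      rw [Function.update_self, Function.update_of_ne h2] at hxy
      have h3 : r a < r y := by linarith
      have := hE y (Finset.mem_erase.2 ⟨h2, hy⟩) h3
      linarith
    · exfalso
      subst h2
      rw [Function.update_self, Function.update_of_ne h1] at hxy
      have h3 : r a < r x := by linarith
      have := hE x (Finset.mem_erase.2 ⟨h1, hx⟩) h3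
      linarith
    · rw [Function.update_of_ne h1, Function.update_of_ne h2] at hxy
      exact hr (Finset.mem_coe.2 (Finset.mem_erase.2 ⟨h1, hx⟩))
        (Finset.mem_coe.2 (Finset.mem_erase.2 ⟨h2, hy⟩)) hxy
  · intro x hx y hy
    rw [Function.update_of_ne (Finset.ne_of_mem_erase hx),
      Function.update_of_ne (Finset.ne_of_mem_erase hy)]
  · intro x hx
    rw [Function.update_of_ne (Finset.ne_of_mem_erase hx), Function.update_self]
    constructor
    · intro h
      by_contra h'
      have := hE x hx (not_le.1 h')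
      linarith
    · intro h
      linarith
  · intro x hx
    rw [Function.update_of_ne (Finset.ne_of_mem_erase hx), Function.update_self]
    exact ⟨fun h => by linarith, hE x hx⟩

/-- Insertion of `b` next to `a` is possible if the following conditions hold. -/
private theorem lin_insert {a b : α} (hb : b ∈ E) (ha : a ∈ E.erase b) {r : α → ℝ}
    (hr : linGood (E.erase b) R r)
    (h1 : ∀ S : Set α, linF E R S → a ∈ S → b ∉ S → ∀ x ∈ S, r x ≤ r a)
    (h2 : ∀ S : Set α, linF E R S → b ∈ S → a ∉ S → ∀ x ∈ S, x ≠ b → r a ≤ r x)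
    (h3 : ∀ S : Set α, linF E R S → b ∈ S → a ∉ S → ∀ x ∈ S, x ≠ b → linF E R (S ∪ {a})) :
    ∃ r' : α → ℝ, linGood E R r' := by
  obtain ⟨r', hinj, hxy, hxb, hbx⟩ := lin_ins E r ha hr.1
  refine ⟨r', hinj, ?_⟩
  intro S hS p hp q hq c hc hpc hcq
  by_contra hcS
  have hpc' : p ≠ c := fun h => by rw [h] at hpc; exact lt_irrefl _ hpc
  -- the interval property of the order without `b`
  have key : ∀ T : Set α, linF E R T → ∀ p ∈ T, p ≠ b → ∀ q ∈ T, q ≠ b → ∀ c ∈ E.erase b,
      r p < r c → r c < r q → c ∈ T := by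
    intro T hT p hp hpb q hq hqb c hc h4 h5
    exact (hr.2 _ (linF_erase b hT) p ⟨hp, hpb⟩ q ⟨hq, hqb⟩ c hc h4 h5).1
  have hmem : ∀ z ∈ S, z ≠ b → z ∈ E.erase b := fun z hz hzb =>
    Finset.mem_erase.2 ⟨hzb, hS.1 hz⟩
  by_cases hbS : b ∈ S
  · have hcb : c ≠ b := fun h => hcS (by rw [h]; exact hbS)
    have hcE : c ∈ E.erase b := Finset.mem_erase.2 ⟨hcb, hc⟩
    by_cases haS : a ∈ S
    · have hca : c ≠ a := fun h => hcS (by rw [h]; exact haS)
      have hab : a ≠ b := Finset.ne_of_mem_erase ha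
      by_cases hpb : p = b
      · subst hpb
        have h4 : r a < r c := (hbx c hcE).1 hpc
        have hqp : q ≠ p := fun h => by
          rw [h] at hcq
          exact lt_irrefl _ (hpc.trans hcq)
        exact hcS (key S hS a haS hab q hq hqp c hcE h4 ((hxy c hcE q (hmem q hq hqp)).1 hcq))
      · have h4 : r p < r c := (hxy p (hmem p hp hpb) c hcE).1 hpc
        by_cases hqb : q = b
        · subst hqb
          have h5 : r c ≤ r a := (hxb c hcE).1 hcq
          have h6 : r c < r a := lt_of_le_of_ne h5 fun h => hca (hr.1 (Finset.mem_coe.2 hcE)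
            (Finset.mem_coe.2 ha) h)
          exact hcS (key S hS p hp hpb a haS hab c hcE h4 h6)
        · exact hcS (key S hS p hp hpb q hq hqb c hcE h4 ((hxy c hcE q (hmem q hq hqb)).1 hcq))
    · by_cases hpb : p = b
      · subst hpb
        have h4 : r a < r c := (hbx c hcE).1 hpc
        have hqp : q ≠ p := fun h => by
          rw [h] at hcq
          exact lt_irrefl _ (hpc.trans hcq)
        have h5 := h3 S hS hbS haS q hq hqp
        have h6 := key _ h5 a (Or.inr rfl) (Finset.ne_of_mem_erase ha) q (Or.inl hq) hqp c hcE h4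
          ((hxy c hcE q (hmem q hq hqp)).1 hcq)
        rcases h6 with h6 | h6
        · exact hcS h6
        · rw [Set.mem_singleton_iff.1 h6] at h4
          exact lt_irrefl _ h4
      · have h4 : r p < r c := (hxy p (hmem p hp hpb) c hcE).1 hpc
        by_cases hqb : q = b
        · subst hqb
          have h5 : r c ≤ r a := (hxb c hcE).1 hcq
          have h6 := h2 S hS hbS haS p hp hpb
          linarith
        · exact hcS (key S hS p hp hpb q hq hqb c hcE h4 ((hxy c hcE q (hmem q hq hqb)).1 hcq))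
  · have hpb : p ≠ b := fun h => hbS (by rw [← h]; exact hp)
    have hqb : q ≠ b := fun h => hbS (by rw [← h]; exact hq)
    by_cases hcb : c = b
    · subst hcb
      have h4 : r p ≤ r a := (hxb p (hmem p hp hpb)).1 hpc
      have h5 : r a < r q := (hbx q (hmem q hq hqb)).1 hcq
      by_cases haS : a ∈ S
      · exact absurd (h1 S hS haS hbS q hq) (not_le.2 h5)
      · have hpa : p ≠ a := fun h => haS (by rw [← h]; exact hp)
        have h6 : r p < r a := lt_of_le_of_ne h4 fun h => hpa (hr.1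
          (Finset.mem_coe.2 (hmem p hp hpb)) (Finset.mem_coe.2 ha) h)
        exact haS (key S hS p hp hpb q hq hqb a ha h6 h5)
    · have hcE : c ∈ E.erase b := Finset.mem_erase.2 ⟨hcb, hc⟩
      exact hcS (key S hS p hp hpb q hq hqb c hcE ((hxy p (hmem p hp hpb) c hcE).1 hpc)
        ((hxy c hcE q (hmem q hq hqb)).1 hcq))

/-- The mixed case. -/
private theorem lin_mixed (hsymm : ∀ a b c d, R a b c d → R c d a b)
    (htrans : ∀ a b c d e f, R a b c d → R c d e f → R a b e f)
    (hinv : ∀ a b c d, R a b c d → R b a d c)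
    (hno : ∀ a ∈ E, ∀ b ∈ E, a ≠ b → ¬ R a b b a) {a b : α} (hb : b ∈ E) (ha : a ∈ E.erase b)
    (hab : linF E R {a, b}) {r : α → ℝ} (hr : linGood (E.erase b) R r)
    {S : Set α} (hS : linF E R S) (haS : a ∈ S) (hbS : b ∉ S) {x : α} (hxS : x ∈ S)
    (hx : r a < r x) {T : Set α} (hT : linF E R T) (hbT : b ∈ T) (haT : a ∉ T) {y : α}
    (hyT : y ∈ T) (hyb : y ≠ b) (hy : r a < r y) : False := by
  have hane : a ≠ b := Finset.ne_of_mem_erase ha
  -- a common element
  obtain ⟨z, hzS, hzT, hza⟩ : ∃ z, z ∈ S ∧ z ∈ T ∧ r a < r z := by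
    rcases le_or_gt (r x) (r y) with h | h
    · refine ⟨x, hxS, ?_, hx⟩
      have hxb : x ≠ b := fun h => hbS (by rw [← h]; exact hxS)
      have hxE : x ∈ E.erase b := Finset.mem_erase.2 ⟨hxb, hS.1 hxS⟩
      rcases h.eq_or_lt with h | h
      · have : x = y := hr.1 (Finset.mem_coe.2 hxE)
          (Finset.mem_coe.2 (Finset.mem_erase.2 ⟨hyb, hT.1 hyT⟩)) h
        rw [this]
        exact hyT
      · have hU : linF E R (T ∪ {a, b}) := linF_union htrans hT hab hbT (by simp)
        have h1 := (hr.2 _ (linF_erase b hU) a ⟨by simp, hane⟩ y ⟨Or.inl hyT, hyb⟩ x hxE hx h).1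
        rcases h1 with h1 | h1
        · exact h1
        · rcases h1 with h1 | h1
          · rw [h1] at hx
            exact absurd hx (lt_irrefl _)
          · exact absurd (Set.mem_singleton_iff.1 h1) hxb
    · refine ⟨y, ?_, hyT, hy⟩
      have hxb : x ≠ b := fun h => hbS (by rw [← h]; exact hxS)
      exact (hr.2 _ (linF_erase b hS) a ⟨haS, hane⟩ x ⟨hxS, hxb⟩ y
        (Finset.mem_erase.2 ⟨hyb, hT.1 hyT⟩) hy h).1
  have hza' : z ≠ a := fun h => by rw [h] at hza; exact lt_irrefl _ hza
  have hzb : z ≠ b := fun h => hbS (by rw [← h]; exact hzS)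
  have h1 : R a b z b := hS.2 a haS z hzS b hb hbS
  have h2 : R z a b a := hT.2 z hzT b hbT a (hS.1 haS) haT
  have h3 : R a z b z := hab.2 a (by simp) b (by simp) z (hS.1 hzS) (by simp [hza', hzb])
  have h4 : R z b z a := hsymm _ _ _ _ (hinv _ _ _ _ h3)
  exact hno a (hS.1 haS) b hb hane (htrans _ _ _ _ _ _ h1 (htrans _ _ _ _ _ _ h4 h2))

/-- One of the two possibilities works, up to reversing the order. -/
private theorem lin_caseA (hsymm : ∀ a b c d, R a b c d → R c d a b)
    (htrans : ∀ a b c d e f, R a b c d → R c d e f → R a b e f)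
    (hinv : ∀ a b c d, R a b c d → R b a d c)
    (hno : ∀ a ∈ E, ∀ b ∈ E, a ≠ b → ¬ R a b b a) {a b : α} (hb : b ∈ E) (ha : a ∈ E.erase b)
    (hab : linF E R {a, b}) {r : α → ℝ} (hr : linGood (E.erase b) R r) :
    ∃ r' : α → ℝ, linGood E R r' := by
  have hane : a ≠ b := Finset.ne_of_mem_erase ha
  have h3 : ∀ S : Set α, linF E R S → b ∈ S → a ∉ S → ∀ x ∈ S, x ≠ b →
      linF E R (S ∪ {a}) := by
    intro S hS hbS _ _ _ _
    have h := linF_union htrans hS hab hbS (by simp : b ∈ ({a, b} : Set α))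
    have h' : S ∪ {a, b} = S ∪ {a} := by
      ext z
      simp only [Set.mem_union, Set.mem_insert_iff, Set.mem_singleton_iff]
      constructor
      · rintro (h | h | h)
        · exact Or.inl h
        · exact Or.inr h
        · exact Or.inl (by rw [h]; exact hbS)
      · rintro (h | h)
        · exact Or.inl h
        · exact Or.inr (Or.inl h)
    rwa [h'] at h
  by_contra hcon
  -- the order `r` does not work
  have hright : (∃ S : Set α, linF E R S ∧ a ∈ S ∧ b ∉ S ∧ ∃ x ∈ S, r a < r x) ∨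
      ∃ S : Set α, linF E R S ∧ b ∈ S ∧ a ∉ S ∧ ∃ x ∈ S, x ≠ b ∧ r x < r a := by
    by_contra h
    push Not at h
    exact hcon (lin_insert hb ha hr (fun S hS haS hbS x hx => h.1 S hS haS hbS x hx)
      (fun S hS hbS haS x hx hxb => h.2 S hS hbS haS x hx hxb) h3)
  have hleft : (∃ S : Set α, linF E R S ∧ a ∈ S ∧ b ∉ S ∧ ∃ x ∈ S, r x < r a) ∨
      ∃ S : Set α, linF E R S ∧ b ∈ S ∧ a ∉ S ∧ ∃ x ∈ S, x ≠ b ∧ r a < r x := by
    by_contra h
    push Not at h
    exact hcon (lin_insert hb ha (linGood_neg hr)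
      (fun S hS haS hbS x hx => neg_le_neg (h.1 S hS haS hbS x hx))
      (fun S hS hbS haS x hx hxb => neg_le_neg (h.2 S hS hbS haS x hx hxb)) h3)
  rcases hright with ⟨S1, hS1, haS1, hbS1, x1, hx1, hr1⟩ | ⟨T1, hT1, hbT1, haT1, x1, hx1, hx1b, hr1⟩
  · rcases hleft with ⟨S2, hS2, haS2, hbS2, x2, hx2, hr2⟩ |
      ⟨T2, hT2, hbT2, haT2, x2, hx2, hx2b, hr2⟩
    · have hU : linF E R (S1 ∪ S2) := linF_union htrans hS1 hS2 haS1 haS2
      have hbU : b ∉ S1 ∪ S2 := by
        rintro (h | h)
        · exact hbS1 h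
        · exact hbS2 h
      have hD : linF E R ((S1 ∪ S2) \ {a, b}) :=
        linF_diff htrans hinv hU hab (by simp : b ∈ ({a, b} : Set α)) hbU
      have hx1b : x1 ≠ b := fun h => hbS1 (by rw [← h]; exact hx1)
      have hx2b : x2 ≠ b := fun h => hbS2 (by rw [← h]; exact hx2)
      have hx1a : x1 ≠ a := fun h => by rw [h] at hr1; exact lt_irrefl _ hr1
      have hx2a : x2 ≠ a := fun h => by rw [h] at hr2; exact lt_irrefl _ hr2
      have h1 := (hr.2 _ (linF_erase b hD) x2 ⟨⟨Or.inr hx2, by simp [hx2a, hx2b]⟩, hx2b⟩ x1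
        ⟨⟨Or.inl hx1, by simp [hx1a, hx1b]⟩, hx1b⟩ a ha hr2 hr1).1
      exact h1.2 (by simp)
    · exact lin_mixed hsymm htrans hinv hno hb ha hab hr hS1 haS1 hbS1 hx1 hr1 hT2 hbT2 haT2 hx2
        hx2b hr2
  · rcases hleft with ⟨S2, hS2, haS2, hbS2, x2, hx2, hr2⟩ |
      ⟨T2, hT2, hbT2, haT2, x2, hx2, hx2b, hr2⟩
    · exact lin_mixed hsymm htrans hinv hno hb ha hab (linGood_neg hr) hS2 haS2 hbS2 hx2
        (neg_lt_neg hr2) hT1 hbT1 haT1 hx1 hx1b (neg_lt_neg hr1)
    · have hU : linF E R (T1 ∪ T2) := linF_union htrans hT1 hT2 hbT1 hbT2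
      have h1 := (hr.2 _ (linF_erase b hU) x1 ⟨Or.inl hx1, hx1b⟩ x2 ⟨Or.inr hx2, hx2b⟩ a ha hr1
        hr2).1
      rcases h1 with h1 | h1
      · exact haT1 h1
      · exact haT2 h1

end Linear

theorem exists_linear {α : Type*} [DecidableEq α] (E : Finset α) (R : α → α → α → α → Prop)
    (hrefl : ∀ a b, R a b a b) (hsymm : ∀ a b c d, R a b c d → R c d a b)
    (htrans : ∀ a b c d e f, R a b c d → R c d e f → R a b e f)
    (hinv : ∀ a b c d, R a b c d → R b a d c)
    (hno : ∀ a ∈ E, ∀ b ∈ E, a ≠ b → ¬ R a b b a) :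
    ∃ r : α → ℝ, Set.InjOn r E ∧ ∀ S : Set α, S ⊆ E →
      (∀ a ∈ S, ∀ b ∈ S, ∀ c ∈ E, c ∉ S → R a c b c) →
      ∀ a ∈ S, ∀ b ∈ S, ∀ c ∈ E, r a < r c → r c < r b → c ∈ S := by
  classical
  suffices h : ∃ r : α → ℝ, linGood E R r by
    obtain ⟨r, h1, h2⟩ := h
    exact ⟨r, h1, fun S hS hS' => h2 S ⟨hS, hS'⟩⟩
  induction hn : E.card using Nat.strong_induction_on generalizing E with
  | _ n ih =>
    have ih' : ∀ b ∈ E, ∃ r : α → ℝ, linGood (E.erase b) R r := by
      intro b hb
      refine ih (E.erase b).card ?_ (E.erase b) ?_ rfl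
      · rw [← hn]
        exact Finset.card_erase_lt_of_mem hb
      · intro x hx y hy
        exact hno x (Finset.mem_of_mem_erase hx) y (Finset.mem_of_mem_erase hy)
    by_cases hA : ∃ a b, a ≠ b ∧ linF E R {a, b}
    · obtain ⟨a, b, hab, hF⟩ := hA
      have hbE : b ∈ E := hF.1 (by simp)
      have haE : a ∈ E := hF.1 (by simp)
      obtain ⟨r, hr⟩ := ih' b hbE
      exact lin_caseA hsymm htrans hinv hno hbE (Finset.mem_erase.2 ⟨hab, haE⟩) hF hr
    · push Not at hA
      -- at most one element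
      by_cases hcard : E.card ≤ 1
      · refine ⟨fun _ => 0, ?_, ?_⟩
        · intro x hx y hy _
          exact Finset.card_le_one.1 hcard x hx y hy
        · intro S hS a ha b hb c hc h1 h2
          exact absurd h1 (lt_irrefl _)
      · -- a minimal set with at least two elements
        have hne : (E.powerset.filter fun S : Finset α => 2 ≤ S.card ∧ linF E R (S : Set α)).Nonempty := by
          refine ⟨E, ?_⟩
          rw [Finset.mem_filter, Finset.mem_powerset]
          refine ⟨Finset.Subset.refl _, by omega, fun x hx => hx, ?_⟩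
          intro x _ y _ c hc hcn
          exact absurd (Finset.mem_coe.2 hc) hcn
        obtain ⟨S0, hS0, hmin⟩ := Finset.exists_min_image _ Finset.card hne
        rw [Finset.mem_filter, Finset.mem_powerset] at hS0
        obtain ⟨hS0E, hS02, hS0F⟩ := hS0
        have hmin' : ∀ T : Set α, linF E R T → (∃ x ∈ T, ∃ y ∈ T, x ≠ y) →
            T ⊆ (S0 : Set α) → (S0 : Set α) ⊆ T := by
          intro T hT hxy hTS
          have hfin : T.Finite := (Finset.finite_toSet E).subset hT.1
          obtain ⟨T', rfl⟩ : ∃ T' : Finset α, (T' : Set α) = T := ⟨hfin.toFinset, by simp⟩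
          have hT'S : T' ⊆ S0 := Finset.coe_subset.1 hTS
          obtain ⟨x, hx, y, hy, hxy⟩ := hxy
          have h2 : 2 ≤ T'.card := Finset.one_lt_card.2 ⟨x, hx, y, hy, hxy⟩
          have h3 := hmin T' (by
            rw [Finset.mem_filter, Finset.mem_powerset]
            exact ⟨Finset.coe_subset.1 hT.1, h2, hT⟩)
          rw [Finset.eq_of_subset_of_card_le hT'S h3]
        have hS03 : 3 ≤ S0.card := by
          by_contra h
          have h2 : S0.card = 2 := by omega
          obtain ⟨x, y, hxy, rfl⟩ := Finset.card_eq_two.1 h2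
          refine hA x y hxy ?_
          simpa using hS0F
        -- the trichotomy
        have htri : ∀ T : Set α, linF E R T → (∃ x ∈ T, ∃ y ∈ T, x ≠ y) →
            (S0 : Set α) ⊆ T ∨ ∀ x ∈ T, x ∉ S0 := by
          intro T hT hxy
          by_contra hcon
          push Not at hcon
          obtain ⟨hST, z, hzT, hzS⟩ := hcon
          by_cases hTS : T ⊆ (S0 : Set α)
          · exact hST (hmin' T hT hxy hTS)
          · obtain ⟨u, huT, huS⟩ := Set.not_subset.1 hTS
            obtain ⟨w, hwS, hwT⟩ := Set.not_subset.1 hST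
            have h1 : linF E R ((S0 : Set α) ∩ T) := linF_inter hS0F hT
            have h2 : linF E R ((S0 : Set α) \ T) := linF_diff htrans hinv hS0F hT huT huS
            -- three elements
            obtain ⟨v, hvS, hvz, hvw⟩ : ∃ v ∈ S0, v ≠ z ∧ v ≠ w := by
              by_contra h
              push Not at h
              have h3 : S0 ⊆ {z, w} := by
                intro v hv
                rw [Finset.mem_insert, Finset.mem_singleton]
                by_cases hvz : v = z
                · exact Or.inl hvz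
                · exact Or.inr (h v hv hvz)
              have h4 := (Finset.card_le_card h3).trans Finset.card_le_two
              omega
            by_cases hvT : v ∈ T
            · have := hmin' _ h1 ⟨v, ⟨hvS, hvT⟩, z, ⟨hzS, hzT⟩, hvz⟩ Set.inter_subset_left
              exact hwT (this hwS).2
            · have := hmin' _ h2 ⟨v, ⟨hvS, hvT⟩, w, ⟨hwS, hwT⟩, hvw⟩ Set.sdiff_subset
              exact (this hzS).2 hzT
        obtain ⟨a, haS, b, hbS, hab⟩ := Finset.one_lt_card.1 (by omega : 1 < S0.card)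
        have hbE : b ∈ E := hS0E hbS
        have haE : a ∈ E.erase b := Finset.mem_erase.2 ⟨hab, hS0E haS⟩
        obtain ⟨r, hr⟩ := ih' b hbE
        refine lin_insert hbE haE hr ?_ ?_ ?_
        · intro S hS haS' hbS' x hx
          by_contra hxa
          have hxa' : a ≠ x := fun h => by rw [h] at hxa; exact hxa le_rfl
          rcases htri S hS ⟨a, haS', x, hx, hxa'⟩ with h | h
          · exact hbS' (h hbS)
          · exact h a haS' haS
        · intro S hS hbS' haS' x hx hxb
          rcases htri S hS ⟨x, hx, b, hbS', hxb⟩ with h | h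
          · exact absurd (h haS) haS'
          · exact absurd hbS (h b hbS')
        · intro S hS hbS' haS' x hx hxb
          rcases htri S hS ⟨x, hx, b, hbS', hxb⟩ with h | h
          · exact absurd (h haS) haS'
          · exact absurd hbS (h b hbS')

end Pool.Agent.Confl
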