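import Pool.Agent.Confl.Arcs
import Pool.Agent.Confl.Linear

/-!
# Completeness of the relation (package CF6B)
-/

set_option autoImplicit false

namespace Pool.Agent.Confl

variable {V : Type}

/-- The equivalence of pairs. -/
def CplR (G : SimpleGraph V) (o a b c d : V) : Prop :=
  Relation.EqvGen (Step G) (.lit o a b true) (.lit o c d true) ∧
    Relation.EqvGen (Step G) (.lit o b a true) (.lit o d c true)

theorem cpl_refl (G : SimpleGraph V) (o a b : V) : CplR G o a b a b :=
  ⟨.refl _, .refl _⟩

theorem cpl_symm {G : SimpleGraph V} {o a b c d : V} (h : CplR G o a b c d) : CplR G o c d a b :=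
  ⟨.symm _ _ h.1, .symm _ _ h.2⟩

theorem cpl_trans {G : SimpleGraph V} {o a b c d e f : V} (h : CplR G o a b c d)
    (h' : CplR G o c d e f) : CplR G o a b e f :=
  ⟨.trans _ _ _ h.1 h'.1, .trans _ _ _ h.2 h'.2⟩

theorem cpl_inv {G : SimpleGraph V} {o a b c d : V} (h : CplR G o a b c d) : CplR G o b a d c :=
  ⟨h.2, h.1⟩

theorem cpl_no {G : SimpleGraph V} (hG : NoConflict G) {o a b : V} (hab : a ≠ b) :
    ¬ CplR G o a b b a := by
  rintro ⟨h, _⟩
  refine hG o a b (.trans _ _ _ h (.symm _ _ (.rel _ _ ?_)))
  exact Step.flip o a b false hab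

/-- The basic fact. -/
theorem cpl_basic {G : SimpleGraph V} {o p q b : V} (hpq : G.Adj p q) (hp : p ≠ o) (hq : q ≠ o)
    (hbp : b ≠ p) (hbq : b ≠ q)
    (h : Relation.ReflTransGen (fun r r' => G.Adj r r' ∧ r ≠ p ∧ r ≠ q ∧ r' ≠ p ∧ r' ≠ q ∧
      Illegal G p q r r') b o) : CplR G o p b q b := by
  have key : ∀ s, Relation.EqvGen (Step G) (.lit o p b s) (.lit o q b s) := by
    intro s
    have h1 : ∀ d, Relation.ReflTransGen (fun r r' => G.Adj r r' ∧ r ≠ p ∧ r ≠ q ∧ r' ≠ p ∧
        r' ≠ q ∧ Illegal G p q r r') b d →
        Relation.EqvGen (Step G) (.walk o p q b b s) (.walk o p q b d s) := by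
      intro d hd
      induction hd with
      | refl => exact .refl _
      | @tail c d _ hcd ih =>
        exact .trans _ _ _ ih (.rel _ _ (Step.move o p q b c d s hcd.1 hcd.2.1 hcd.2.2.1
          hcd.2.2.2.1 hcd.2.2.2.2.1 hcd.2.2.2.2.2))
    exact .trans _ _ _ (.rel _ _ (Step.enter o p q b s hpq hbp hbq hp hq))
      (.trans _ _ _ (h1 o h) (.rel _ _ (Step.leave o p q b s hpq hbp hbq hp hq)))
  refine ⟨key true, ?_⟩
  refine .trans _ _ _ (.rel _ _ (Step.flip o b p true hbp)) ?_
  refine .trans _ _ _ (key false) ?_
  exact .rel _ _ (Step.flip o q b false hbq.symm)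

/-- Special steps. -/
def CplSpec (G : SimpleGraph V) (v k r s : V) : Prop :=
  G.Adj r s ∧ ¬ SameComp G v k r ∧ ¬ SameComp G v k s ∧
      ((∀ w, SameComp G v k w → ¬ G.Adj r w) ∨ (∀ w, SameComp G v k w → ¬ G.Adj s w))

theorem cplSpec_symm {G : SimpleGraph V} {v k r s : V} (h : CplSpec G v k r s) : CplSpec G v k s r :=
  ⟨h.1.symm, h.2.2.1, h.2.1, h.2.2.2.symm⟩

theorem cplSpec_chain_symm {G : SimpleGraph V} {v k r s : V}
    (h : Relation.ReflTransGen (CplSpec G v k) r s) : Relation.ReflTransGen (CplSpec G v k) s r := by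
  induction h with
  | refl => exact .refl
  | tail _ h ih => exact .head (cplSpec_symm h) ih

/-- Case A of the claim: the base point is not in the component. -/
theorem cpl_caseA {G : SimpleGraph V} {o v k : V} (hk : Out G v k) (ho : ¬ SameComp G v k o)
    (hov : G.Reachable o v) {a b e : V} (ha : SameComp G v k a) (hb : SameComp G v k b)
    (he : ¬ SameComp G v k e) (hev : G.Reachable e v) : CplR G o a e b e := by
  have hch : Relation.ReflTransGen (CplSpec G v k) e o :=
    (special_chain G hk he hev).trans (cplSpec_chain_symm (special_chain G hk ho hov))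
  have step : ∀ a b, SameComp G v k a → SameComp G v k b → G.Adj a b → CplR G o a e b e := by
    intro a b ha hb hab
    refine cpl_basic hab (fun h => ho (h ▸ ha)) (fun h => ho (h ▸ hb)) (fun h => he (h ▸ ha))
      (fun h => he (h ▸ hb)) ?_
    refine Relation.ReflTransGen.mono ?_ _ _ hch
    rintro r s ⟨h1, h2, h3, h4⟩
    refine ⟨h1, fun h => h2 (h ▸ ha), fun h => h2 (h ▸ hb), fun h => h3 (h ▸ ha),
      fun h => h3 (h ▸ hb), ?_⟩
    rintro (⟨g1, g2⟩ | ⟨g1, g2⟩)
    · rcases h4 with h4 | h4
      · exact h4 a ha g1.symm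
      · exact h4 b hb g2.symm
    · rcases h4 with h4 | h4
      · exact h4 b hb g2.symm
      · exact h4 a ha g1.symm
  have key : ∀ c, SameComp G v k c → CplR G o k e c e := by
    rintro c ⟨hk', hc⟩
    induction hc with
    | refl => exact cpl_refl _ _ _ _
    | @tail b c hb h ih =>
      have hb' : SameComp G v k b := ⟨hk', hb⟩
      exact cpl_trans ih (step b c hb' (arcs_sc_step hb' h.1 h.2.2) h.1)
  exact cpl_trans (cpl_symm (key a ha)) (key b hb)

/-- Case B of the claim: the base point is in the component. -/
theorem cpl_caseB {G : SimpleGraph V} {o v k : V} (hk : Out G v k) (ho : SameComp G v k o)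
    {p q e : V} (hp : ¬ SameComp G v k p) (hq : ¬ SameComp G v k q) (hpv : G.Reachable p v)
    (hqv : G.Reachable q v) (he : SameComp G v k e) : CplR G o p e q e := by
  have hpath : Relation.ReflTransGen (fun r r' => G.Adj r r' ∧ SameComp G v k r ∧
      SameComp G v k r') e o := by
    have h := (arcs_sc_trans (arcs_sc_symm he) ho).2
    induction h with
    | refl => exact .refl
    | @tail b c hb h ih =>
      have hb' : SameComp G v k b := arcs_sc_trans he ⟨arcs_sc_out he, hb⟩
      have hc' : SameComp G v k c := arcs_sc_step hb' h.1 h.2.2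
      exact .tail (ih hb') ⟨h.1, hb', hc'⟩
  have step : ∀ p q, CplSpec G v k p q → CplR G o p e q e := by
    rintro p q ⟨h1, h2, h3, h4⟩
    refine cpl_basic h1 (fun h => h2 (h ▸ ho)) (fun h => h3 (h ▸ ho)) (fun h => h2 (h ▸ he))
      (fun h => h3 (h ▸ he)) ?_
    refine Relation.ReflTransGen.mono ?_ _ _ hpath
    rintro r s ⟨g1, g2, g3⟩
    refine ⟨g1, fun h => h2 (h ▸ g2), fun h => h3 (h ▸ g2), fun h => h2 (h ▸ g3),
      fun h => h3 (h ▸ g3), ?_⟩
    rintro (⟨f1, f2⟩ | ⟨f1, f2⟩)
    · rcases h4 with h4 | h4
      · exact h4 r g2 f1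
      · exact h4 s g3 f2
    · rcases h4 with h4 | h4
      · exact h4 s g3 f1
      · exact h4 r g2 f2
  have key : ∀ p, ¬ SameComp G v k p → G.Reachable p v → CplR G o p e v e := by
    intro p hp hpv
    have := special_chain G hk hp hpv
    induction this using Relation.ReflTransGen.head_induction_on with
    | refl => exact cpl_refl _ _ _ _
    | @head c c' h h' ih =>
      exact cpl_trans (step c c' h) (ih h.2.2.1 ((h.1.symm.reachable).trans hpv))
  exact cpl_trans (key p hp hpv) (cpl_symm (key q hq hqv))

theorem lc_of_noConflict [Finite V] (G : SimpleGraph V) (h : NoConflict G) :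
    ∃ x : V → ℝ, Function.Injective x ∧ LC G x := by
  classical
  cases nonempty_fintype V
  -- base points
  obtain ⟨o, ho⟩ : ∃ o : G.ConnectedComponent → V, ∀ c, G.connectedComponentMk (o c) = c :=
    ⟨fun c => c.exists_rep.choose, fun c => c.exists_rep.choose_spec⟩
  -- index of the components
  obtain ⟨idx, hidx⟩ : ∃ idx : G.ConnectedComponent → ℕ, Function.Injective idx :=
    ⟨fun c => (Finite.equivFin G.ConnectedComponent c).1, fun a b hab =>
      (Finite.equivFin G.ConnectedComponent).injective (Fin.ext hab)⟩
  -- the orders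
  have hr : ∀ c : G.ConnectedComponent, ∃ r : V → ℝ,
      (∀ a b, G.connectedComponentMk a = c → a ≠ o c → G.connectedComponentMk b = c → b ≠ o c →
        r a = r b → a = b) ∧
      ∀ S : Set V, (∀ a ∈ S, G.connectedComponentMk a = c ∧ a ≠ o c) →
      (∀ a ∈ S, ∀ b ∈ S, ∀ e, G.connectedComponentMk e = c → e ≠ o c → e ∉ S →
        CplR G (o c) a e b e) →
      ∀ a ∈ S, ∀ b ∈ S, ∀ e, G.connectedComponentMk e = c → e ≠ o c → r a < r e → r e < r b →
        e ∈ S := by
    intro c
    let E : Finset V := Finset.univ.filter fun w => G.connectedComponentMk w = c ∧ w ≠ o c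
    have hE : ∀ w, w ∈ E ↔ G.connectedComponentMk w = c ∧ w ≠ o c := fun w => by
      simp [E]
    obtain ⟨r, hr1, hr2⟩ := exists_linear E (CplR G (o c)) (fun a b => cpl_refl _ _ _ _)
      (fun a b c d => cpl_symm) (fun a b c d e f => cpl_trans) (fun a b c d => cpl_inv)
      (fun a _ b _ hab => cpl_no h hab)
    refine ⟨r, ?_, ?_⟩
    · intro a b ha ha' hb hb' hab
      exact hr1 ((hE a).2 ⟨ha, ha'⟩) ((hE b).2 ⟨hb, hb'⟩) hab
    · intro S hS hS' a ha b hb e he he' h1 h2
      refine hr2 S (fun w hw => (hE w).2 (hS w hw)) ?_ a ha b hb e ((hE e).2 ⟨he, he'⟩) h1 h2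
      intro a ha b hb e he hes
      exact hS' a ha b hb e ((hE e).1 he).1 ((hE e).1 he).2 hes
  choose r hr1 hr2 using hr
  -- the positions
  let pos : V → ℝ := fun v => if v = o (G.connectedComponentMk v) then - (Real.pi / 2)
    else Real.arctan (r (G.connectedComponentMk v) v)
  have hpos_o : ∀ c, pos (o c) = - (Real.pi / 2) := fun c => by
    simp only [pos, ho c, if_true]
  have hpos : ∀ v, v ≠ o (G.connectedComponentMk v) →
      pos v = Real.arctan (r (G.connectedComponentMk v) v) := fun v hv => by
    simp only [pos, if_neg hv]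
  have hpos1 : ∀ v, - (Real.pi / 2) ≤ pos v := by
    intro v
    by_cases hv : v = o (G.connectedComponentMk v)
    · rw [hv, hpos_o]
    · rw [hpos v hv]; exact (Real.neg_pi_div_two_lt_arctan _).le
  have hpos2 : ∀ v, pos v < Real.pi / 2 := by
    intro v
    by_cases hv : v = o (G.connectedComponentMk v)
    · rw [hv, hpos_o]; linarith [Real.pi_pos]
    · rw [hpos v hv]; exact Real.arctan_lt_pi_div_two _
  have hpos3 : ∀ v, v ≠ o (G.connectedComponentMk v) → - (Real.pi / 2) < pos v := by
    intro v hv
    rw [hpos v hv]; exact Real.neg_pi_div_two_lt_arctan _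
  have hpi : Real.pi < 4 := by linarith [Real.pi_lt_d2]
  let x : V → ℝ := fun v => 4 * (idx (G.connectedComponentMk v) : ℝ) + pos v
  have hx : ∀ v, x v = 4 * (idx (G.connectedComponentMk v) : ℝ) + pos v := fun v => rfl
  -- different components
  have hlt : ∀ v w, idx (G.connectedComponentMk v) < idx (G.connectedComponentMk w) →
      x v < x w := by
    intro v w hvw
    have h1 : (idx (G.connectedComponentMk v) : ℝ) + 1 ≤ idx (G.connectedComponentMk w) := by
      exact_mod_cast hvw
    have h2 := hpos2 v
    have h3 := hpos1 w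
    rw [hx, hx]
    linarith
  have hsame : ∀ v w, G.connectedComponentMk v = G.connectedComponentMk w →
      (x v < x w ↔ pos v < pos w) := by
    intro v w hvw
    rw [hx, hx, hvw]
    constructor <;> intro h <;> linarith
  have hinj : Function.Injective x := by
    intro v w hvw
    have hc : G.connectedComponentMk v = G.connectedComponentMk w := by
      by_contra hne
      rcases lt_or_gt_of_ne (fun h => hne (hidx h) :
        idx (G.connectedComponentMk v) ≠ idx (G.connectedComponentMk w)) with h | h
      · exact absurd (hlt v w h) (by rw [hvw]; exact lt_irrefl _)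
      · exact absurd (hlt w v h) (by rw [hvw]; exact lt_irrefl _)
    have hp : pos v = pos w := by
      have := hx v
      rw [hvw, hx w, hc] at this
      linarith
    by_cases hv : v = o (G.connectedComponentMk v)
    · by_cases hw : w = o (G.connectedComponentMk w)
      · rw [hv, hw, hc]
      · have := hpos3 w hw
        rw [← hp, hv, hpos_o] at this
        exact absurd this (lt_irrefl _)
    · by_cases hw : w = o (G.connectedComponentMk w)
      · have := hpos3 v hv
        rw [hp, hw, hpos_o] at this
        exact absurd this (lt_irrefl _)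
      · rw [hpos v hv, hpos w hw, hc] at hp
        exact hr1 (G.connectedComponentMk w) v w hc (hc ▸ hv) rfl hw (Real.arctan_injective hp)
  refine ⟨x, hinj, ?_⟩
  apply lc_of_arcs
  intro v k hk p hvp a b ha hb
  have hpK : ¬ SameComp G v k p := fun h => (arcs_sc_out h).2 hvp
  have hvK : ¬ SameComp G v k v := fun h => (arcs_sc_out h).1 rfl
  have hcomp : ∀ w, SameComp G v k w → G.connectedComponentMk w = G.connectedComponentMk k := by
    rintro w ⟨_, hw⟩
    induction hw with
    | refl => rfl
    | tail _ h ih => exact (SimpleGraph.ConnectedComponent.sound h.1.symm.reachable).trans ih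
  have hvp' : G.connectedComponentMk p = G.connectedComponentMk v :=
    SimpleGraph.ConnectedComponent.sound hvp.symm.reachable
  by_cases hkv : G.connectedComponentMk k = G.connectedComponentMk v
  · -- the same component
    set c := G.connectedComponentMk v with hc
    have hreach : ∀ w, G.connectedComponentMk w = c → G.Reachable w v := fun w hw =>
      SimpleGraph.ConnectedComponent.exact hw
    have hoc : ∀ w, G.connectedComponentMk w = c → ¬ x w < x (o c) := by
      intro w hw hlt'
      rw [hsame w (o c) (hw.trans (ho c).symm), hpos_o] at hlt'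
      exact absurd hlt' (not_lt.2 (hpos1 w))
    have hxr : ∀ w w', G.connectedComponentMk w = c → w ≠ o c →
        G.connectedComponentMk w' = c → w' ≠ o c → (x w < x w' ↔ r c w < r c w') := by
      intro w w' hw hwo hw' hwo'
      rw [hsame w w' (hw.trans hw'.symm), hpos w (by rw [hw]; exact hwo),
        hpos w' (by rw [hw']; exact hwo'), hw, hw']
      exact Real.arctan_strictMono.lt_iff_lt
    by_cases hoK : SameComp G v k (o c)
    · -- case B
      have hS := hr2 c {w | G.connectedComponentMk w = c ∧ ¬ SameComp G v k w}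
        (fun w hw => ⟨hw.1, fun h => hw.2 (h ▸ hoK)⟩) (by
          intro p hp q hq e he heo heS
          have heK : SameComp G v k e := by
            by_contra hcon
            exact heS ⟨he, hcon⟩
          exact cpl_caseB hk hoK hp.2 hq.2 (hreach p hp.1) (hreach q hq.1) heK)
      have hno : ∀ y z e, G.connectedComponentMk y = c → ¬ SameComp G v k y →
          G.connectedComponentMk z = c → ¬ SameComp G v k z → SameComp G v k e →
          x y < x e → x e < x z → False := by
        intro y z e hy hyK hz hzK heK h1 h2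
        have hec : G.connectedComponentMk e = c := (hcomp e heK).trans hkv
        have heo : e ≠ o c := by
          rintro rfl
          exact hoc y hy h1
        have hyo : y ≠ o c := fun h => hyK (h ▸ hoK)
        have hzo : z ≠ o c := fun h => hzK (h ▸ hoK)
        rw [hxr y e hy hyo hec heo] at h1
        rw [hxr e z hec heo hz hzo] at h2
        exact (hS y ⟨hy, hyK⟩ z ⟨hz, hzK⟩ e hec heo h1 h2).2 heK
      have hno' : ∀ e, SameComp G v k e → ¬ Btw x v p e := by
        rintro e he (⟨h1, h2⟩ | ⟨h1, h2⟩)
        · exact hno v p e hc.symm hvK hvp' hpK he h1 h2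
        · exact hno p v e hvp' hpK hc.symm hvK he h1 h2
      exact arcs_btw_swap (fun h => hvK (hinj h ▸ ha)) (fun h => hvK (hinj h ▸ hb))
        (fun h => hpK (hinj h ▸ ha)) (fun h => hpK (hinj h ▸ hb))
        ⟨fun h => absurd h (hno' a ha), fun h => absurd h (hno' b hb)⟩
    · -- case A
      have hKc : ∀ w, SameComp G v k w → G.connectedComponentMk w = c := fun w hw =>
        (hcomp w hw).trans hkv
      have hKo : ∀ w, SameComp G v k w → w ≠ o c := fun w hw h => hoK (h ▸ hw)
      have hS := hr2 c {w | SameComp G v k w}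
        (fun w hw => ⟨hKc w hw, hKo w hw⟩) (by
          intro a ha b hb e he heo heS
          exact cpl_caseA hk hoK (hreach _ (ho c)) ha hb heS (hreach e he))
      have hno : ∀ y z e, SameComp G v k y → SameComp G v k z → ¬ SameComp G v k e →
          G.connectedComponentMk e = c → x y < x e → x e < x z → False := by
        intro y z e hy hz heK hec h1 h2
        have heo : e ≠ o c := by
          rintro rfl
          exact hoc y (hKc y hy) h1
        rw [hxr y e (hKc y hy) (hKo y hy) hec heo] at h1
        rw [hxr e z hec heo (hKc z hz) (hKo z hz)] at h2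
        exact heK (hS y hy z hz e hec heo h1 h2)
      have hno' : ∀ e, ¬ SameComp G v k e → G.connectedComponentMk e = c → ¬ Btw x a b e := by
        rintro e he hec (⟨h1, h2⟩ | ⟨h1, h2⟩)
        · exact hno a b e ha hb he hec h1 h2
        · exact hno b a e hb ha he hec h1 h2
      exact ⟨fun h => absurd h (hno' v hvK hc.symm), fun h => absurd h (hno' p hpK hvp')⟩
  · -- different components
    have hne : idx (G.connectedComponentMk k) ≠ idx (G.connectedComponentMk v) :=
      fun h => hkv (hidx h)
    have hno : ∀ w, G.connectedComponentMk w = G.connectedComponentMk v → ¬ Btw x a b w := by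
      intro w hw
      have ha' := hcomp a ha
      have hb' := hcomp b hb
      rcases lt_or_gt_of_ne hne with h | h
      · have h1 : x a < x w := hlt a w (by rw [ha', hw]; exact h)
        have h2 : x b < x w := hlt b w (by rw [hb', hw]; exact h)
        rintro (⟨g1, g2⟩ | ⟨g1, g2⟩) <;> linarith
      · have h1 : x w < x a := hlt w a (by rw [ha', hw]; exact h)
        have h2 : x w < x b := hlt w b (by rw [hb', hw]; exact h)
        rintro (⟨g1, g2⟩ | ⟨g1, g2⟩) <;> linarith
    exact ⟨fun h => absurd h (hno v rfl), fun h => absurd h (hno p hvp')⟩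

end Pool.Agent.Confl
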