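import Pool.Agent.Confl.Chords

/-!
# Edges of the graph are smooth paths of the chord drawing
-/

set_option autoImplicit false

open Filter Topology Set

namespace Pool.Agent.Confl

variable {V : Type}

private theorem cc_X_mem {x : V → ℝ} {a b c d : V} (h1 : x a < x c) (h2 : x c < x b)
    (h3 : x b < x d) : x c < X x a b c d ∧ X x a b c d < x b := by
  have hpos : 0 < (x c + x d) - (x a + x b) := by linarith
  unfold X
  constructor
  · rw [lt_div_iff₀ hpos]
    nlinarith [mul_pos (sub_pos.2 h1) (sub_pos.2 h2)]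
  · rw [div_lt_iff₀ hpos]
    nlinarith [mul_pos (sub_pos.2 h2) (sub_pos.2 h3)]

variable {G : SimpleGraph V} {x : V → ℝ}

private theorem cc_mem (e : Edge G x) (c : Cro G x) (h : On e (Sum.inr c)) :
    x e.1.1 < cx G x (Sum.inr c) ∧ cx G x (Sum.inr c) < x e.1.2 := by
  have h0 := cc_X_mem c.2.1 c.2.2.1 c.2.2.2
  have h1 := c.2.1
  have h2 := c.2.2.2
  rcases h with h | h
  · subst h
    exact ⟨h1.trans h0.1, h0.2⟩
  · subst h
    exact ⟨h0.1, h0.2.trans h2⟩

private theorem cc_finite [Finite V] (G : SimpleGraph V) (x : V → ℝ) : Finite (V ⊕ Cro G x) := by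
  have : Finite (Edge G x) := inferInstance
  have : Finite (Cro G x) := inferInstance
  infer_instance

/-- Two consecutive arcs of the same edge, both traversed to the right, form a smooth turn. -/
private theorem cc_turn (e : Edge G x) (d d' : (chordSkel G x).Dart) (c : Cro G x)
    (h1 : d.1.e = e) (h2 : d'.1.e = e) (h3 : d.2 = false) (h4 : d'.2 = false)
    (h5 : d.1.r = Sum.inr c) (h6 : d'.1.l = Sum.inr c) : (chordSkel G x).Turn d d' := by
  obtain ⟨a, s⟩ := d
  obtain ⟨a', s'⟩ := d'
  simp only at h1 h2 h3 h4 h5 h6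
  subst h3 h4
  refine ⟨c, by simpa [Skel.head, chordSkel] using h5, by simpa [Skel.tail, chordSkel] using h6, ?_⟩
  show cdir a (!false) ≠ cdir a' false
  unfold cdir
  simp only [Bool.not_false, if_true, h5, Bool.false_eq_true, if_false, h6, h1, h2]
  have h12 : a.e = a'.e := h1.trans h2.symm
  by_cases hk : KindY c
  · simp [hk, h12]
  · simp [hk]

private theorem cc_right [Finite V] (e : Edge G x) : ∀ (k : ℕ) (n : V ⊕ Cro G x), On e n →
    cx G x n < x e.1.2 → Nat.card {m : V ⊕ Cro G x // On e m ∧ cx G x n < cx G x m} ≤ k →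
    x e.1.1 ≤ cx G x n →
    ∃ p : List (chordSkel G x).Dart, p.head?.map (chordSkel G x).tail = some n ∧
      p.getLast?.map (chordSkel G x).head = some (Sum.inl e.1.2) ∧
      p.IsChain (chordSkel G x).Turn ∧
      (∀ d ∈ p, d.2 = false ∧ d.1.e = e ∧ cx G x n ≤ cx G x ((chordSkel G x).tail d) ∧
        cx G x n < cx G x ((chordSkel G x).head d)) ∧
      (p.map (chordSkel G x).head).Nodup ∧ (p.map (chordSkel G x).tail).Nodup := by
  have hfin : Finite (V ⊕ Cro G x) := cc_finite G x
  intro k
  induction k with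
  | zero =>
    intro n hn hlt hk _
    exfalso
    have : Finite {m : V ⊕ Cro G x // On e m ∧ cx G x n < cx G x m} := inferInstance
    have hne : Nonempty {m : V ⊕ Cro G x // On e m ∧ cx G x n < cx G x m} :=
      ⟨⟨Sum.inl e.1.2, Or.inr rfl, hlt⟩⟩
    have := Nat.card_pos (α := {m : V ⊕ Cro G x // On e m ∧ cx G x n < cx G x m})
    omega
  | succ k ih =>
    intro n hn hlt hk hle
    let s : Set (V ⊕ Cro G x) := {m | On e m ∧ cx G x n < cx G x m}
    have hsf : s.Finite := Set.toFinite s
    have hsne : s.Nonempty := ⟨Sum.inl e.1.2, Or.inr rfl, hlt⟩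
    obtain ⟨m, hm, hmin⟩ := Set.exists_min_image s (cx G x) hsf hsne
    let A : Arc G x :=
      { e := e, l := n, r := m, on_l := hn, on_r := hm.1, lt := hm.2
        cons := fun m' hm' h => absurd (hmin m' ⟨hm', h.1⟩) (not_le.2 h.2) }
    let d : (chordSkel G x).Dart := (A, false)
    have htail : (chordSkel G x).tail d = n := by simp [Skel.tail, chordSkel, d, A]
    have hhead : (chordSkel G x).head d = m := by simp [Skel.head, chordSkel, d, A]
    rcases m with v | c
    · have hv : v = e.1.2 := by
        rcases hm.1 with h | h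
        · exfalso
          have := hm.2
          rw [h] at this
          exact absurd hle (not_le.2 this)
        · exact h
      subst hv
      refine ⟨[d], congrArg some htail, congrArg some hhead, by simp, ?_, by simp, by simp⟩
      intro d' hd'
      rw [List.mem_singleton] at hd'
      subst hd'
      exact ⟨rfl, rfl, by rw [htail], by rw [hhead]; exact hm.2⟩
    · have hmem := cc_mem e c hm.1
      obtain ⟨p, h1, h2, h3, h4, h5, h6⟩ := ih (Sum.inr c) hm.1 hmem.2 (by
        have hss : {m' : V ⊕ Cro G x | On e m' ∧ cx G x (Sum.inr c) < cx G x m'} ⊂ s := by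
          refine ⟨fun m' hm' => ⟨hm'.1, hm.2.trans hm'.2⟩, fun h => ?_⟩
          exact lt_irrefl _ (h hm).2
        have := Set.ncard_lt_ncard hss hsf
        have e1 : Nat.card {m : V ⊕ Cro G x // On e m ∧ cx G x n < cx G x m} = s.ncard := rfl
        have e2 : Nat.card {m' : V ⊕ Cro G x // On e m' ∧ cx G x (Sum.inr c) < cx G x m'} =
          {m' : V ⊕ Cro G x | On e m' ∧ cx G x (Sum.inr c) < cx G x m'}.ncard := rfl
        omega) hmem.1.le
      have hpne : p ≠ [] := by
        rintro rfl
        simp at h1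
      obtain ⟨d', p', rfl⟩ := List.exists_cons_of_ne_nil hpne
      have hd' : (chordSkel G x).tail d' = Sum.inr c := Option.some_injective _ h1
      have hd'2 := h4 d' (by simp)
      refine ⟨d :: d' :: p', congrArg some htail, by simpa using h2, ?_, ?_, ?_, ?_⟩
      · refine List.IsChain.cons_cons ?_ h3
        refine cc_turn e d d' c rfl hd'2.2.1 rfl hd'2.1 rfl ?_
        have := hd'
        obtain ⟨a', s'⟩ := d'
        obtain ⟨rfl, -⟩ := hd'2
        simpa [Skel.tail, chordSkel] using this
      · intro d'' hd''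
        rcases List.mem_cons.1 hd'' with rfl | h
        · exact ⟨rfl, rfl, by rw [htail], by rw [hhead]; exact hm.2⟩
        · obtain ⟨i1, i2, i3, i4⟩ := h4 d'' h
          exact ⟨i1, i2, hm.2.le.trans i3, hm.2.trans i4⟩
      · rw [List.map_cons, List.nodup_cons]
        refine ⟨fun h => ?_, h5⟩
        obtain ⟨d'', hd'', he⟩ := List.mem_map.1 h
        have := (h4 d'' hd'').2.2.2
        rw [he, hhead] at this
        exact lt_irrefl _ this
      · rw [List.map_cons, List.nodup_cons]
        refine ⟨fun h => ?_, h6⟩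
        obtain ⟨d'', hd'', he⟩ := List.mem_map.1 h
        have := (h4 d'' hd'').2.2.1
        rw [he, htail] at this
        exact absurd hm.2 (not_lt.2 this)

private theorem cc_flip_turn (S : Skel V) (d d' : S.Dart) (h : S.Turn d d') :
    S.Turn (d'.1, !d'.2) (d.1, !d.2) := by
  obtain ⟨j, h1, h2, h3⟩ := h
  refine ⟨j, by simpa [Skel.head, Skel.tail] using h2, by simpa [Skel.head, Skel.tail] using h1, ?_⟩
  simpa using h3.symm

theorem chord_complete [Finite V] (G : SimpleGraph V) (x : V → ℝ) (hx : Function.Injective x)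
    (hg : Generic x) (h3 : G.CliqueFree 3) (hlc : LC G x) {u v : V} (h : G.Adj u v) :
    ∃ p, (chordSkel G x).IsSmoothPath u v p := by
  rcases lt_or_gt_of_ne (fun he => h.ne (hx he) : x u ≠ x v) with hlt | hlt
  · let e : Edge G x := ⟨(u, v), hlt, h⟩
    obtain ⟨p, h1, h2, h3, -, h5, -⟩ := cc_right e _ (Sum.inl u) (Or.inl rfl) hlt le_rfl le_rfl
    exact ⟨p, h1, h2, h3, h5⟩
  · let e : Edge G x := ⟨(v, u), hlt, h.symm⟩
    obtain ⟨p, h1, h2, h3, -, -, h6⟩ := cc_right e _ (Sum.inl v) (Or.inl rfl) hlt le_rfl le_rfl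
    have hmt : (p.map (fun d : (chordSkel G x).Dart => ((d.1, !d.2) : (chordSkel G x).Dart))).map
        (chordSkel G x).head = p.map (chordSkel G x).tail := by
      rw [List.map_map]
      refine List.map_congr_left fun d _ => ?_
      simp [Skel.head, Skel.tail]
    refine ⟨(p.map (fun d => (d.1, !d.2))).reverse, ?_, ?_, ?_, ?_⟩
    · rw [List.head?_reverse, List.getLast?_map, Option.map_map]
      exact h2
    · rw [List.getLast?_reverse, List.head?_map, Option.map_map]
      refine Eq.trans ?_ h1
      congr 1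
      funext d
      simp [Skel.head, Skel.tail]
    · rw [List.isChain_reverse, List.isChain_map]
      refine h3.imp fun d d' hd => ?_
      exact cc_flip_turn _ _ _ hd
    · rw [List.map_reverse, List.nodup_reverse, hmt]
      exact h6

end Pool.Agent.Confl
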