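import Pool.Agent.Confl.Parab

/-!
# The directions at the crossings of the chord drawing
-/

set_option autoImplicit false

open Filter Topology Set

namespace Pool.Agent.Confl

variable {V : Type}

theorem norm_cu {G : SimpleGraph V} {x : V → ℝ} (c : Cro G x) : ‖cu c‖ = 1 := by
  unfold cu
  split_ifs
  · have h : (0 : ℝ) < 1 + slope c ^ 2 := by positivity
    rw [norm_div, Complex.norm_real, Real.norm_eq_abs, abs_of_pos (Real.sqrt_pos.2 h),
      div_eq_one_iff_eq (Real.sqrt_pos.2 h).ne', Complex.norm_def, Complex.normSq_mk]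
    congr 1
    ring
  · exact norm_one

/-- The coordinate along the arc, measured from the crossing. -/
private noncomputable def cnD {G : SimpleGraph V} {x : V → ℝ} (a : Arc G x) (c : Cro G x)
    (t : unitInterval) : ℝ :=
  cx G x a.l + t * (cx G x a.r - cx G x a.l) - cx G x (Sum.inr c)

private theorem cnD_sign {G : SimpleGraph V} {x : V → ℝ} (a : Arc G x) (b : Bool) (c : Cro G x)
    (h : (if b then a.r else a.l) = Sum.inr c) {t : unitInterval} (ht : t ≠ par b) :
    0 < sgn (!b) * cnD a c t := by
  have hL : 0 < cx G x a.r - cx G x a.l := sub_pos.2 a.lt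
  cases b
  · have h' : a.l = Sum.inr c := by simpa using h
    have ht' : (0 : ℝ) < t := lt_of_le_of_ne t.2.1 fun e => ht (Subtype.ext e.symm)
    have h1 : sgn (!false) * cnD a c t = t * (cx G x a.r - cx G x a.l) := by
      unfold cnD sgn
      rw [← h']
      simp
    rw [h1]
    exact mul_pos ht' hL
  · have h' : a.r = Sum.inr c := by simpa using h
    have ht' : (t : ℝ) < 1 := lt_of_le_of_ne t.2.2 fun e => ht (Subtype.ext e)
    have h1 : sgn (!true) * cnD a c t = (1 - t) * (cx G x a.r - cx G x a.l) := by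
      unfold cnD sgn
      rw [← h']
      simp
      ring
    rw [h1]
    exact mul_pos (sub_pos.2 ht') hL

private theorem cnD_le {G : SimpleGraph V} {x : V → ℝ} (a : Arc G x) (b : Bool) (c : Cro G x)
    (h : (if b then a.r else a.l) = Sum.inr c) (t : unitInterval) :
    |cnD a c t| ≤ cx G x a.r - cx G x a.l := by
  have hL : 0 < cx G x a.r - cx G x a.l := sub_pos.2 a.lt
  have t0 := t.2.1
  have t1 := t.2.2
  cases b
  · have h' : a.l = Sum.inr c := by simpa using h
    unfold cnD
    rw [← h', abs_le]
    constructor <;> nlinarith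
  · have h' : a.r = Sum.inr c := by simpa using h
    unfold cnD
    rw [← h', abs_le]
    constructor <;> nlinarith

private theorem cnD_tendsto {G : SimpleGraph V} {x : V → ℝ} (a : Arc G x) (b : Bool)
    (c : Cro G x) (h : (if b then a.r else a.l) = Sum.inr c) :
    Tendsto (fun t => |cnD a c t|) (𝓝 (par b)) (𝓝 0) := by
  have hcont : Continuous fun t : unitInterval => |cnD a c t| := by
    unfold cnD
    fun_prop
  have h0 : |cnD a c (par b)| = 0 := by
    rw [abs_eq_zero]
    cases b
    · have h' : a.l = Sum.inr c := by simpa using h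
      unfold cnD par
      rw [← h']
      simp
    · have h' : a.r = Sum.inr c := by simpa using h
      unfold cnD par
      rw [← h']
      simp
  have := hcont.tendsto (par b)
  rwa [h0] at this

private theorem cn_sub {G : SimpleGraph V} {x : V → ℝ} (a : Arc G x) (b : Bool) (c : Cro G x)
    (h : (if b then a.r else a.l) = Sum.inr c) (t : unitInterval) :
    ccurve a t - cpt G x (Sum.inr c) = ⟨cnD a c t,
      (2 * cx G x (Sum.inr c) - (x a.e.1.1 + x a.e.1.2)) * cnD a c t + cnD a c t ^ 2⟩ := by
  have hon : On a.e (Sum.inr c) := by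
    rw [← h]
    cases b
    · exact a.on_l
    · exact a.on_r
  rw [(cx_on a.e (Sum.inr c) hon).1]
  apply Complex.ext
  · rfl
  · show q x a.e.1.1 a.e.1.2 _ - q x a.e.1.1 a.e.1.2 _ = _
    unfold q cnD
    ring

private theorem cn_core {k m s r L D σ : ℝ} (hr : 0 < r) (hD : |D| ≤ L) (hσ : |σ| = 1)
    (hk : 0 < σ * (k * D)) (hkD : |D| ≤ |k| / 2) (hkm : k = m - s) :
    0 < σ * ((k * D + D ^ 2) / r) ∧
      |(D + s * (m * D + D ^ 2)) / r| ≤
        (2 * (1 + |s| * (|m| + L)) / |k|) * (σ * ((k * D + D ^ 2) / r)) := by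
  have hk0 : k ≠ 0 := by
    rintro rfl
    simp at hk
  have hD0 : D ≠ 0 := by
    rintro rfl
    simp at hk
  have kp : 0 < |k| := abs_pos.2 hk0
  have Dp : 0 < |D| := abs_pos.2 hD0
  have e1 : σ * (k * D) = |k| * |D| := by
    rw [← abs_of_pos hk, abs_mul, abs_mul, hσ, one_mul]
  have e2 : -(|D| ^ 2) ≤ σ * D ^ 2 := by
    have : |σ * D ^ 2| = |D| ^ 2 := by
      rw [abs_mul, hσ, one_mul, abs_pow]
    rw [← this]
    exact neg_abs_le _
  have e3 : |k| * |D| / 2 ≤ σ * (k * D + D ^ 2) := by
    rw [mul_add, e1]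
    nlinarith
  have e4 : σ * ((k * D + D ^ 2) / r) = (σ * (k * D + D ^ 2)) / r := by ring
  have e5 : 0 < |k| * |D| / 2 := by positivity
  have hLn : 0 ≤ L := (abs_nonneg D).trans hD
  refine ⟨by rw [e4]; exact div_pos (e5.trans_le e3) hr, ?_⟩
  rw [e4, abs_div, abs_of_pos hr, ← mul_div_assoc]
  refine div_le_div_of_nonneg_right ?_ hr.le
  have e6 : |D + s * (m * D + D ^ 2)| ≤ |D| * (1 + |s| * (|m| + L)) := by
    have h1 : |D + s * (m * D + D ^ 2)| = |D| * |1 + s * (m + D)| := by
      rw [← abs_mul]
      congr 1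
      ring
    rw [h1]
    refine mul_le_mul_of_nonneg_left ?_ (abs_nonneg _)
    calc |1 + s * (m + D)| ≤ |1| + |s * (m + D)| := abs_add_le _ _
      _ = 1 + |s| * |m + D| := by rw [abs_one, abs_mul]
      _ ≤ 1 + |s| * (|m| + L) := by
        have := (abs_add_le m D).trans (add_le_add_right hD |m|)
        have := mul_le_mul_of_nonneg_left this (abs_nonneg s)
        linarith
  refine e6.trans ?_
  have e7 : |D| * (1 + |s| * (|m| + L)) =
      (2 * (1 + |s| * (|m| + L)) / |k|) * (|k| * |D| / 2) := by
    field_simp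
  rw [e7]
  exact mul_le_mul_of_nonneg_left e3 (by positivity)

theorem cu_cone {G : SimpleGraph V} {x : V → ℝ} (a : Arc G x) (b : Bool) (c : Cro G x)
    (h : (if b then a.r else a.l) = Sum.inr c) : ∃ M : ℝ, ∀ᶠ t in 𝓝[≠] par b,
    0 < sgn (cdir a b) * ((ccurve a t - cpt G x (Sum.inr c)) * (starRingEnd ℂ) (cu c)).re ∧
    |((ccurve a t - cpt G x (Sum.inr c)) * (starRingEnd ℂ) (cu c)).im| ≤
      M * (sgn (cdir a b) *
        ((ccurve a t - cpt G x (Sum.inr c)) * (starRingEnd ℂ) (cu c)).re) := by
  classical
  have hon : On a.e (Sum.inr c) := by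
    rw [← h]
    cases b
    · exact a.on_l
    · exact a.on_r
  obtain ⟨h1, h2, h3⟩ := c.2
  have hdir : cdir a b = if KindY c then (decide (a.e = c.1.1) == !b) else !b := by
    unfold cdir
    rw [h]
  set m : ℝ := 2 * cx G x (Sum.inr c) - (x a.e.1.1 + x a.e.1.2) with hm
  by_cases hY : KindY c
  · rw [if_pos hY] at hdir
    have hr : (0 : ℝ) < Real.sqrt (1 + slope c ^ 2) := Real.sqrt_pos.2 (by positivity)
    set r := Real.sqrt (1 + slope c ^ 2) with hrdef
    set s := slope c with hs
    have hsgn : ∀ t : unitInterval, t ≠ par b →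
        0 < sgn (cdir a b) * ((m - s) * cnD a c t) := by
      intro t ht
      have hp := cnD_sign a b c h ht
      rcases hon with he | he
      · have hms : 0 < m - s := by
          rw [hm, hs, slope, ← he]
          linarith
        rw [hdir, decide_eq_true he.symm]
        have : (true == !b) = !b := by cases b <;> rfl
        rw [this]
        calc (0 : ℝ) < (m - s) * (sgn (!b) * cnD a c t) := mul_pos hms hp
          _ = _ := by ring
      · have hne : a.e ≠ c.1.1 := by
          rw [← he]
          intro h4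
          rw [h4] at h1
          exact lt_irrefl _ h1
        have hms : m - s < 0 := by
          rw [hm, hs, slope, ← he]
          linarith
        rw [hdir, decide_eq_false hne]
        have : sgn (false == !b) = - sgn (!b) := by cases b <;> simp [sgn]
        rw [this]
        calc (0 : ℝ) < -(m - s) * (sgn (!b) * cnD a c t) := mul_pos (neg_pos.2 hms) hp
          _ = _ := by ring
    have hms0 : ∃ t : unitInterval, t ≠ par b := by
      cases b
      · exact ⟨1, by simp [par]⟩
      · exact ⟨0, by simp [par]⟩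
    have hk0 : 0 < |m - s| := by
      obtain ⟨t, ht⟩ := hms0
      have := hsgn t ht
      rw [abs_pos]
      intro h4
      rw [h4] at this
      simp at this
    refine ⟨2 * (1 + |s| * (|m| + (cx G x a.r - cx G x a.l))) / |m - s|, ?_⟩
    have hev : ∀ᶠ t in 𝓝[≠] par b, |cnD a c t| ≤ |m - s| / 2 :=
      eventually_nhdsWithin_of_eventually_nhds
        ((cnD_tendsto a b c h).eventually (eventually_le_nhds (by positivity)))
    filter_upwards [hev, self_mem_nhdsWithin] with t h4 h5
    have h6 := cn_core (r := r) (s := s) (m := m) (σ := sgn (cdir a b)) hr (cnD_le a b c h t)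
      (by cases cdir a b <;> simp [sgn]) (hsgn t h5) h4 rfl
    have hcu : (starRingEnd ℂ) (cu c) = ⟨-s / r, -1 / r⟩ := by
      unfold cu
      rw [if_pos hY]
      apply Complex.ext
      · rw [Complex.conj_re, Complex.div_ofReal_re]
      · rw [Complex.conj_im, Complex.div_ofReal_im]
        ring
    have hprod : (ccurve a t - cpt G x (Sum.inr c)) * (starRingEnd ℂ) (cu c) =
        ⟨((m - s) * cnD a c t + cnD a c t ^ 2) / r,
          -((cnD a c t + s * (m * cnD a c t + cnD a c t ^ 2)) / r)⟩ := by
      rw [cn_sub a b c h t, hcu]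
      apply Complex.ext
      · rw [Complex.mul_re]
        dsimp only
        ring
      · rw [Complex.mul_im]
        dsimp only
        ring
    rw [hprod]
    dsimp only
    rw [abs_neg]
    exact h6
  · rw [if_neg hY] at hdir
    refine ⟨|m| + (cx G x a.r - cx G x a.l), ?_⟩
    filter_upwards [self_mem_nhdsWithin] with t h5
    have hp := cnD_sign a b c h h5
    have hle := cnD_le a b c h t
    have hcu : (starRingEnd ℂ) (cu c) = 1 := by
      unfold cu
      rw [if_neg hY, map_one]
    rw [hcu, mul_one, cn_sub a b c h t, hdir]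
    dsimp only
    refine ⟨hp, ?_⟩
    have e1 : sgn (!b) * cnD a c t = |cnD a c t| := by
      rw [← abs_of_pos hp, abs_mul]
      have : |sgn (!b)| = 1 := by cases b <;> simp [sgn]
      rw [this, one_mul]
    rw [e1]
    have e2 : m * cnD a c t + cnD a c t ^ 2 = (m + cnD a c t) * cnD a c t := by ring
    rw [e2, abs_mul]
    refine mul_le_mul_of_nonneg_right ?_ (abs_nonneg _)
    exact (abs_add_le _ _).trans (by linarith)

end Pool.Agent.Confl
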