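import Pool.Agent.Confl.Defs

/-!
# Smooth paths are curves
-/

set_option autoImplicit false

open Filter Topology Set

namespace Pool.Agent.Confl

variable {V : Type}

theorem curve_im (D : Drawing V) (a : D.A) (t : unitInterval) : (D.curve a t).im ≤ 0 := by
  have hpt : ∀ x, (D.pt x).im ≤ 0 := by
    rintro (v | j)
    · exact (D.vertex_im v).le
    · exact (D.junction_im j).le
  by_cases h0 : t = 0
  · subst h0
    have h := D.curve_par a false
    rw [par, if_neg Bool.false_ne_true] at h
    rw [h]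
    exact hpt _
  · by_cases h1 : t = 1
    · subst h1
      have h := D.curve_par a true
      rw [par, if_pos rfl] at h
      rw [h]
      exact hpt _
    · exact (D.curve_int a t h0 h1).1.le

private theorem curves_arc (D : Drawing V) (d : D.Dart) :
    JoinedIn (range (D.curve d.1)) (D.pt (D.toSkel.tail d)) (D.pt (D.toSkel.head d)) := by
  have h0 : D.curve d.1 0 = D.pt (D.ep d.1 false) := D.curve_par d.1 false
  have h1 : D.curve d.1 1 = D.pt (D.ep d.1 true) := D.curve_par d.1 true
  have h : JoinedIn (range (D.curve d.1)) (D.pt (D.ep d.1 false)) (D.pt (D.ep d.1 true)) :=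
    ⟨⟨⟨D.curve d.1, D.curve_cont d.1⟩, h0, h1⟩, fun t => ⟨t, rfl⟩⟩
  obtain ⟨a, b⟩ := d
  cases b
  · exact h
  · exact h.symm

private theorem curves_chain (D : Drawing V) : ∀ (l : List D.Dart) (d : D.Dart),
    (d :: l).IsChain D.toSkel.Turn →
    JoinedIn (⋃ e ∈ d :: l, range (D.curve e.1)) (D.pt (D.toSkel.tail d))
      (D.pt (D.toSkel.head ((d :: l).getLast (List.cons_ne_nil _ _))))
  | [], d, _ => by
    refine (curves_arc D d).mono ?_
    intro z hz
    rw [mem_iUnion₂]
    exact ⟨d, List.mem_cons_self, hz⟩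
  | d' :: l, d, h => by
    rw [List.isChain_cons_cons] at h
    obtain ⟨⟨j, h1, h2, -⟩, hl⟩ := h
    have ih := curves_chain D l d' hl
    have e : D.toSkel.head d = D.toSkel.tail d' := by rw [h1, h2]
    have ha : JoinedIn (⋃ e ∈ d :: d' :: l, range (D.curve e.1)) (D.pt (D.toSkel.tail d))
        (D.pt (D.toSkel.head d)) := by
      refine (curves_arc D d).mono ?_
      intro z hz
      rw [mem_iUnion₂]
      exact ⟨d, List.mem_cons_self, hz⟩
    have hb : JoinedIn (⋃ e ∈ d :: d' :: l, range (D.curve e.1)) (D.pt (D.toSkel.tail d'))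
        (D.pt (D.toSkel.head ((d' :: l).getLast (List.cons_ne_nil _ _)))) := by
      refine ih.mono ?_
      intro z hz
      rw [mem_iUnion₂] at hz ⊢
      obtain ⟨x, hx, hz⟩ := hz
      exact ⟨x, List.mem_cons_of_mem _ hx, hz⟩
    rw [e] at ha
    rw [List.getLast_cons (List.cons_ne_nil _ _)]
    exact ha.trans hb

theorem joined_path (D : Drawing V) {u v : V} {p : List D.Dart}
    (hp : D.toSkel.IsSmoothPath u v p) :
    JoinedIn (⋃ d ∈ p, range (D.curve d.1)) (D.pt (Sum.inl u)) (D.pt (Sum.inl v)) := by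
  obtain ⟨h1, h2, h3, -⟩ := hp
  cases p with
  | nil => simp at h1
  | cons d l =>
    have h := curves_chain D l d h3
    rw [List.head?_cons, Option.map_some, Option.some_inj] at h1
    rw [List.getLast?_eq_getLast_of_ne_nil (List.cons_ne_nil _ _), Option.map_some,
      Option.some_inj] at h2
    rw [h1, h2] at h
    exact h

private theorem curves_head (S : Skel V) : ∀ (p : List S.Dart) (c : V),
    p.getLast?.map S.head = some (Sum.inl c) → p.IsChain S.Turn → ∀ e ∈ p,
    S.head e = Sum.inl c ∨ ∃ j, S.head e = Sum.inr j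
  | [], _, h, _, _, _ => by simp at h
  | [d], c, h, _, e, he => by
    rw [List.mem_singleton] at he
    subst he
    simp only [List.getLast?_singleton, Option.map_some, Option.some_inj] at h
    exact Or.inl h
  | d :: d' :: l, c, h, hc, e, he => by
    rw [List.isChain_cons_cons] at hc
    rw [List.getLast?_cons_cons] at h
    rcases List.mem_cons.1 he with rfl | he
    · obtain ⟨j, h1, -⟩ := hc.1
      exact Or.inr ⟨j, h1⟩
    · exact curves_head S (d' :: l) c h hc.2 e he

private theorem curves_tail (S : Skel V) : ∀ (p : List S.Dart) (d : S.Dart),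
    (d :: p).IsChain S.Turn → ∀ e ∈ p, ∃ j, S.tail e = Sum.inr j ∧
      Sum.inr j ∈ (d :: p).map S.head
  | [], _, _, _, he => by simp at he
  | d' :: l, d, hc, e, he => by
    rw [List.isChain_cons_cons] at hc
    rcases List.mem_cons.1 he with rfl | he
    · obtain ⟨j, h1, h2, -⟩ := hc.1
      exact ⟨j, h2, List.mem_map.2 ⟨d, by simp, h1⟩⟩
    · obtain ⟨j, h1, h2⟩ := curves_tail S l d' hc.2 e he
      exact ⟨j, h1, by rw [List.map_cons]; exact List.mem_cons_of_mem _ h2⟩

/-- The nodes of a smooth path. -/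
private theorem curves_node (S : Skel V) {a c : V} {p : List S.Dart} (hp : S.IsSmoothPath a c p)
    {e : S.Dart} (he : e ∈ p) (b : Bool) :
    S.ep e.1 b = Sum.inl a ∨ S.ep e.1 b = Sum.inl c ∨
      ∃ j, S.ep e.1 b = Sum.inr j ∧ Sum.inr j ∈ p.map S.head := by
  obtain ⟨h1, h2, h3, -⟩ := hp
  have hb : b = !e.2 ∨ b = e.2 := by cases b <;> cases e.2 <;> simp
  rcases hb with rfl | rfl
  · rcases curves_head S p c h2 h3 e he with h | ⟨j, h⟩
    · exact Or.inr (Or.inl h)
    · exact Or.inr (Or.inr ⟨j, h, List.mem_map.2 ⟨e, he, h⟩⟩)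
  · cases p with
    | nil => simp at he
    | cons d l =>
      rw [List.head?_cons, Option.map_some, Option.some_inj] at h1
      rcases List.mem_cons.1 he with rfl | he
      · exact Or.inl h1
      · exact Or.inr (Or.inr (curves_tail S l d h3 e he))

theorem common_junction (D : Drawing V) {a b c d : V} {p q : List D.Dart}
    (hp : D.toSkel.IsSmoothPath a c p) (hq : D.toSkel.IsSmoothPath b d q)
    (hab : a ≠ b) (had : a ≠ d) (hcb : c ≠ b) (hcd : c ≠ d)
    (h : ((⋃ d ∈ p, range (D.curve d.1)) ∩ (⋃ d ∈ q, range (D.curve d.1))).Nonempty) :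
    ∃ j : D.J, Sum.inr j ∈ p.map D.toSkel.head ∧ Sum.inr j ∈ q.map D.toSkel.head := by
  -- a common node is a junction
  have key : ∀ e ∈ p, ∀ e' ∈ q, ∀ s s' : Bool, D.ep e.1 s = D.ep e'.1 s' →
      ∃ j : D.J, Sum.inr j ∈ p.map D.toSkel.head ∧ Sum.inr j ∈ q.map D.toSkel.head := by
    intro e he e' he' s s' hs
    have k1 := curves_node D.toSkel hp he s
    have k2 := curves_node D.toSkel hq he' s'
    rw [← hs] at k2
    rcases k1 with k1 | k1 | ⟨j, k1, k3⟩
    · exfalso
      rw [k1] at k2
      rcases k2 with k2 | k2 | ⟨j', k2, -⟩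
      · exact hab (Sum.inl_injective k2)
      · exact had (Sum.inl_injective k2)
      · exact absurd k2 (by simp)
    · exfalso
      rw [k1] at k2
      rcases k2 with k2 | k2 | ⟨j', k2, -⟩
      · exact hcb (Sum.inl_injective k2)
      · exact hcd (Sum.inl_injective k2)
      · exact absurd k2 (by simp)
    · rw [k1] at k2
      rcases k2 with k2 | k2 | ⟨j', k2, k4⟩
      · exact absurd k2 (by simp)
      · exact absurd k2 (by simp)
      · obtain rfl := Sum.inr_injective k2
        exact ⟨j, k3, k4⟩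
  obtain ⟨z, hz1, hz2⟩ := h
  rw [mem_iUnion₂] at hz1 hz2
  obtain ⟨e, he, s, hs⟩ := hz1
  obtain ⟨e', he', t, ht⟩ := hz2
  by_cases hee : e.1 = e'.1
  · exact key e he e' he' false false (by rw [hee])
  · obtain ⟨h1, h2⟩ := D.curve_disj e.1 e'.1 s t hee (by rw [hs, ht])
    have hend : ∀ (x : D.A) (r : unitInterval), (r = 0 ∨ r = 1) →
        ∃ β : Bool, D.curve x r = D.pt (D.ep x β) := by
      rintro x r (rfl | rfl)
      · exact ⟨false, D.curve_par x false⟩
      · exact ⟨true, D.curve_par x true⟩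
    obtain ⟨β, hβ⟩ := hend e.1 s h1
    obtain ⟨β', hβ'⟩ := hend e'.1 t h2
    refine key e he e' he' β β' (D.pt_inj ?_)
    rw [← hβ, ← hβ', hs, ht]

end Pool.Agent.Confl
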