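import Pool.Agent.Confl.EarDefs

/-!
# Separation determines the cyclic order up to reversal (package EA2)
-/

set_option autoImplicit false

namespace Pool.Agent.Confl

/-- The rotated index. -/
private def cycRank {N : ℕ} (a i : Fin N) : ℕ := if (a : ℕ) ≤ i then (i : ℕ) - a else i + N - a

private theorem cycRank_eq {N : ℕ} (a i : Fin N) : ((i : ℕ) + (N - a)) % N = cycRank a i := by
  have ha := a.2
  have hi := i.2
  unfold cycRank
  split_ifs with h
  · have : (i : ℕ) + (N - a) = (i - a) + N := by omega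
    rw [this, Nat.add_mod_right, Nat.mod_eq_of_lt (by omega)]
  · rw [Nat.mod_eq_of_lt (by omega)]
    omega

private theorem cycRank_eq' {N : ℕ} (a i : Fin N) :
    ((i : ℕ) + (N - 1 - a)) % N = if i = a then N - 1 else cycRank a i - 1 := by
  have ha := a.2
  have hi := i.2
  unfold cycRank
  split_ifs with h1 h2
  · subst h1
    rw [Nat.mod_eq_of_lt (by omega)]
    omega
  · have hne : (i : ℕ) ≠ a := fun h => h1 (Fin.ext h)
    have : (i : ℕ) + (N - 1 - a) = (i - a - 1) + N := by omega
    rw [this, Nat.add_mod_right, Nat.mod_eq_of_lt (by omega)]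
  · rw [Nat.mod_eq_of_lt (by omega)]
    omega

private theorem cycRank_btw {N : ℕ} (a b c d : Fin N) (hb : b ≠ a) (hc : c ≠ a) (hd : d ≠ a) :
    Alt (fun i : Fin N => (i : ℝ)) a c b d ↔ (cycRank a b < cycRank a c ∧ cycRank a c < cycRank a d) ∨
      (cycRank a d < cycRank a c ∧ cycRank a c < cycRank a b) := by
  have ha' := a.2
  have hb' := b.2
  have hc' := c.2
  have hd' := d.2
  simp only [Alt, Btw, Nat.cast_lt, ne_eq, Fin.ext_iff, cycRank] at *
  split_ifs <;> omega

private theorem cyc_btw {N : ℕ} {y : Fin N → ℝ} (hy : Function.Injective y) (a b c d : Fin N)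
    (hmin : ∀ i, i ≠ a → y a < y i) (hb : b ≠ a) (hc : c ≠ a) (hd : d ≠ a) :
    Alt y a c b d ↔ (y b < y c ∧ y c < y d) ∨ (y d < y c ∧ y c < y b) := by
  have h1 := hmin b hb
  have h2 := hmin c hc
  have h3 := hmin d hd
  have h4 : ∀ e, e ≠ a → (Btw y a c e ↔ y e < y c) := by
    intro e he
    have := hmin e he
    unfold Btw
    constructor
    · rintro (h | h)
      · exact h.2
      · linarith [h.2]
    · intro h
      exact Or.inl ⟨this, h⟩
  unfold Alt
  rw [h4 b hb, h4 d hd]
  constructor
  · rintro (⟨h5, h6, -, h7⟩ | ⟨h5, h6, -, h7⟩)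
    · exact Or.inl ⟨h5, lt_of_le_of_ne (not_lt.1 h6) fun h => h7 (hy h.symm)⟩
    · exact Or.inr ⟨h5, lt_of_le_of_ne (not_lt.1 h6) fun h => h7 (hy h.symm)⟩
  · rintro (⟨h5, h6⟩ | ⟨h5, h6⟩)
    · exact Or.inl ⟨h5, not_lt.2 h6.le, hd, fun h => h6.ne (by rw [h])⟩
    · exact Or.inr ⟨h5, not_lt.2 h6.le, hb, fun h => h6.ne (by rw [h])⟩

/-- Two injective functions with the same betweenness relation are in the same or in the opposite
order. -/
private theorem cyc_mono {S : Type} (f : S → ℕ) (g : S → ℝ) (hf : Function.Injective f)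
    (hg : Function.Injective g)
    (h : ∀ x y z, f x < f y → f y < f z → (g x < g y ∧ g y < g z) ∨ (g z < g y ∧ g y < g x)) :
    (∀ x y, g x < g y ↔ f x < f y) ∨ (∀ x y, g x < g y ↔ f y < f x) := by
  let _ : LinearOrder S := LinearOrder.lift' f hf
  have hlt : ∀ x y : S, x < y ↔ f x < f y := fun x y => Iff.rfl
  have hm : Monotone g ∨ Antitone g := by
    by_contra hcon
    rw [not_or] at hcon
    obtain ⟨x, y, z, hxy, hyz, h1⟩ := not_monotone_not_antitone_iff_exists_le_le.1 hcon
    have hxy' : x < y := lt_of_le_of_ne hxy fun he => by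
      subst he
      rcases h1 with h1 | h1 <;> exact lt_irrefl _ h1.1
    have hyz' : y < z := lt_of_le_of_ne hyz fun he => by
      subst he
      rcases h1 with h1 | h1 <;> exact lt_irrefl _ h1.2
    rcases h x y z ((hlt _ _).1 hxy') ((hlt _ _).1 hyz') with h2 | h2 <;>
      rcases h1 with h1 | h1 <;> linarith [h1.1, h1.2, h2.1, h2.2]
  rcases hm with hm | hm
  · left
    intro x y
    have := hm.strictMono_of_injective hg
    rw [this.lt_iff_lt]
    exact Iff.rfl
  · right
    intro x y
    have := hm.strictAnti_of_injective hg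
    rw [this.lt_iff_gt]
    exact Iff.rfl

theorem alt_cyc {N : ℕ} (y : Fin N → ℝ) (hy : Function.Injective y)
    (h : ∀ a b c d, Alt (fun i : Fin N => (i : ℝ)) a b c d ↔ Alt y a b c d) :
    CycNat y ∨ CycNat (fun i => - y i) := by
  rcases Nat.eq_zero_or_pos N with rfl | hN
  · exact Or.inl ⟨0, fun i => i.elim0⟩
  have : Nonempty (Fin N) := ⟨⟨0, hN⟩⟩
  obtain ⟨a, ha⟩ := Finite.exists_min y
  have hmin : ∀ i, i ≠ a → y a < y i := fun i hi =>
    lt_of_le_of_ne (ha i) fun he => hi (hy he.symm)
  have hr0 : cycRank a a = 0 := by simp [cycRank]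
  have hrN : ∀ i, cycRank a i < N := by
    intro i
    have ha' := a.2
    have hi := i.2
    unfold cycRank
    split_ifs <;> omega
  have hrpos : ∀ i, i ≠ a → 0 < cycRank a i := by
    intro i hi
    have ha' := a.2
    have hi' := i.2
    have : (i : ℕ) ≠ a := fun h => hi (Fin.ext h)
    unfold cycRank
    split_ifs <;> omega
  have hrinj : Function.Injective (cycRank a) := by
    intro i j hij
    have ha' := a.2
    have hi := i.2
    have hj := j.2
    unfold cycRank at hij
    apply Fin.ext
    split_ifs at hij <;> omega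
  rcases cyc_mono (S := {i : Fin N // i ≠ a}) (fun i => cycRank a i) (fun i => y i)
      (fun i j hij => Subtype.ext (hrinj hij)) (fun i j hij => Subtype.ext (hy hij))
      (fun b c d h1 h2 => (cyc_btw hy a b c d hmin b.2 c.2 d.2).1
        ((h _ _ _ _).1 ((cycRank_btw a b c d b.2 c.2 d.2).2 (Or.inl ⟨h1, h2⟩)))) with h1 | h1
  · refine Or.inl ⟨N - a, fun i j => ?_⟩
    rw [cycRank_eq, cycRank_eq]
    by_cases hi : i = a
    · subst hi
      rw [hr0]
      by_cases hj : j = i
      · subst hj
        rw [hr0]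
        simp
      · exact iff_of_true (hmin j hj) (hrpos j hj)
    · by_cases hj : j = a
      · subst hj
        rw [hr0]
        exact iff_of_false (hmin i hi).not_gt (Nat.not_lt_zero _)
      · exact h1 ⟨i, hi⟩ ⟨j, hj⟩
  · refine Or.inr ⟨N - 1 - a, fun i j => ?_⟩
    rw [cycRank_eq', cycRank_eq', neg_lt_neg_iff]
    have hi2 := hrN i
    have hj2 := hrN j
    by_cases hi : i = a
    · subst hi
      rw [if_pos rfl]
      by_cases hj : j = i
      · subst hj
        simp
      · rw [if_neg hj]
        exact iff_of_false (hmin j hj).not_gt (by omega)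
    · have hi3 := hrpos i hi
      rw [if_neg hi]
      by_cases hj : j = a
      · subst hj
        rw [if_pos rfl]
        exact iff_of_true (hmin i hi) (by omega)
      · have hj3 := hrpos j hj
        rw [if_neg hj]
        have h2 := h1 ⟨j, hj⟩ ⟨i, hi⟩
        simp only at h2
        rw [h2]
        omega

theorem cyc_five {n : ℕ} {y : Fin (5 * n) → ℝ} (h : CycNat y) :
    CycNat (fun i : Fin n => y (five i)) := by
  obtain ⟨k, hk⟩ := h
  refine ⟨k / 5, fun i j => ?_⟩
  have key : ∀ i : Fin n, ((five i : ℕ) + k) % (5 * n) = k % 5 + 5 * (((i : ℕ) + k / 5) % n) := by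
    intro i
    rw [Nat.mod_mul]
    have h1 : ((five i : ℕ) + k) % 5 = k % 5 := by simp only [five]; omega
    have h2 : ((five i : ℕ) + k) / 5 = (i : ℕ) + k / 5 := by simp only [five]; omega
    rw [h1, h2]
  rw [hk, key, key]
  omega

end Pool.Agent.Confl
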