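import Mathlib

/-!
# Outerconfluent drawings and graphs (MP_5f8c52_lc)

A drawing lives in the closed lower half-plane: the vertices are points of the real axis, the
junctions lie strictly below it, and so do the interiors of the arcs. So all vertices lie on the
boundary of the unbounded face, which contains the upper half-plane.
-/

set_option autoImplicit false

open Filter Topology Set

namespace Pool.Agent.Confl

/-- The combinatorial part of a drawing: junctions, arcs, the points representing vertices and
junctions, the two end points of every arc (`false`: initial end, `true`: final end), and for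
every arc end the direction (one of the two directions of the common tangent) in which the arc
leaves its end point; the latter is only used at junctions. -/
structure Skel (V : Type) where
  /-- junctions -/
  J : Type
  /-- arcs -/
  A : Type
  /-- points representing vertices and junctions -/
  pt : V ⊕ J → ℂ
  /-- end points of the arcs -/
  ep : A → Bool → V ⊕ J
  /-- directions -/
  dir : A → Bool → Bool

variable {V : Type}

/-- The parameter of an arc end. -/
def par (b : Bool) : unitInterval := if b then 1 else 0

/-- The sign of a direction. -/
def sgn (b : Bool) : ℝ := if b then 1 else -1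

/-- A dart: an arc traversed from its end `d.2` to its end `!d.2`. -/
abbrev Skel.Dart (S : Skel V) : Type := S.A × Bool

/-- Starting point of a dart. -/
def Skel.tail (S : Skel V) (d : S.Dart) : V ⊕ S.J := S.ep d.1 d.2

/-- End point of a dart. -/
def Skel.head (S : Skel V) (d : S.Dart) : V ⊕ S.J := S.ep d.1 (!d.2)

/-- The dart `d'` continues the dart `d` at a junction without a sharp turn: the directions in
which the two arcs leave the junction are opposite. -/
def Skel.Turn (S : Skel V) (d d' : S.Dart) : Prop :=
  ∃ j : S.J, S.head d = Sum.inr j ∧ S.tail d' = Sum.inr j ∧ S.dir d.1 (!d.2) ≠ S.dir d'.1 d'.2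

/-- `p` is a smooth path from the vertex `u` to the vertex `v`: it starts at `u`, ends at `v`,
passes from each arc to the next one smoothly through a junction, and does not meet a junction
twice. -/
structure Skel.IsSmoothPath (S : Skel V) (u v : V) (p : List S.Dart) : Prop where
  start : p.head?.map S.tail = some (Sum.inl u)
  finish : p.getLast?.map S.head = some (Sum.inl v)
  turns : p.IsChain S.Turn
  simple : (p.map S.head).Nodup

/-- An outerconfluent drawing with vertex set `V`. -/
structure Drawing (V : Type) extends Skel V where
  finite_J : Finite J
  finite_A : Finite A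
  /-- vertices and junctions are distinct points -/
  pt_inj : Function.Injective pt
  /-- the vertices lie on the real axis -/
  vertex_im : ∀ v, (pt (Sum.inl v)).im = 0
  /-- the junctions lie below the real axis -/
  junction_im : ∀ j, (pt (Sum.inr j)).im < 0
  /-- the arcs -/
  curve : A → unitInterval → ℂ
  curve_cont : ∀ a, Continuous (curve a)
  curve_inj : ∀ a, Function.Injective (curve a)
  curve_par : ∀ a b, curve a (par b) = pt (ep a b)
  /-- interior points of arcs lie below the real axis and are no vertices or junctions -/
  curve_int : ∀ a t, t ≠ 0 → t ≠ 1 → (curve a t).im < 0 ∧ ∀ x, curve a t ≠ pt x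
  /-- two arcs meet only at common end points -/
  curve_disj : ∀ a b s t, a ≠ b → curve a s = curve b t → (s = 0 ∨ s = 1) ∧ (t = 0 ∨ t = 1)
  /-- a unit vector giving the tangent at each junction -/
  u : J → ℂ
  norm_u : ∀ j, ‖u j‖ = 1
  /-- the arcs at a junction are tangent there: every arc leaves the junction in one of the two
  directions `u j`, `- u j` of the tangent -/
  tangent : ∀ a b j, ep a b = Sum.inr j →
    Tendsto (fun t => (curve a t - pt (Sum.inr j)) / (‖curve a t - pt (Sum.inr j)‖ : ℂ))
      (𝓝[≠] par b) (𝓝 ((sgn (dir a b) : ℂ) * u j))

/-- The skeleton `S` represents the graph `G`. -/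
def Skel.Represents (S : Skel V) (G : SimpleGraph V) : Prop :=
  ∀ u v, u ≠ v → (G.Adj u v ↔ ∃ p, S.IsSmoothPath u v p)

/-- `G` is outerconfluent. -/
def Outerconfluent (G : SimpleGraph V) : Prop :=
  ∃ D : Drawing V, D.Represents G

/-- `G` has an outerconfluent drawing in which the vertices appear along the outer face in the
order of the numbers `x v`. -/
def OuterconfluentAt (G : SimpleGraph V) (x : V → ℝ) : Prop :=
  ∃ D : Drawing V, D.Represents G ∧
    ∀ u v, x u < x v ↔ (D.pt (Sum.inl u)).re < (D.pt (Sum.inl v)).re

/-- The local condition on the order: crossing edges `ac`, `bd` need two further edges. -/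
def LC (G : SimpleGraph V) (x : V → ℝ) : Prop :=
  ∀ a b c d, x a < x b → x b < x c → x c < x d → G.Adj a c → G.Adj b d →
    (G.Adj a b ∧ G.Adj c d) ∨ (G.Adj a d ∧ G.Adj b c)

/-- `x c` lies strictly between `x a` and `x b`. -/
def Btw (x : V → ℝ) (a b c : V) : Prop := (x a < x c ∧ x c < x b) ∨ (x b < x c ∧ x c < x a)

/-- The set `S` is an arc of the cyclic order of `V` given by `x`: no two elements of `S` separate
two elements outside `S`. -/
def IsArc (x : V → ℝ) (S : Set V) : Prop :=
  ∀ a ∈ S, ∀ b ∈ S, ∀ c ∉ S, ∀ d ∉ S, (Btw x a b c ↔ Btw x a b d)

/-- For every vertex `v`, every connected component of `G - N[v]` is an arc. -/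
def ArcProp (G : SimpleGraph V) (x : V → ℝ) : Prop :=
  ∀ v : V, ∀ C : (G.induce {w | w ≠ v ∧ ¬ G.Adj v w}).ConnectedComponent,
    IsArc x (Subtype.val '' C.supp)

/-- Graphs on `0, …, n-1`. -/
abbrev GInst : Type := Σ n : ℕ, SimpleGraph (Fin n)

open Classical in
/-- A graph as a word over the alphabet `{0, 1, separator}` (`some false`, `some true`, `none`):
`n` in unary, separator, the adjacency matrix row by row. -/
noncomputable def enc (I : GInst) : List (Option Bool) :=
  List.replicate I.1 (some true) ++ none ::
    List.ofFn (fun p : Fin (I.1 * I.1) => some (decide (I.2.Adj p.divNat p.modNat)))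

end Pool.Agent.Confl
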