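import Pool.Agent.Confl.Chords

/-!
# Prescribed cyclic order: definitions
-/

set_option autoImplicit false

namespace Pool.Agent.Confl

/-- The numbers `y 0, …, y (n-1)` increase cyclically: for some `k`, they are in the same order as
`(0 + k) % n, …, (n - 1 + k) % n`. -/
def CycNat {n : ℕ} (y : Fin n → ℝ) : Prop :=
  ∃ k : ℕ, ∀ i j : Fin n, y i < y j ↔ ((i : ℕ) + k) % n < ((j : ℕ) + k) % n

/-- `G` has an outerconfluent drawing in which the vertices appear along the outer face in the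
cyclic order `0, 1, …, n-1`. -/
def OuterconfluentNat {n : ℕ} (G : SimpleGraph (Fin n)) : Prop :=
  ∃ D : Drawing (Fin n), D.Represents G ∧ CycNat fun i => (D.pt (Sum.inl i)).re

/-- The graph `G` with ears: the vertex `i` is called `5 * i`, and for every `i` there is a new path
`5 * i, 5 * i + 1, …, 5 * i + 5` (modulo `5 * n`). -/
def earGraph {n : ℕ} (G : SimpleGraph (Fin n)) : SimpleGraph (Fin (5 * n)) where
  Adj u v := u ≠ v ∧ (((u : ℕ) + 1) % (5 * n) = v ∨ ((v : ℕ) + 1) % (5 * n) = u ∨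
    ∃ i j : Fin n, (u : ℕ) = 5 * i ∧ (v : ℕ) = 5 * j ∧ G.Adj i j)
  symm := by
    refine ⟨?_⟩
    rintro u v ⟨hne, h⟩
    refine ⟨hne.symm, ?_⟩
    rcases h with h | h | ⟨i, j, hu, hv, h⟩
    · exact Or.inr (Or.inl h)
    · exact Or.inl h
    · exact Or.inr (Or.inr ⟨j, i, hv, hu, h.symm⟩)
  loopless := ⟨fun u h => h.1 rfl⟩

/-- The vertex `5 * i`. -/
def five {n : ℕ} (i : Fin n) : Fin (5 * n) := ⟨5 * i, by omega⟩

/-- The map `G ↦ earGraph G` on instances. -/
def earInst (I : GInst) : GInst := ⟨5 * I.1, earGraph I.2⟩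

end Pool.Agent.Confl
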