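import Pool.Agent.Confl.EarDefs

/-! # The cyclic order of the ear graph -/

set_option autoImplicit false
set_option linter.unusedSimpArgs false
set_option linter.unreachableTactic false
set_option linter.unusedTactic false

namespace Pool.Agent.Confl

/-- `v` follows `u` cyclically -/
private def eaS {n : ℕ} (u v : Fin (5 * n)) : Prop :=
  (u : ℕ) + 1 = v ∨ ((u : ℕ) + 1 = 5 * n ∧ (v : ℕ) = 0)

private lemma eaS_iff {n : ℕ} (u v : Fin (5 * n)) : ((u : ℕ) + 1) % (5 * n) = v ↔ eaS u v := by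
  unfold eaS
  have hu := u.2
  have hv := v.2
  rcases Nat.lt_or_ge ((u : ℕ) + 1) (5 * n) with h | h
  · rw [Nat.mod_eq_of_lt h]
    constructor
    · intro h1; exact Or.inl h1
    · rintro (h1 | h1)
      · exact h1
      · omega
  · have h1 : (u : ℕ) + 1 = 5 * n := by omega
    rw [h1, Nat.mod_self]
    constructor
    · intro h2; exact Or.inr ⟨rfl, h2.symm⟩
    · rintro (h2 | h2)
      · omega
      · exact h2.2.symm

private lemma ea_adj {n : ℕ} (G : SimpleGraph (Fin n)) {u v : Fin (5 * n)}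
    (h : (earGraph G).Adj u v) :
    eaS u v ∨ eaS v u ∨ (∃ i j : ℕ, (u : ℕ) = 5 * i ∧ (v : ℕ) = 5 * j) := by
  obtain ⟨-, h | h | ⟨i, j, hi, hj, -⟩⟩ := h
  · exact Or.inl ((eaS_iff u v).1 h)
  · exact Or.inr (Or.inl ((eaS_iff v u).1 h))
  · exact Or.inr (Or.inr ⟨i, j, hi, hj⟩)

private lemma ea_adj_of_S {n : ℕ} (G : SimpleGraph (Fin n)) {u v : Fin (5 * n)}
    (h : eaS u v) : (earGraph G).Adj u v := by
  refine ⟨?_, Or.inl ((eaS_iff u v).2 h)⟩
  rintro rfl
  have hu := u.2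
  rcases h with h | h <;> omega

/-- a path edge lies in no 4-cycle -/
private lemma ea_no_four {n : ℕ} (G : SimpleGraph (Fin n)) {m m' p q : Fin (5 * n)}
    (hS : eaS m m') (h1 : (earGraph G).Adj m' p) (h2 : (earGraph G).Adj p q)
    (h3 : (earGraph G).Adj q m) (hp : p ≠ m) (hq : q ≠ m') : False := by
  have hp' : (p : ℕ) ≠ m := fun h => hp (Fin.ext h)
  have hq' : (q : ℕ) ≠ m' := fun h => hq (Fin.ext h)
  have e1 := ea_adj G h1
  have e2 := ea_adj G h2
  have e3 := ea_adj G h3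
  have b1 := m.2
  have b2 := m'.2
  have b3 := p.2
  have b4 := q.2
  unfold eaS at *
  rcases e1 with e1 | e1 | ⟨i1, j1, e1, e1'⟩ <;> rcases e2 with e2 | e2 | ⟨i2, j2, e2, e2'⟩ <;>
    rcases e3 with e3 | e3 | ⟨i3, j3, e3, e3'⟩ <;> omega

variable {V : Type}

private lemma btw_comm (y : V → ℝ) (a b c : V) : Btw y a b c ↔ Btw y b a c := by
  unfold Btw; exact or_comm

/-- alternation is symmetric, in terms of sides -/
private lemma same_side_symm {y : V → ℝ} (hy : Function.Injective y) {a b c d : V}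
    (hab : a ≠ b) (hcd : c ≠ d) (hac : a ≠ c) (had : a ≠ d) (hbc : b ≠ c) (hbd : b ≠ d)
    (h : Btw y a b c ↔ Btw y a b d) : (Btw y c d a ↔ Btw y c d b) := by
  have e1 := hy.ne hab
  have e2 := hy.ne hcd
  have e3 := hy.ne hac
  have e4 := hy.ne had
  have e5 := hy.ne hbc
  have e6 := hy.ne hbd
  unfold Btw at *
  rcases lt_or_gt_of_ne e1 with e1 | e1 <;> rcases lt_or_gt_of_ne e2 with e2 | e2 <;>
  rcases lt_or_gt_of_ne e3 with e3 | e3 <;> rcases lt_or_gt_of_ne e4 with e4 | e4 <;>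
  rcases lt_or_gt_of_ne e5 with e5 | e5 <;> rcases lt_or_gt_of_ne e6 with e6 | e6 <;>
  simp only [e1, e2, e3, e4, e5, e6, e1.not_gt, e2.not_gt, e3.not_gt, e4.not_gt, e5.not_gt,
    e6.not_gt, and_true, true_and, and_false, false_and, or_true, true_or, or_false, false_or,
    iff_true, true_iff, iff_false, false_iff, not_true, not_false_iff] at h ⊢ <;>
  linarith

/-- three points cannot all be neighbours of `a` -/
private lemma three_nbrs {y : V → ℝ} (hy : Function.Injective y) {a p q r : V}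
    (hap : a ≠ p) (haq : a ≠ q) (har : a ≠ r) (hpq : p ≠ q) (hpr : p ≠ r) (hqr : q ≠ r)
    (h1 : Btw y a p q ↔ Btw y a p r) (h2 : Btw y a q p ↔ Btw y a q r)
    (h3 : Btw y a r p ↔ Btw y a r q) : False := by
  have e1 := hy.ne hap
  have e2 := hy.ne haq
  have e3 := hy.ne har
  have e4 := hy.ne hpq
  have e5 := hy.ne hpr
  have e6 := hy.ne hqr
  unfold Btw at *
  rcases lt_or_gt_of_ne e1 with e1 | e1 <;> rcases lt_or_gt_of_ne e2 with e2 | e2 <;>
  rcases lt_or_gt_of_ne e3 with e3 | e3 <;> rcases lt_or_gt_of_ne e4 with e4 | e4 <;>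
  rcases lt_or_gt_of_ne e5 with e5 | e5 <;> rcases lt_or_gt_of_ne e6 with e6 | e6 <;>
  first
  | (exfalso; linarith)
  | (simp only [e1, e2, e3, e4, e5, e6, e1.not_gt, e2.not_gt, e3.not_gt, e4.not_gt, e5.not_gt,
      e6.not_gt, and_true, true_and, and_false, false_and, or_true, true_or, or_false, false_or,
      iff_true, true_iff, iff_false, false_iff, not_true, not_false_iff] at h1 h2 h3)

private lemma ea_side_aux {n : ℕ} (G : SimpleGraph (Fin n)) (y : Fin (5 * n) → ℝ)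
    (hy : Function.Injective y) (h : LC (earGraph G) y) {m m' p q : Fin (5 * n)}
    (hS : eaS m m') (hpq : (earGraph G).Adj p q) (hpm : p ≠ m) (hpm' : p ≠ m') (hqm : q ≠ m)
    (hqm' : q ≠ m') (h1 : Btw y m m' p) (h2 : ¬ Btw y m m' q) : False := by
  have hmm := ea_adj_of_S G hS
  have key : ∀ x z, (earGraph G).Adj m x → (earGraph G).Adj m' z → (earGraph G).Adj x z →
      x ≠ m' → z ≠ m → False := fun x z a1 a2 a3 a4 a5 =>
    ea_no_four G hS a2 a3.symm a1.symm a5 a4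
  have e1 := hy.ne hqm
  have e2 := hy.ne hqm'
  have h3 : ¬ ((y m < y q ∧ y q < y m') ∨ (y m' < y q ∧ y q < y m)) := h2
  rcases h1 with ⟨h4, h5⟩ | ⟨h4, h5⟩
  · rcases lt_or_gt_of_ne e1 with e1 | e1
    · rcases h q m p m' e1 h4 h5 hpq.symm hmm with ⟨a1, a2⟩ | ⟨a1, a2⟩
      · exact key q p a1.symm a2.symm hpq.symm hqm' hpm
      · exact key p q a2 a1.symm hpq hpm' hqm
    · rcases lt_or_gt_of_ne e2 with e2 | e2
      · exact h3 (Or.inl ⟨e1, e2⟩)
      · rcases h m p m' q h4 h5 e2 hmm hpq with ⟨a1, a2⟩ | ⟨a1, a2⟩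
        · exact key p q a1 a2 hpq hpm' hqm
        · exact key q p a1 a2.symm hpq.symm hqm' hpm
  · rcases lt_or_gt_of_ne e2 with e2 | e2
    · rcases h q m' p m e2 h4 h5 hpq.symm hmm.symm with ⟨a1, a2⟩ | ⟨a1, a2⟩
      · exact key p q a2.symm a1.symm hpq hpm' hqm
      · exact key q p a1.symm a2 hpq.symm hqm' hpm
    · rcases lt_or_gt_of_ne e1 with e1 | e1
      · exact h3 (Or.inr ⟨e2, e1⟩)
      · rcases h m' p m q h4 h5 e1 hmm.symm hpq with ⟨a1, a2⟩ | ⟨a1, a2⟩
        · exact key q p a2 a1 hpq.symm hqm' hpm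
        · exact key p q a2.symm a1 hpq hpm' hqm

private lemma ea_side {n : ℕ} (G : SimpleGraph (Fin n)) (y : Fin (5 * n) → ℝ)
    (hy : Function.Injective y) (h : LC (earGraph G) y) {m m' p q : Fin (5 * n)}
    (hS : eaS m m') (hpq : (earGraph G).Adj p q) (hpm : p ≠ m) (hpm' : p ≠ m') (hqm : q ≠ m)
    (hqm' : q ≠ m') : Btw y m m' p ↔ Btw y m m' q := by
  constructor
  · intro h1
    by_contra h2
    exact ea_side_aux G y hy h hS hpq hpm hpm' hqm hqm' h1 h2
  · intro h1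
    by_contra h2
    exact ea_side_aux G y hy h hS hpq.symm hqm hqm' hpm hpm' h1 h2

/-- stepping along the path -/
private lemma ea_step {n : ℕ} (P : Fin (5 * n) → Prop) {a b : Fin (5 * n)}
    (hP : ∀ p p', eaS p p' → p ≠ a → p ≠ b → p' ≠ a → p' ≠ b → (P p ↔ P p')) :
    ∀ (k : ℕ) (p q : Fin (5 * n)), (p : ℕ) + k = q →
      (∀ r : Fin (5 * n), (p : ℕ) ≤ r → (r : ℕ) ≤ q → r ≠ a ∧ r ≠ b) → (P p ↔ P q) := by
  intro k
  induction k with
  | zero =>
    intro p q hpq _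
    have : p = q := Fin.ext (by omega)
    rw [this]
  | succ k ih =>
    intro p q hpq hr
    have hq := q.2
    have hlt : (p : ℕ) + k < 5 * n := by omega
    have h1 := ih p ⟨(p : ℕ) + k, hlt⟩ rfl (fun r h2 h3 => hr r h2 (by
      have h4 : (r : ℕ) ≤ (p : ℕ) + k := h3
      omega))
    rw [h1]
    have h5 := hr ⟨(p : ℕ) + k, hlt⟩ (Nat.le_add_right _ _) (by
      show (p : ℕ) + k ≤ q
      omega)
    have h6 := hr q (by omega) le_rfl
    exact hP _ _ (Or.inl (by
      show (p : ℕ) + k + 1 = q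
      omega)) h5.1 h5.2 h6.1 h6.2

/-- a property constant along path steps avoiding `a`, `b` is constant on the two groups -/
private lemma ea_const {n : ℕ} (P : Fin (5 * n) → Prop) {a b : Fin (5 * n)}
    (hab : (a : ℕ) < b)
    (hP : ∀ p p', eaS p p' → p ≠ a → p ≠ b → p' ≠ a → p' ≠ b → (P p ↔ P p'))
    {c d : Fin (5 * n)} (hca : c ≠ a) (hcb : c ≠ b) (hda : d ≠ a) (hdb : d ≠ b)
    (hsame : ((a : ℕ) < c ∧ (c : ℕ) < b) ↔ ((a : ℕ) < d ∧ (d : ℕ) < b)) : P c ↔ P d := by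
  have na : ∀ x y : Fin (5 * n), x ≠ y → (x : ℕ) ≠ y := fun x y h h2 => h (Fin.ext h2)
  have hca' := na _ _ hca
  have hcb' := na _ _ hcb
  have hda' := na _ _ hda
  have hdb' := na _ _ hdb
  -- monotone stepping
  have mono : ∀ p q : Fin (5 * n), (p : ℕ) ≤ q →
      (∀ r : Fin (5 * n), (p : ℕ) ≤ r → (r : ℕ) ≤ q → r ≠ a ∧ r ≠ b) → (P p ↔ P q) := by
    intro p q hpq hr
    obtain ⟨k, hk⟩ := Nat.exists_eq_add_of_le hpq
    exact ea_step P hP k p q hk.symm hr
  have sep : ∀ r : Fin (5 * n), (r : ℕ) ≠ a → (r : ℕ) ≠ b → r ≠ a ∧ r ≠ b :=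
    fun r h1 h2 => ⟨fun h => h1 (by rw [h]), fun h => h2 (by rw [h])⟩
  have hc := c.2
  have hd := d.2
  have ha := a.2
  have hb := b.2
  by_cases hin : (a : ℕ) < c ∧ (c : ℕ) < b
  · have hin' := hsame.1 hin
    rcases Nat.le_total (c : ℕ) d with h | h
    · exact mono c d h (fun r h1 h2 => sep r (by omega) (by omega))
    · exact (mono d c h (fun r h1 h2 => sep r (by omega) (by omega))).symm
  · have hin' : ¬ ((a : ℕ) < d ∧ (d : ℕ) < b) := fun h => hin (hsame.2 h)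
    -- the outer group
    have top : ∀ x : Fin (5 * n), (b : ℕ) < x → (P x ↔ P ⟨5 * n - 1, by omega⟩) := by
      intro x hx
      have := x.2
      exact mono x _ (by show (x : ℕ) ≤ 5 * n - 1; omega)
        (fun r h1 h2 => sep r (by omega) (by omega))
    have bot : ∀ x : Fin (5 * n), (x : ℕ) < a → (P x ↔ P ⟨0, by omega⟩) := by
      intro x hx
      exact (mono ⟨0, by omega⟩ x (Nat.zero_le _)
        (fun r h1 h2 => sep r (by omega) (by omega))).symm
    have link : ∀ x z : Fin (5 * n), (b : ℕ) < x → (z : ℕ) < a →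
        (P ⟨5 * n - 1, by omega⟩ ↔ P ⟨0, by omega⟩) := by
      intro x z hx hz
      have := x.2
      have h1 := sep ⟨5 * n - 1, by omega⟩ (by show 5 * n - 1 ≠ (a : ℕ); omega)
        (by show 5 * n - 1 ≠ (b : ℕ); omega)
      have h2 := sep ⟨0, by omega⟩ (by show 0 ≠ (a : ℕ); omega)
        (by show 0 ≠ (b : ℕ); omega)
      exact hP _ _ (Or.inr ⟨by show 5 * n - 1 + 1 = 5 * n; omega, rfl⟩) h1.1 h1.2 h2.1 h2.2
    rcases Nat.lt_or_ge (b : ℕ) c with h1 | h1 <;> rcases Nat.lt_or_ge (b : ℕ) d with h2 | h2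
    · exact (top c h1).trans (top d h2).symm
    · have h3 : (d : ℕ) < a := by omega
      exact (top c h1).trans ((link c d h1 h3).trans (bot d h3).symm)
    · have h3 : (c : ℕ) < a := by omega
      exact (bot c h3).trans ((link d c h2 h3).symm.trans (top d h2).symm)
    · have h3 : (c : ℕ) < a := by omega
      have h4 : (d : ℕ) < a := by omega
      exact (bot c h3).trans (bot d h4).symm

/-- all vertices off a path edge are on one side of it -/
private lemma ea_path {n : ℕ} (G : SimpleGraph (Fin n)) (y : Fin (5 * n) → ℝ)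
    (hy : Function.Injective y) (h : LC (earGraph G) y) {m m' c d : Fin (5 * n)}
    (hS : eaS m m') (hcm : c ≠ m) (hcm' : c ≠ m') (hdm : d ≠ m) (hdm' : d ≠ m') :
    Btw y m m' c ↔ Btw y m m' d := by
  have hc := c.2
  have hd := d.2
  have n1 : (c : ℕ) ≠ m := fun h => hcm (Fin.ext h)
  have n2 : (c : ℕ) ≠ m' := fun h => hcm' (Fin.ext h)
  have n3 : (d : ℕ) ≠ m := fun h => hdm (Fin.ext h)
  have n4 : (d : ℕ) ≠ m' := fun h => hdm' (Fin.ext h)
  rcases hS with hS' | ⟨hS1, hS2⟩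
  · exact ea_const (fun x => Btw y m m' x) (a := m) (b := m') (by omega)
      (fun p p' hpp h1 h2 h3 h4 => ea_side G y hy h (Or.inl hS') (ea_adj_of_S G hpp) h1 h2 h3 h4)
      hcm hcm' hdm hdm' (by constructor <;> rintro ⟨_, _⟩ <;> omega)
  · exact ea_const (fun x => Btw y m m' x) (a := m') (b := m) (by omega)
      (fun p p' hpp h1 h2 h3 h4 => ea_side G y hy h (Or.inr ⟨hS1, hS2⟩) (ea_adj_of_S G hpp)
        h2 h1 h4 h3)
      hcm' hcm hdm' hdm (by constructor <;> intro _ <;> constructor <;> omega)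

/-- natural side equal implies side equal -/
private lemma ea_same {n : ℕ} (G : SimpleGraph (Fin n)) (y : Fin (5 * n) → ℝ)
    (hy : Function.Injective y) (h : LC (earGraph G) y) {a b c d : Fin (5 * n)}
    (hab : (a : ℕ) < b) (hca : c ≠ a) (hcb : c ≠ b) (hda : d ≠ a) (hdb : d ≠ b)
    (hsame : ((a : ℕ) < c ∧ (c : ℕ) < b) ↔ ((a : ℕ) < d ∧ (d : ℕ) < b)) :
    Btw y a b c ↔ Btw y a b d := by
  have hab' : a ≠ b := fun h => by rw [h] at hab; omega
  apply ea_const (fun x => Btw y a b x) hab _ hca hcb hda hdb hsame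
  intro p p' hpp h1 h2 h3 h4
  have hne : p ≠ p' := (ea_adj_of_S G hpp).ne
  exact same_side_symm hy hne hab' h1 h2 h3 h4
    (ea_path G y hy h hpp h1.symm h3.symm h2.symm h4.symm)

/-- natural side different implies side different -/
private lemma ea_diff {n : ℕ} (G : SimpleGraph (Fin n)) (y : Fin (5 * n) → ℝ)
    (hy : Function.Injective y) (h : LC (earGraph G) y) {a b c d : Fin (5 * n)}
    (hab : (a : ℕ) < b) (hda : d ≠ a) (hdb : d ≠ b)
    (hc : (a : ℕ) < c ∧ (c : ℕ) < b) (hd : ¬ ((a : ℕ) < d ∧ (d : ℕ) < b)) :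
    ¬ (Btw y a b c ↔ Btw y a b d) := by
  intro hcd
  have hab' : a ≠ b := fun h => by rw [h] at hab; omega
  have hca : c ≠ a := fun h => by rw [h] at hc; omega
  have hcb : c ≠ b := fun h => by rw [h] at hc; omega
  have hdlt := d.2
  have halt := a.2
  have hblt := b.2
  have n3 : (d : ℕ) ≠ a := fun h => hda (Fin.ext h)
  have n4 : (d : ℕ) ≠ b := fun h => hdb (Fin.ext h)
  have hall : ∀ x z : Fin (5 * n), x ≠ a → x ≠ b → z ≠ a → z ≠ b →
      (Btw y a b x ↔ Btw y a b z) := by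
    have h1 : ∀ x : Fin (5 * n), x ≠ a → x ≠ b → (Btw y a b x ↔ Btw y a b c) := by
      intro x hxa hxb
      by_cases hx : (a : ℕ) < x ∧ (x : ℕ) < b
      · exact ea_same G y hy h hab hxa hxb hca hcb (by simp only [hx, hc, true_and])
      · rw [hcd]
        exact ea_same G y hy h hab hxa hxb hda hdb (by
          constructor
          · intro h2; exact absurd h2 hx
          · intro h2; exact absurd h2 hd)
    intro x z h2 h3 h4 h5
    exact (h1 x h2 h3).trans (h1 z h4 h5).symm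
  -- the two neighbours of a
  obtain ⟨s, hs⟩ : ∃ s : Fin (5 * n), (s : ℕ) = a + 1 := ⟨⟨a + 1, by omega⟩, rfl⟩
  obtain ⟨t, ht⟩ : ∃ t : Fin (5 * n), eaS t a := by
    rcases Nat.eq_zero_or_pos (a : ℕ) with h0 | h0
    · exact ⟨⟨5 * n - 1, by omega⟩, Or.inr ⟨by show 5 * n - 1 + 1 = 5 * n; omega, h0⟩⟩
    · exact ⟨⟨a - 1, by omega⟩, Or.inl (by show (a : ℕ) - 1 + 1 = a; omega)⟩
  have hsS : eaS a s := Or.inl hs.symm
  have hsa : s ≠ a := fun h => by rw [h] at hs; omega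
  have hsb : s ≠ b := fun h => by rw [h] at hs; omega
  have htlt := t.2
  have hta : t ≠ a := by
    rintro rfl
    rcases ht with ht | ht <;> omega
  have htb : t ≠ b := by
    rintro rfl
    rcases ht with ht | ht <;> omega
  have hst : s ≠ t := by
    rintro rfl
    rcases ht with ht | ht <;> omega
  refine three_nbrs hy (a := a) (p := s) (q := t) (r := b) hsa.symm hta.symm hab' hst hsb htb
    ?_ ?_ ?_
  · exact ea_path G y hy h hsS hta hst.symm hab'.symm hsb.symm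
  · rw [btw_comm y a t s, btw_comm y a t b]
    exact ea_path G y hy h ht hst hsa htb.symm hab'.symm
  · exact hall s t hsa hsb hta htb

private lemma btw_self (y : V → ℝ) (a c : V) : ¬ Btw y a a c := by
  unfold Btw
  rintro (⟨h1, h2⟩ | ⟨h1, h2⟩) <;> exact absurd (h1.trans h2) (lt_irrefl _)

private lemma btw_ne {y : V → ℝ} {a b c : V} (h : Btw y a b c) : c ≠ a ∧ c ≠ b := by
  unfold Btw at h
  constructor
  · rintro rfl
    rcases h with ⟨h1, h2⟩ | ⟨h1, h2⟩
    · exact lt_irrefl _ h1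
    · exact lt_irrefl _ h2
  · rintro rfl
    rcases h with ⟨h1, h2⟩ | ⟨h1, h2⟩
    · exact lt_irrefl _ h2
    · exact lt_irrefl _ h1

private lemma alt_iff {x : V → ℝ} {a b c d : V} :
    Alt x a b c d ↔ c ≠ a ∧ c ≠ b ∧ d ≠ a ∧ d ≠ b ∧ ¬ (Btw x a b c ↔ Btw x a b d) := by
  unfold Alt
  constructor
  · rintro (⟨h1, h2, h3, h4⟩ | ⟨h1, h2, h3, h4⟩)
    · exact ⟨(btw_ne h1).1, (btw_ne h1).2, h3, h4, fun h => h2 (h.1 h1)⟩
    · exact ⟨h3, h4, (btw_ne h1).1, (btw_ne h1).2, fun h => h2 (h.2 h1)⟩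
  · rintro ⟨h1, h2, h3, h4, h5⟩
    by_cases hc : Btw x a b c
    · left
      exact ⟨hc, fun hd => h5 ⟨fun _ => hd, fun _ => hc⟩, h3, h4⟩
    · right
      refine ⟨?_, hc, h1, h2⟩
      by_contra hd
      exact h5 ⟨fun h => absurd h hc, fun h => absurd h hd⟩

private lemma ea_key {n : ℕ} (G : SimpleGraph (Fin n)) (y : Fin (5 * n) → ℝ)
    (hy : Function.Injective y) (h : LC (earGraph G) y) {a b c d : Fin (5 * n)}
    (hab : (a : ℕ) < b) (hca : c ≠ a) (hcb : c ≠ b) (hda : d ≠ a) (hdb : d ≠ b) :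
    (((a : ℕ) < c ∧ (c : ℕ) < b) ↔ ((a : ℕ) < d ∧ (d : ℕ) < b)) ↔
      (Btw y a b c ↔ Btw y a b d) := by
  constructor
  · exact ea_same G y hy h hab hca hcb hda hdb
  · intro h1
    by_cases hc : (a : ℕ) < c ∧ (c : ℕ) < b <;> by_cases hd : (a : ℕ) < d ∧ (d : ℕ) < b
    · exact ⟨fun _ => hd, fun _ => hc⟩
    · exact absurd h1 (ea_diff G y hy h hab hda hdb hc hd)
    · exact absurd h1.symm (ea_diff G y hy h hab hca hcb hd hc)
    · exact ⟨fun h => absurd h hc, fun h => absurd h hd⟩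

theorem ear_alt {n : ℕ} (G : SimpleGraph (Fin n)) (y : Fin (5 * n) → ℝ)
    (hy : Function.Injective y) (h : LC (earGraph G) y) (a b c d : Fin (5 * n)) :
    Alt (fun i : Fin (5 * n) => (i : ℝ)) a b c d ↔ Alt y a b c d := by
  have hnat : ∀ (u v w : Fin (5 * n)), (u : ℕ) < v →
      (Btw (fun i : Fin (5 * n) => (i : ℝ)) u v w ↔ ((u : ℕ) < w ∧ (w : ℕ) < v)) := by
    intro u v w huv
    unfold Btw
    simp only [Nat.cast_lt]
    constructor
    · rintro (h | h)
      · exact h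
      · omega
    · intro h; exact Or.inl h
  rw [alt_iff, alt_iff]
  rcases lt_trichotomy (a : ℕ) b with hab | hab | hab
  · rw [hnat a b c hab, hnat a b d hab]
    constructor
    · rintro ⟨h1, h2, h3, h4, h5⟩
      exact ⟨h1, h2, h3, h4, fun h6 => h5 ((ea_key G y hy h hab h1 h2 h3 h4).2 h6)⟩
    · rintro ⟨h1, h2, h3, h4, h5⟩
      exact ⟨h1, h2, h3, h4, fun h6 => h5 ((ea_key G y hy h hab h1 h2 h3 h4).1 h6)⟩
  · have : a = b := Fin.ext hab
    subst this
    constructor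
    · rintro ⟨h1, h2, h3, h4, h5⟩
      exact absurd ⟨fun h => absurd h (btw_self _ _ _), fun h => absurd h (btw_self _ _ _)⟩ h5
    · rintro ⟨h1, h2, h3, h4, h5⟩
      exact absurd ⟨fun h => absurd h (btw_self _ _ _), fun h => absurd h (btw_self _ _ _)⟩ h5
  · rw [btw_comm _ a b c, btw_comm _ a b d, btw_comm y a b c, btw_comm y a b d,
      hnat b a c hab, hnat b a d hab]
    constructor
    · rintro ⟨h1, h2, h3, h4, h5⟩
      exact ⟨h1, h2, h3, h4, fun h6 => h5 ((ea_key G y hy h hab h2 h1 h4 h3).2 h6)⟩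
    · rintro ⟨h1, h2, h3, h4, h5⟩
      exact ⟨h1, h2, h3, h4, fun h6 => h5 ((ea_key G y hy h hab h2 h1 h4 h3).1 h6)⟩

end Pool.Agent.Confl
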