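import Mathlib
import Pool.Agent.PT.Out
import Pool.Agent.PT.UF
import Pool.Agent.B7219d.Enc
import Pool.Agent.Confl.EarDefs

/-!
# The graph with ears is computed in polynomial time
-/

set_option autoImplicit false

namespace Pool.Agent.Confl

open Pool.Agent.PT
open Pool.Agent.B7219d (nn aj UF_nn UP_aj)
open Turing Computability

namespace EarPoly

/-! ### Reading the word -/

private theorem enc_lt (I : GInst) {i : ℕ} (hi : i < I.1) : (enc I)[i]? = some (some true) := by
  classical
  unfold enc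
  rw [List.getElem?_append_left (by simpa using hi)]
  simp [hi]

private theorem enc_sep (I : GInst) : (enc I)[I.1]? = some none := by
  classical
  unfold enc
  rw [List.getElem?_append_right (by simp)]
  simp

open Classical in
private theorem enc_mat' (I : GInst) {p : ℕ} (hp : p < I.1 * I.1) :
    (enc I)[I.1 + 1 + p]? =
      some (some (decide (I.2.Adj (Fin.divNat ⟨p, hp⟩) (Fin.modNat ⟨p, hp⟩)))) := by
  unfold enc
  rw [List.getElem?_append_right (by simp; omega)]
  rw [List.length_replicate, show I.1 + 1 + p - I.1 = p + 1 by omega, List.getElem?_cons_succ]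
  rw [List.getElem?_ofFn]
  simp [hp]

private theorem enc_mat (I : GInst) {p : ℕ} (hp : p < I.1 * I.1) :
    (enc I)[I.1 + 1 + p]? = some (some true) ↔
      I.2.Adj (Fin.divNat ⟨p, hp⟩) (Fin.modNat ⟨p, hp⟩) := by
  classical
  rw [enc_mat' I hp]
  simp

private theorem enc_length (I : GInst) : (enc I).length = I.1 + 1 + I.1 * I.1 := by
  classical
  simp [enc]
  omega

private theorem nn_enc (I : GInst) : nn (enc I) = I.1 := by
  classical
  unfold nn
  have h1 : ∀ i ∈ Finset.range (enc I).length, (if ∀ j, j < i + 1 → ¬ (enc I)[j]? = some none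
      then 1 else 0) = if i < I.1 then 1 else 0 := by
    intro i _
    by_cases hi : i < I.1
    · rw [if_pos hi, if_pos fun j hj => by rw [enc_lt I (by omega)]; simp]
    · rw [if_neg hi, if_neg fun h => h I.1 (by omega) (enc_sep I)]
  rw [Finset.sum_congr rfl h1, ← Finset.sum_filter]
  have : (Finset.range (enc I).length).filter (fun i => i < I.1) = Finset.range I.1 := by
    ext i
    simp only [Finset.mem_filter, Finset.mem_range, enc_length]
    omega
  rw [this]; simp

private theorem aj_enc (I : GInst) (i j : Fin I.1) : aj (enc I) i j ↔ I.2.Adj i j := by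
  unfold aj
  rw [nn_enc]
  have h1 : (i : ℕ) * I.1 + j < I.1 * I.1 := by
    calc (i : ℕ) * I.1 + j < i * I.1 + I.1 := by have := j.2; omega
      _ = (i + 1) * I.1 := by ring
      _ ≤ I.1 * I.1 := Nat.mul_le_mul_right _ i.2
  rw [enc_mat I h1]
  have e1 : (Fin.divNat ⟨(i : ℕ) * I.1 + j, h1⟩ : Fin I.1) = i := by
    ext
    simp only [Fin.coe_divNat]
    rw [Nat.add_comm, Nat.add_mul_div_right _ _ (by have := j.2; omega), Nat.div_eq_of_lt j.2]
    omega
  have e2 : (Fin.modNat ⟨(i : ℕ) * I.1 + j, h1⟩ : Fin I.1) = j := by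
    ext
    simp only [Fin.coe_modNat]
    rw [Nat.add_comm, Nat.add_mul_mod_self_right, Nat.mod_eq_of_lt j.2]
  rw [e1, e2]

/-! ### The output letters -/

/-- Adjacency in the graph with ears. -/
private def Q (x : List (Option Bool)) (u v : ℕ) : Prop :=
  u ≠ v ∧ ((u + 1) % (5 * nn x) = v ∨ ((v + 1) % (5 * nn x) = u ∨
    (u % 5 = 0 ∧ (v % 5 = 0 ∧ aj x (u / 5) (v / 5)))))

private theorem UP_Q {f g : List (Option Bool) → (ℕ → ℕ) → ℕ} (hf : UF f) (hg : UF g) :
    UP (fun x e => Q x (f x e) (g x e)) := by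
  have hN : UF (fun x (_ : ℕ → ℕ) => 5 * nn x) := (UF.const 5).mul UF_nn
  refine (UP.ne hf hg).and (((UP.eq ((hf.add (UF.const 1)).mod hN) hg)).or
    ((UP.eq ((hg.add (UF.const 1)).mod hN) hf).or ((UP.eq (hf.mod (UF.const 5)) (UF.const 0)).and
      ((UP.eq (hg.mod (UF.const 5)) (UF.const 0)).and ?_))))
  exact UP.comp₂ (P := fun x i j => aj x i j) UP_aj (hf.div (UF.const 5)) (hg.div (UF.const 5))

private theorem Q_enc (I : GInst) (u v : Fin (5 * I.1)) :
    Q (enc I) u v ↔ (earGraph I.2).Adj u v := by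
  unfold Q
  rw [nn_enc]
  simp only [earGraph]
  have h0 : (u : ℕ) ≠ v ↔ u ≠ v := by rw [Ne, Ne, Fin.ext_iff]
  rw [h0]
  refine and_congr_right fun _ => or_congr_right (or_congr_right ?_)
  have hu := u.2
  have hv := v.2
  constructor
  · rintro ⟨h1, h2, h3⟩
    refine ⟨⟨(u : ℕ) / 5, by omega⟩, ⟨(v : ℕ) / 5, by omega⟩, ?_, ?_, ?_⟩
    · simp only; omega
    · simp only; omega
    · exact (aj_enc I _ _).1 h3
  · rintro ⟨i, j, h1, h2, h3⟩
    have e1 : (u : ℕ) / 5 = i := by omega
    have e2 : (v : ℕ) / 5 = j := by omega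
    refine ⟨by omega, by omega, ?_⟩
    rw [e1, e2]
    exact (aj_enc I _ _).2 h3

open Classical in
/-- The code of the output letter. -/
private noncomputable def ol (x : List (Option Bool)) (i : ℕ) : ℕ :=
  if i < 5 * nn x then 1 else if i = 5 * nn x then 2 else
    if Q x ((i - (5 * nn x + 1)) / (5 * nn x)) ((i - (5 * nn x + 1)) % (5 * nn x)) then 1 else 0

/-- The output letters. -/
private def dec (k : ℕ) : Option Bool :=
  if k = 0 then some false else if k = 1 then some true else none

private theorem dec_min (k : ℕ) : dec (min k 2) = dec k := by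
  unfold dec
  rcases k with _ | _ | k
  · rfl
  · rfl
  · rw [if_neg (by omega), if_neg (by omega), if_neg (by omega), if_neg (by omega)]

private theorem UF_ol : UF (fun x e => ol x (e 0)) := by
  have hN : UF (fun x (_ : ℕ → ℕ) => 5 * nn x) := (UF.const 5).mul UF_nn
  have hp : UF (fun x (e : ℕ → ℕ) => e 0 - (5 * nn x + 1)) :=
    (UF.var 0).sub (hN.add (UF.const 1))
  exact UF.ite (UP.lt (UF.var 0) hN) (UF.const 1) (UF.ite (UP.eq (UF.var 0) hN) (UF.const 2)
    (UF.ite (UP_Q (hp.div hN) (hp.mod hN)) (UF.const 1) (UF.const 0)))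

private theorem out_eq (I : GInst) : enc (earInst I) =
    (List.range (5 * nn (enc I) + 1 + 5 * nn (enc I) * (5 * nn (enc I)))).map
      (fun i => dec (ol (enc I) i)) := by
  classical
  have hJ : (earInst I).1 = 5 * I.1 := rfl
  rw [nn_enc]
  apply List.ext_getElem?
  intro i
  rw [List.getElem?_map]
  by_cases hi : i < 5 * I.1 + 1 + 5 * I.1 * (5 * I.1)
  · rw [List.getElem?_range hi, Option.map_some]
    unfold ol
    rw [nn_enc]
    by_cases h1 : i < 5 * I.1
    · rw [if_pos h1, enc_lt (earInst I) h1]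
      rfl
    · rw [if_neg h1]
      by_cases h2 : i = 5 * I.1
      · rw [if_pos h2, h2]
        rw [show (5 * I.1) = (earInst I).1 from rfl, enc_sep (earInst I)]
        rfl
      · rw [if_neg h2]
        set p := i - (5 * I.1 + 1) with hp
        have hi' : i = (earInst I).1 + 1 + p := by rw [hJ]; omega
        have hp' : p < (earInst I).1 * (earInst I).1 := by rw [hJ]; omega
        rw [hi', enc_mat' (earInst I) hp']
        have h3 : Q (enc I) (p / (5 * I.1)) (p % (5 * I.1)) ↔
            (earInst I).2.Adj (Fin.divNat ⟨p, hp'⟩) (Fin.modNat ⟨p, hp'⟩) :=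
          Q_enc I (Fin.divNat ⟨p, hp'⟩) (Fin.modNat ⟨p, hp'⟩)
        by_cases h4 : Q (enc I) (p / (5 * I.1)) (p % (5 * I.1))
        · rw [if_pos h4, decide_eq_true (h3.1 h4)]
          rfl
        · rw [if_neg h4, decide_eq_false (fun h => h4 (h3.2 h))]
          rfl
  · rw [List.getElem?_eq_none (by rw [enc_length, hJ]; omega),
      List.getElem?_eq_none (by rw [List.length_range]; omega)]
    rfl

end EarPoly

open Pool.Agent.Confl.EarPoly

theorem ear_polyTime : Nonempty (TM2ComputableInPolyTime enc enc earInst) := by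
  have hN : UF (fun x (_ : ℕ → ℕ) => 5 * nn x) := (UF.const 5).mul UF_nn
  obtain ⟨m, hm⟩ : UF (fun x (_ : ℕ → ℕ) => 5 * nn x + 1 + 5 * nn x * (5 * nn x)) :=
    (hN.add (UF.const 1)).add (hN.mul hN)
  obtain ⟨t, ht⟩ := UF_ol
  refine polyTime_of_terms enc enc earInst m t 2 dec fun I => ?_
  rw [hm, out_eq]
  refine List.map_congr_left fun i _ => ?_
  rw [ht, dec_min]
  rfl

end Pool.Agent.Confl
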