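import Pool.Agent.Confl.EarDefs
import Pool.Agent.Confl.AddEdge
import Pool.Agent.Confl.AddOuter

/-!
# The ears can be added
-/

set_option autoImplicit false

open Filter Topology Set

namespace Pool.Agent.Confl

namespace Ears

/-- rotation by `k` on `Fin N` -/
theorem exists_rot (N k : ℕ) : ∃ e : Fin N ≃ Fin N, ∀ i : Fin N, (e i : ℕ) = ((i : ℕ) + k) % N := by
  have hlt : ∀ i : Fin N, ((i : ℕ) + k) % N < N := fun i => Nat.mod_lt _ (by have := i.2; omega)
  have hinj : Function.Injective (fun i : Fin N => (⟨((i : ℕ) + k) % N, hlt i⟩ : Fin N)) := by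
    intro i j hij
    have h1 : ((i : ℕ) + k) % N = ((j : ℕ) + k) % N := congrArg Fin.val hij
    have h2 : (i : ℕ) ≡ (j : ℕ) [MOD N] := Nat.ModEq.add_right_cancel' k h1
    exact Fin.ext (Nat.ModEq.eq_of_lt_of_lt h2 i.2 j.2)
  exact ⟨Equiv.ofBijective _ ⟨hinj, Finite.injective_iff_surjective.1 hinj⟩, fun i => rfl⟩

theorem rot_succ {N k : ℕ} (e : Fin N ≃ Fin N) (he : ∀ i : Fin N, (e i : ℕ) = ((i : ℕ) + k) % N)
    (a b : Fin N) : ((a : ℕ) + 1) % N = b ↔ ((e a : ℕ) + 1) % N = e b := by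
  rw [he, he, Nat.mod_add_mod]
  constructor
  · intro h
    have h1 : ((a : ℕ) + 1) ≡ (b : ℕ) [MOD N] := by
      unfold Nat.ModEq; rw [h, Nat.mod_eq_of_lt b.2]
    have h2 := h1.add_right k
    unfold Nat.ModEq at h2
    rw [← h2]
    congr 1
    ring
  · intro h
    have h1 : ((a : ℕ) + 1) + k ≡ (b : ℕ) + k [MOD N] := by
      unfold Nat.ModEq; rw [← h]; congr 1; ring
    have h2 := Nat.ModEq.add_right_cancel' k h1
    unfold Nat.ModEq at h2
    rw [h2, Nat.mod_eq_of_lt b.2]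

/-- piecewise linear interpolation -/
noncomputable def wInt (b : ℕ → ℝ) (s : ℕ) : ℝ :=
  b ((s + 3) / 5) + (((s + 3) % 5 : ℕ) : ℝ) / 5 * (b ((s + 3) / 5 + 1) - b ((s + 3) / 5))

theorem wInt_strictMono {b : ℕ → ℝ} (hb : StrictMono b) : StrictMono (wInt b) := by
  refine strictMono_nat_of_lt_succ fun s => ?_
  have h1 : s + 3 = 5 * ((s + 3) / 5) + (s + 3) % 5 := (Nat.div_add_mod (s + 3) 5).symm
  have h2 : (s + 3) % 5 < 5 := Nat.mod_lt _ (by norm_num)
  set q := (s + 3) / 5 with hq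
  set t := (s + 3) % 5 with ht
  have h3 := hb (Nat.lt_succ_self q)
  unfold wInt
  rw [← hq, ← ht]
  by_cases h4 : t < 4
  · have h5 : (s + 1 + 3) / 5 = q := by omega
    have h6 : (s + 1 + 3) % 5 = t + 1 := by omega
    rw [h5, h6]
    push_cast
    have h7 : (0 : ℝ) < b (q + 1) - b q := sub_pos.2 h3
    nlinarith
  · have h5 : (s + 1 + 3) / 5 = q + 1 := by omega
    have h6 : (s + 1 + 3) % 5 = 0 := by omega
    have h8 : t = 4 := by omega
    rw [h5, h6, h8]
    push_cast
    have h7 : (0 : ℝ) < b (q + 1) - b q := sub_pos.2 h3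
    nlinarith

theorem wInt_two (b : ℕ → ℝ) (r : ℕ) : wInt b (5 * r + 2) = b (r + 1) := by
  unfold wInt
  have h1 : (5 * r + 2 + 3) / 5 = r + 1 := by omega
  have h2 : (5 * r + 2 + 3) % 5 = 0 := by omega
  rw [h1, h2]
  simp

theorem wInt_zero (b : ℕ → ℝ) : wInt b 0 = 2 / 5 * b 0 + 3 / 5 * b 1 := by
  unfold wInt
  norm_num
  ring

theorem wInt_last (b : ℕ → ℝ) (n : ℕ) (hn : 0 < n) :
    wInt b (5 * n - 1) = 3 / 5 * b n + 2 / 5 * b (n + 1) := by
  unfold wInt
  have h1 : (5 * n - 1 + 3) / 5 = n := by omega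
  have h2 : (5 * n - 1 + 3) % 5 = 2 := by omega
  rw [h1, h2]
  push_cast
  ring

/-- an interpolating sequence with prescribed values and large ends -/
theorem exists_seq {n : ℕ} (hn : 0 < n) (a : ℕ → ℝ) (ha : ∀ r, r + 1 < n → a r < a (r + 1))
    (R : ℝ) : ∃ w : ℕ → ℝ, StrictMono w ∧ (∀ r < n, w (5 * r + 2) = a r) ∧ w 0 < - R ∧
      R < w (5 * n - 1) := by
  set B : ℝ := - (5 * |R| + 3 * |a 0|) - 1 with hB
  set C : ℝ := 5 * |R| + 3 * |a (n - 1)| + 1 with hC
  let b : ℕ → ℝ := fun q => match q with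
    | 0 => B
    | q + 1 => if q < n then a q else C + q
  have hb0 : b 0 = B := rfl
  have hb1 : ∀ q, b (q + 1) = if q < n then a q else C + q := fun q => rfl
  have hR := abs_nonneg R
  have hR1 := le_abs_self R
  have hR2 := neg_abs_le R
  have h01 := abs_nonneg (a 0)
  have h02 := neg_abs_le (a 0)
  have h03 := le_abs_self (a 0)
  have h11 := abs_nonneg (a (n - 1))
  have h12 := le_abs_self (a (n - 1))
  have h13 := neg_abs_le (a (n - 1))
  have hb : StrictMono b := by
    refine strictMono_nat_of_lt_succ fun q => ?_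
    cases q with
    | zero =>
      rw [hb0, hb1, if_pos hn]
      linarith
    | succ q =>
      rw [hb1, hb1]
      by_cases h1 : q + 1 < n
      · rw [if_pos (by omega), if_pos h1]
        exact ha q h1
      · rw [if_neg h1]
        by_cases h2 : q < n
        · rw [if_pos h2]
          have h3 : q = n - 1 := by omega
          rw [h3]
          have : (0 : ℝ) ≤ ((n - 1 + 1 : ℕ) : ℝ) := Nat.cast_nonneg _
          linarith
        · rw [if_neg h2]
          push_cast
          linarith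
  refine ⟨wInt b, wInt_strictMono hb, ?_, ?_, ?_⟩
  · intro r hr
    rw [wInt_two, hb1, if_pos hr]
  · rw [wInt_zero, hb0, hb1, if_pos hn]
    linarith
  · rw [wInt_last b n hn]
    have h3 : b n = a (n - 1) := by
      have h4 := hb1 (n - 1)
      rw [if_pos (by omega), Nat.sub_add_cancel hn] at h4
      exact h4
    rw [h3, hb1, if_neg (lt_irrefl n)]
    have h5 : (0 : ℝ) ≤ (n : ℝ) := Nat.cast_nonneg _
    linarith

/-- The graph after `r` steps. -/
def gr {N : ℕ} (H : SimpleGraph (Fin N)) (e : Fin N ≃ Fin N) (r : ℕ) : SimpleGraph (Fin N) :=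
  H ⊔ SimpleGraph.fromRel (fun a b => (e a : ℕ) + 1 = e b ∧ (e a : ℕ) < r)

theorem gr_zero {N : ℕ} (H : SimpleGraph (Fin N)) (e : Fin N ≃ Fin N) : gr H e 0 = H := by
  ext a b
  simp [gr]

theorem gr_succ {N : ℕ} (H : SimpleGraph (Fin N)) (e : Fin N ≃ Fin N) (r : ℕ) (u v : Fin N)
    (hu : (e u : ℕ) = r) (hv : (e v : ℕ) = r + 1) :
    gr H e (r + 1) = gr H e r ⊔ SimpleGraph.edge u v := by
  have key : ∀ a b : Fin N, ((e a : ℕ) + 1 = e b ∧ (e a : ℕ) < r + 1) ↔
      (((e a : ℕ) + 1 = e b ∧ (e a : ℕ) < r) ∨ (a = u ∧ b = v)) := by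
    intro a b
    constructor
    · rintro ⟨h1, h2⟩
      by_cases h3 : (e a : ℕ) < r
      · exact Or.inl ⟨h1, h3⟩
      · refine Or.inr ⟨e.injective (Fin.ext (by omega)), e.injective (Fin.ext (by omega))⟩
    · rintro (⟨h1, h2⟩ | ⟨h1, h2⟩)
      · exact ⟨h1, by omega⟩
      · subst h1 h2
        exact ⟨by omega, by omega⟩
  ext a b
  simp only [gr, SimpleGraph.sup_adj, SimpleGraph.fromRel_adj, SimpleGraph.edge_adj, key]
  tauto

theorem main {n : ℕ} (hn : 0 < n) (G : SimpleGraph (Fin n)) (h : OuterconfluentNat G) :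
    Outerconfluent (earGraph G) := by
  obtain ⟨D, hD, k, hk⟩ := h
  obtain ⟨R, hR⟩ := add_outer (W := Fin (5 * n)) D
  obtain ⟨e, he⟩ := exists_rot n k
  obtain ⟨e', he'⟩ := exists_rot (5 * n) (5 * k + 2)
  set y : Fin n → ℝ := fun i => (D.pt (Sum.inl i)).re with hy
  set a : ℕ → ℝ := fun r => if hr : r < n then y (e.symm ⟨r, hr⟩) else 0 with ha
  have ha1 : ∀ r, r + 1 < n → a r < a (r + 1) := by
    intro r hr
    simp only [ha, dif_pos hr, dif_pos (show r < n by omega)]
    rw [hk, ← he, ← he, e.apply_symm_apply, e.apply_symm_apply]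
    exact Nat.lt_succ_self r
  obtain ⟨w, hw, hw1, hw2, hw3⟩ := exists_seq hn a ha1 R
  set z : Fin (5 * n) → ℝ := fun m => w (e' m) with hz
  have hzinj : Function.Injective z := by
    intro i j hij
    exact e'.injective (Fin.ext (hw.injective hij))
  let f : Fin n ↪ Fin (5 * n) := ⟨five, by
    intro i j h
    have := congrArg Fin.val h
    simp only [five] at this
    exact Fin.ext (by omega)⟩
  have hf : ∀ i, ((f i : Fin (5 * n)) : ℕ) = 5 * i := fun i => rfl
  have hzf : ∀ v, D.pt (Sum.inl v) = (z (f v) : ℂ) := by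
    intro v
    have h1 : (e' (f v) : ℕ) = 5 * (e v : ℕ) + 2 := by
      rw [he', he, hf]
      have h2 : 5 * (v : ℕ) + (5 * k + 2) = 5 * ((v : ℕ) + k) + 2 := by ring
      have h3 := Nat.div_add_mod ((v : ℕ) + k) n
      have h4 : ((v : ℕ) + k) % n < n := Nat.mod_lt _ hn
      set q := ((v : ℕ) + k) / n with hq
      set t := ((v : ℕ) + k) % n with ht
      rw [h2, ← h3]
      have h5 : 5 * (n * q + t) + 2 = (5 * t + 2) + 5 * n * q := by ring
      rw [h5, Nat.add_mul_mod_self_left, Nat.mod_eq_of_lt (by omega)]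
    have h2 : z (f v) = y v := by
      simp only [hz]
      rw [h1, hw1 _ (e v).2]
      simp only [ha, dif_pos (e v).2, Fin.eta, Equiv.symm_apply_apply]
    rw [h2]
    exact Complex.ext (by simp [hy]) (by rw [D.vertex_im]; simp)
  have hlt : 5 * n - 1 < 5 * n := by omega
  set u0 : Fin (5 * n) := e'.symm ⟨0, by omega⟩ with hu0
  set v0 : Fin (5 * n) := e'.symm ⟨5 * n - 1, hlt⟩ with hv0
  have hu1 : (e' u0 : ℕ) = 0 := by rw [hu0, e'.apply_symm_apply]
  have hv1 : (e' v0 : ℕ) = 5 * n - 1 := by rw [hv0, e'.apply_symm_apply]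
  have hmin : ∀ x, z u0 ≤ z x := fun x => by
    simp only [hz]
    exact hw.monotone (by rw [hu1]; exact Nat.zero_le _)
  have hmax : ∀ x, z x ≤ z v0 := fun x => by
    simp only [hz]
    exact hw.monotone (by rw [hv1]; have := (e' x).2; omega)
  obtain ⟨D1, hD1, hD2⟩ := hR f z hzinj hzf u0 v0 hmin hmax (by simp only [hz, hu1]; exact hw2)
    (by simp only [hz, hv1]; exact hw3)
  set H : SimpleGraph (Fin (5 * n)) := G.map f ⊔ SimpleGraph.edge u0 v0 with hH
  have hind : ∀ r, r ≤ 5 * n - 1 → ∃ D' : Drawing (Fin (5 * n)),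
      (∀ x, D'.pt (Sum.inl x) = (z x : ℂ)) ∧ D'.Represents (gr H e' r) := by
    intro r
    induction r with
    | zero => exact fun _ => ⟨D1, hD1, by rw [gr_zero]; exact hD2 G hD⟩
    | succ r ih =>
      intro hr
      obtain ⟨D', h1, h2⟩ := ih (by omega)
      have hr1 : r < 5 * n := by omega
      have hr2 : r + 1 < 5 * n := by omega
      have hu : (e' (e'.symm ⟨r, hr1⟩) : ℕ) = r := by rw [e'.apply_symm_apply]
      have hv : (e' (e'.symm ⟨r + 1, hr2⟩) : ℕ) = r + 1 := by rw [e'.apply_symm_apply]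
      obtain ⟨D'', h3, h4⟩ := add_edge D' (u := e'.symm ⟨r, hr1⟩) (v := e'.symm ⟨r + 1, hr2⟩)
        (by
          rw [h1, h1, Complex.ofReal_re, Complex.ofReal_re]
          simp only [hz, hu, hv]
          exact hw (Nat.lt_succ_self r))
        (by
          intro x
          rw [h1, h1, h1, Complex.ofReal_re, Complex.ofReal_re, Complex.ofReal_re]
          simp only [hz, hu, hv]
          rintro ⟨h5, h6⟩
          have h7 := hw.lt_iff_lt.1 h5
          have h8 := hw.lt_iff_lt.1 h6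
          omega)
      refine ⟨D'', fun x => by rw [h3, h1], ?_⟩
      rw [gr_succ H e' r _ _ hu hv]
      exact h4 _ h2
  obtain ⟨D', -, h2⟩ := hind (5 * n - 1) le_rfl
  refine ⟨D', ?_⟩
  have hgr : gr H e' (5 * n - 1) = earGraph G := by
    ext x x'
    have hs : ∀ x x' : Fin (5 * n), ((x : ℕ) + 1) % (5 * n) = x' ↔
        (((e' x : ℕ) + 1 = e' x' ∧ (e' x : ℕ) < 5 * n - 1) ∨ (x = v0 ∧ x' = u0)) := by
      intro x x'
      rw [rot_succ e' he']
      have hx := (e' x).2
      have hx' := (e' x').2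
      constructor
      · intro h5
        by_cases h6 : (e' x : ℕ) < 5 * n - 1
        · left
          rw [Nat.mod_eq_of_lt (by omega)] at h5
          exact ⟨h5, h6⟩
        · right
          have h7 : (e' x : ℕ) = 5 * n - 1 := by omega
          rw [h7, Nat.sub_add_cancel (by omega), Nat.mod_self] at h5
          exact ⟨e'.injective (Fin.ext (by omega)), e'.injective (Fin.ext (by omega))⟩
      · rintro (⟨h5, h6⟩ | ⟨h5, h6⟩)
        · rw [Nat.mod_eq_of_lt (by omega)]; exact h5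
        · rw [h5, h6, hu1, hv1, Nat.sub_add_cancel (by omega), Nat.mod_self]
    have hmap : (G.map f).Adj x x' ↔
        ∃ i j : Fin n, (x : ℕ) = 5 * i ∧ (x' : ℕ) = 5 * j ∧ G.Adj i j := by
      rw [SimpleGraph.map_adj]
      constructor
      · rintro ⟨i, j, h5, h6, h7⟩
        exact ⟨i, j, by rw [← h6, hf], by rw [← h7, hf], h5⟩
      · rintro ⟨i, j, h5, h6, h7⟩
        exact ⟨i, j, h7, Fin.ext (by rw [hf, h5]), Fin.ext (by rw [hf, h6])⟩
    have hne : (G.map f).Adj x x' → x ≠ x' := fun h5 => h5.ne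
    simp only [gr, hH, SimpleGraph.sup_adj, SimpleGraph.fromRel_adj, SimpleGraph.edge_adj,
      earGraph, hs]
    rw [← hmap]
    tauto
  rw [← hgr]
  exact h2

end Ears

theorem add_ears {n : ℕ} (G : SimpleGraph (Fin n)) (h : OuterconfluentNat G) :
    Outerconfluent (earGraph G) := by
  rcases Nat.eq_zero_or_pos n with rfl | hn
  · obtain ⟨D, -, -⟩ := h
    exact ⟨D, fun u => Fin.elim0 u⟩
  · exact Ears.main hn G h

end Pool.Agent.Confl
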