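import Pool.Agent.Confl.EarDefs

/-!
# Reflection and restriction of drawings
-/

set_option autoImplicit false

open Filter Topology Set

namespace Pool.Agent.Confl

variable {V W : Type}

/-! ### reflection -/

private noncomputable def rfl0 (z : ℂ) : ℂ := - (starRingEnd ℂ) z

private theorem rfl0_re (z : ℂ) : (rfl0 z).re = - z.re := by simp [rfl0]

private theorem rfl0_im (z : ℂ) : (rfl0 z).im = z.im := by simp [rfl0]

private theorem rfl0_inj : Function.Injective rfl0 := by
  intro z w h
  have h1 := congrArg Complex.re h
  have h2 := congrArg Complex.im h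
  rw [rfl0_re, rfl0_re] at h1
  rw [rfl0_im, rfl0_im] at h2
  exact Complex.ext (by linarith) h2

private theorem rfl0_cont : Continuous rfl0 := by
  unfold rfl0
  exact (Complex.continuous_conj).neg

private theorem rfl0_sub (z w : ℂ) : rfl0 z - rfl0 w = rfl0 (z - w) := by
  simp only [rfl0, map_sub]
  ring

private theorem rfl0_norm (z : ℂ) : ‖rfl0 z‖ = ‖z‖ := by
  simp [rfl0]

private theorem rfl0_mul_real (r : ℝ) (z : ℂ) : rfl0 ((r : ℂ) * z) = (r : ℂ) * rfl0 z := by
  simp [rfl0]

private theorem rfl0_div_real (r : ℝ) (z : ℂ) : rfl0 (z / (r : ℂ)) = rfl0 z / (r : ℂ) := by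
  simp [rfl0, neg_div]

/-- the reflected drawing -/
private noncomputable def rflD (D : Drawing V) : Drawing V where
  J := D.J
  A := D.A
  pt := fun x => rfl0 (D.pt x)
  ep := D.ep
  dir := D.dir
  finite_J := D.finite_J
  finite_A := D.finite_A
  pt_inj := rfl0_inj.comp D.pt_inj
  vertex_im := fun v => by rw [rfl0_im]; exact D.vertex_im v
  junction_im := fun j => by rw [rfl0_im]; exact D.junction_im j
  curve := fun a t => rfl0 (D.curve a t)
  curve_cont := fun a => rfl0_cont.comp (D.curve_cont a)
  curve_inj := fun a => rfl0_inj.comp (D.curve_inj a)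
  curve_par := fun a b => congrArg rfl0 (D.curve_par a b)
  curve_int := fun a t h0 h1 => by
    rw [rfl0_im]
    exact ⟨(D.curve_int a t h0 h1).1, fun x h => (D.curve_int a t h0 h1).2 x (rfl0_inj h)⟩
  curve_disj := fun a b s t hab h => D.curve_disj a b s t hab (rfl0_inj h)
  u := fun j => rfl0 (D.u j)
  norm_u := fun j => by rw [rfl0_norm]; exact D.norm_u j
  tangent := fun a b j h => by
    have h1 := (rfl0_cont.tendsto _).comp (D.tangent a b j h)
    rw [rfl0_mul_real] at h1
    refine h1.congr fun t => ?_
    simp only [Function.comp]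
    rw [rfl0_div_real, rfl0_sub, rfl0_norm]

theorem reflect (D : Drawing V) : ∃ D' : Drawing V,
    (∀ v, (D'.pt (Sum.inl v)).re = - (D.pt (Sum.inl v)).re) ∧
      ∀ G : SimpleGraph V, D.Represents G → D'.Represents G := by
  refine ⟨rflD D, fun v => rfl0_re _, fun G hG u v huv => ?_⟩
  rw [hG u v huv]
  constructor
  · rintro ⟨p, hp⟩
    exact ⟨p, ⟨hp.start, hp.finish, hp.turns, hp.simple⟩⟩
  · rintro ⟨p, hp⟩
    exact ⟨p, ⟨hp.start, hp.finish, hp.turns, hp.simple⟩⟩

/-! ### restriction -/

/-- the nodes that are kept -/
private def kept (f : V → W) {J : Type} (n : W ⊕ J) : Prop := ∃ m : V ⊕ J, Sum.map f id m = n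

private theorem kept_path (f : V → W) (S : Skel W) : ∀ (p : List S.Dart), p.IsChain S.Turn →
    (∀ d ∈ p.head?, kept f (S.tail d)) → (∀ d ∈ p.getLast?, kept f (S.head d)) →
    ∀ d ∈ p, kept f (S.tail d) ∧ kept f (S.head d) := by
  intro p
  induction p with
  | nil => intro _ _ _ d hd; simp at hd
  | cons d l ih =>
    intro hc h1 h2
    cases l with
    | nil =>
      intro e he
      rw [List.mem_singleton] at he
      subst he
      exact ⟨h1 e (by simp), h2 e (by simp)⟩
    | cons d' l =>
      rw [List.isChain_cons_cons] at hc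
      obtain ⟨⟨j, hj1, hj2, -⟩, hc'⟩ := hc
      have h3 := ih hc' (by
        intro e he
        simp only [List.head?_cons, Option.mem_def, Option.some.injEq] at he
        subst he
        rw [hj2]
        exact ⟨Sum.inr j, rfl⟩) (by
        intro e he
        apply h2
        rw [List.getLast?_cons_cons]
        exact he)
      intro e he
      rcases List.mem_cons.mp he with rfl | he
      · refine ⟨h1 e (by simp), ?_⟩
        rw [hj1]
        exact ⟨Sum.inr j, rfl⟩
      · exact h3 e he

/-- the arcs that are kept -/
private def keptA (f : V → W) (D : Drawing W) : Type := {a : D.A // ∀ b, kept f (D.ep a b)}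

private noncomputable def keptEp (f : V → W) (D : Drawing W) (a : keptA f D) (b : Bool) :
    V ⊕ D.J := Classical.choose (a.2 b)

private theorem keptEp_spec (f : V → W) (D : Drawing W) (a : keptA f D) (b : Bool) :
    Sum.map f id (keptEp f D a b) = D.ep a.1 b := Classical.choose_spec (a.2 b)

/-- the restricted drawing -/
private noncomputable def resD (f : V → W) (hf : Function.Injective f) (D : Drawing W) :
    Drawing V where
  J := D.J
  A := keptA f D
  pt := fun x => D.pt (Sum.map f id x)
  ep := keptEp f D
  dir := fun a => D.dir a.1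
  finite_J := D.finite_J
  finite_A := by
    have := D.finite_A
    exact Subtype.finite
  pt_inj := D.pt_inj.comp (Sum.map_injective.mpr ⟨hf, Function.injective_id⟩)
  vertex_im := fun v => D.vertex_im (f v)
  junction_im := fun j => D.junction_im j
  curve := fun a => D.curve a.1
  curve_cont := fun a => D.curve_cont a.1
  curve_inj := fun a => D.curve_inj a.1
  curve_par := fun a b => by rw [keptEp_spec]; exact D.curve_par a.1 b
  curve_int := fun a t h0 h1 => ⟨(D.curve_int a.1 t h0 h1).1, fun x => (D.curve_int a.1 t h0 h1).2 _⟩
  curve_disj := fun a b s t hab h =>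
    D.curve_disj a.1 b.1 s t (fun e => hab (Subtype.ext e)) h
  u := D.u
  norm_u := D.norm_u
  tangent := fun a b j h => by
    have h1 := keptEp_spec f D a b
    rw [h] at h1
    exact D.tangent a.1 b j h1.symm

theorem drawing_comap (f : V → W) (hf : Function.Injective f) (D : Drawing W) :
    ∃ D' : Drawing V, (∀ v, D'.pt (Sum.inl v) = D.pt (Sum.inl (f v))) ∧
      ∀ H : SimpleGraph W, D.Represents H → D'.Represents (H.comap f) := by
  refine ⟨resD f hf D, fun v => rfl, fun H hH u v huv => ?_⟩
  have hinj : Function.Injective (Sum.map f (id : D.J → D.J)) :=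
    Sum.map_injective.mpr ⟨hf, Function.injective_id⟩
  set S := (resD f hf D).toSkel with hS
  set φ : S.Dart → D.toSkel.Dart := fun d => (d.1.1, d.2) with hφ
  have htail : ∀ d : S.Dart, D.toSkel.tail (φ d) = Sum.map f id (S.tail d) := fun d =>
    (keptEp_spec f D d.1 d.2).symm
  have hhead : ∀ d : S.Dart, D.toSkel.head (φ d) = Sum.map f id (S.head d) := fun d =>
    (keptEp_spec f D d.1 (!d.2)).symm
  have hturn : ∀ d d' : S.Dart, S.Turn d d' ↔ D.toSkel.Turn (φ d) (φ d') := by
    intro d d'
    unfold Skel.Turn
    constructor
    · rintro ⟨j, h1, h2, h3⟩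
      refine ⟨j, ?_, ?_, h3⟩
      · rw [hhead, h1]; rfl
      · rw [htail, h2]; rfl
    · rintro ⟨j, h1, h2, h3⟩
      refine ⟨j, ?_, ?_, h3⟩
      · rw [hhead] at h1
        exact hinj (h1.trans rfl)
      · rw [htail] at h2
        exact hinj (h2.trans rfl)
  have key : ∀ p : List S.Dart, S.IsSmoothPath u v p ↔
      D.toSkel.IsSmoothPath (f u) (f v) (p.map φ) := by
    intro p
    have e1 : (p.map φ).head?.map D.toSkel.tail =
        (p.head?.map S.tail).map (Sum.map f id) := by
      rw [List.head?_map, Option.map_map, Option.map_map]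
      congr 1
      funext d
      exact htail d
    have e2 : (p.map φ).getLast?.map D.toSkel.head =
        (p.getLast?.map S.head).map (Sum.map f id) := by
      rw [List.getLast?_map, Option.map_map, Option.map_map]
      congr 1
      funext d
      exact hhead d
    have e3 : (p.map φ).map D.toSkel.head = (p.map S.head).map (Sum.map f id) := by
      rw [List.map_map, List.map_map]
      congr 1
      funext d
      exact hhead d
    have hO : ∀ (o : Option (V ⊕ D.J)) (w : V), o.map (Sum.map f id) = some (Sum.inl (f w)) ↔
        o = some (Sum.inl w) := by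
      intro o w
      cases o with
      | none => simp
      | some y =>
        simp only [Option.map_some, Option.some.injEq]
        constructor
        · intro h
          exact hinj (h.trans rfl)
        · rintro rfl
          rfl
    constructor
    · intro hp
      refine ⟨?_, ?_, ?_, ?_⟩
      · rw [e1]
        exact (hO _ _).mpr hp.start
      · rw [e2]
        exact (hO _ _).mpr hp.finish
      · rw [List.isChain_map]
        exact hp.turns.imp fun a b h => (hturn a b).mp h
      · rw [e3]
        exact hp.simple.map hinj
    · intro hp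
      refine ⟨?_, ?_, ?_, ?_⟩
      · have h1 := hp.start
        rw [e1] at h1
        exact (hO _ _).mp h1
      · have h1 := hp.finish
        rw [e2] at h1
        exact (hO _ _).mp h1
      · have h1 := hp.turns
        rw [List.isChain_map] at h1
        exact h1.imp fun a b h => (hturn a b).mpr h
      · have h1 := hp.simple
        rw [e3] at h1
        exact h1.of_map _
  rw [SimpleGraph.comap_adj, hH (f u) (f v) (fun e => huv (hf e))]
  constructor
  · rintro ⟨p, hp⟩
    have hgood := kept_path f D.toSkel p hp.turns (by
      intro d hd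
      have h1 := hp.start
      rw [Option.mem_def] at hd
      rw [hd] at h1
      simp only [Option.map_some, Option.some.injEq] at h1
      rw [h1]
      exact ⟨Sum.inl u, rfl⟩) (by
      intro d hd
      have h1 := hp.finish
      rw [Option.mem_def] at hd
      rw [hd] at h1
      simp only [Option.map_some, Option.some.injEq] at h1
      rw [h1]
      exact ⟨Sum.inl v, rfl⟩)
    have hrange : p ∈ Set.range (List.map φ) := by
      rw [Set.range_list_map]
      intro d hd
      obtain ⟨h1, h2⟩ := hgood d hd
      refine ⟨(⟨d.1, fun b => ?_⟩, d.2), rfl⟩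
      obtain ⟨a, c⟩ := d
      cases b <;> cases c
      · exact h1
      · exact h2
      · exact h2
      · exact h1
    obtain ⟨p', rfl⟩ := hrange
    exact ⟨p', (key p').mpr hp⟩
  · rintro ⟨p, hp⟩
    exact ⟨p.map φ, (key p).mp hp⟩

end Pool.Agent.Confl
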