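import Pool.Agent.Confl.Main
import Pool.Agent.Confl.EarOrder
import Pool.Agent.Confl.CycOrder
import Pool.Agent.Confl.Reflect
import Pool.Agent.Confl.Ears
import Pool.Agent.Confl.EarPoly

/-! # The prescribed order problem reduces to recognition: assembly -/

set_option autoImplicit false

open Filter Topology Set Turing Computability

namespace Pool.Agent.Confl

variable {V W : Type}

/-! ## assembly -/

theorem comap_five {n : ℕ} (G : SimpleGraph (Fin n)) : (earGraph G).comap five = G := by
  ext i j
  simp only [SimpleGraph.comap_adj, earGraph, five]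
  constructor
  · rintro ⟨hne, h | h | ⟨i', j', hi, hj, h⟩⟩
    · exfalso
      have hi := i.2; have hj := j.2
      by_cases h5 : 5 * (i : ℕ) + 1 < 5 * n
      · rw [Nat.mod_eq_of_lt h5] at h; omega
      · omega
    · exfalso
      have hi := i.2; have hj := j.2
      by_cases h5 : 5 * (j : ℕ) + 1 < 5 * n
      · rw [Nat.mod_eq_of_lt h5] at h; omega
      · omega
    · have h1 : i = i' := Fin.ext (by omega)
      have h2 : j = j' := Fin.ext (by omega)
      rw [h1, h2]; exact h
  · intro h
    refine ⟨fun he => ?_, Or.inr (Or.inr ⟨i, j, rfl, rfl, h⟩)⟩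
    have := congrArg Fin.val he
    simp only at this
    exact h.ne (Fin.ext (by omega))

theorem five_injective {n : ℕ} : Function.Injective (five : Fin n → Fin (5 * n)) := by
  intro i j h
  have := congrArg Fin.val h
  simp only [five] at this
  exact Fin.ext (by omega)

theorem ear_iff {n : ℕ} (G : SimpleGraph (Fin n)) :
    Outerconfluent (earGraph G) ↔ OuterconfluentNat G := by
  refine ⟨?_, add_ears G⟩
  rintro ⟨D, hD⟩
  have hy : Function.Injective fun v => (D.pt (Sum.inl v)).re := by
    intro u v huv
    have : D.pt (Sum.inl u) = D.pt (Sum.inl v) :=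
      Complex.ext huv (by rw [D.vertex_im, D.vertex_im])
    exact Sum.inl_injective (D.pt_inj this)
  have hlc := lc_of_outerconfluentAt (earGraph G) _ hy ⟨D, hD, fun u v => Iff.rfl⟩
  have halt := ear_alt G _ hy hlc
  rcases alt_cyc _ hy halt with hc | hc
  · obtain ⟨D', hp, hr⟩ := drawing_comap five five_injective D
    refine ⟨D', by simpa only [comap_five] using hr _ hD, ?_⟩
    simpa only [hp] using cyc_five hc
  · obtain ⟨E, hEp, hEr⟩ := reflect D
    obtain ⟨D', hp, hr⟩ := drawing_comap five five_injective E
    refine ⟨D', by simpa only [comap_five] using hr _ (hEr _ hD), ?_⟩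
    simpa only [hp, hEp] using cyc_five hc

theorem ear_main : ∃ f : GInst → GInst, Nonempty (TM2ComputableInPolyTime enc enc f) ∧
    ∀ I, OuterconfluentNat I.2 ↔ Outerconfluent (f I).2 :=
  ⟨earInst, ear_polyTime, fun I => (ear_iff I.2).symm⟩

end Pool.Agent.Confl
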