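import Pool.Agent.Confl.Parab

/-!
# Generic positions
-/

set_option autoImplicit false

open Set

namespace Pool.Agent.Confl

private theorem gen_core {n : ℕ} {y : Fin n → ℝ} (hy : Function.Injective y) {N : ℝ}
    (hF : ∀ a b c d e : Fin n,
      X y a b c d - q y a b (X y a b c d) / (X y a b c d - y e) < N)
    {a b c d e : Fin n} {t : ℝ} (h1 : y a < t) (h2 : t < y b) (h3 : y c < t) (h4 : t < y d)
    (h5 : y e < t) (hne : (a, b) ≠ (c, d)) (h : q y a b t = q y c d t)
    (h' : (t - y e) * (t - N) = q y a b t) : False := by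
  have ht : t = X y a b c d := by
    rcases cross_of_q_eq hy h1 h2 h3 h4 h with ⟨h6, h7⟩ | ⟨_, _, _, h6⟩ | ⟨_, _, _, h6⟩
    · exact absurd (by rw [h6, h7]) hne
    · exact h6
    · rw [h6, X_comm]
  have h8 := hF a b c d e
  rw [← ht, ← h', mul_div_cancel_left₀ _ (sub_pos.2 h5).ne'] at h8
  linarith

private theorem gen_two {n : ℕ} {y : Fin n → ℝ} (hy : Function.Injective y) {N t : ℝ}
    (h2 : t < N) {a c : Fin n} (h : (t - y a) * (t - N) = (t - y c) * (t - N)) : a = c := by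
  have h3 : t - N ≠ 0 := (sub_neg.2 h2).ne
  have h4 := mul_right_cancel₀ h3 h
  exact hy (by linarith)

private theorem gen_fin (n : ℕ) : ∃ y : Fin n → ℝ, StrictMono y ∧ Generic y := by
  induction n with
  | zero => exact ⟨fun i => i.elim0, fun i => i.elim0, fun a => a.elim0⟩
  | succ n ih =>
    obtain ⟨y, hm, hg⟩ := ih
    have hy := hm.injective
    obtain ⟨N, hN1, hF⟩ : ∃ N : ℝ, (∀ i, y i < N) ∧ ∀ a b c d e : Fin n,
        X y a b c d - q y a b (X y a b c d) / (X y a b c d - y e) < N := by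
      obtain ⟨M1, hM1⟩ := (Set.finite_range y).bddAbove
      obtain ⟨M2, hM2⟩ := (Set.finite_range (fun p : Fin n × Fin n × Fin n × Fin n × Fin n =>
        X y p.1 p.2.1 p.2.2.1 p.2.2.2.1 -
          q y p.1 p.2.1 (X y p.1 p.2.1 p.2.2.1 p.2.2.2.1) /
            (X y p.1 p.2.1 p.2.2.1 p.2.2.2.1 - y p.2.2.2.2))).bddAbove
      refine ⟨max M1 M2 + 1, fun i => ?_, fun a b c d e => ?_⟩
      · have := hM1 ⟨i, rfl⟩
        exact lt_of_le_of_lt (this.trans (le_max_left _ _)) (lt_add_one _)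
      · have := hM2 ⟨(a, b, c, d, e), rfl⟩
        exact lt_of_le_of_lt (this.trans (le_max_right _ _)) (lt_add_one _)
    let z : Fin (n + 1) → ℝ := Fin.snoc y N
    have zc : ∀ i : Fin n, z i.castSucc = y i := fun i => by
      simp [z]
    have zl : z (Fin.last n) = N := by simp [z]
    have hzm : StrictMono z := by
      intro i j hij
      obtain ⟨i', rfl⟩ : ∃ i' : Fin n, i = i'.castSucc :=
        (Fin.eq_castSucc_or_eq_last i).resolve_right (fun h => by
          rw [h] at hij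
          exact absurd (Fin.le_last j) (not_le.2 hij))
      rcases Fin.eq_castSucc_or_eq_last j with ⟨j', rfl⟩ | rfl
      · rw [zc, zc]
        exact hm (Fin.castSucc_lt_castSucc_iff.1 hij)
      · rw [zc, zl]
        exact hN1 i'
    refine ⟨z, hzm, ?_⟩
    have old : ∀ (i j : Fin (n + 1)) (t : ℝ), z i < t → t < z j →
        ∃ i' : Fin n, i = i'.castSucc := by
      intro i j t h1 h2
      refine (Fin.eq_castSucc_or_eq_last i).resolve_right (fun h => ?_)
      have h3 : z j ≤ z i := hzm.monotone (by rw [h]; exact Fin.le_last j)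
      linarith
    intro a b c d e f t h1 h2 h3 h4 h5 h6 n1 n2 n3 hq hq'
    obtain ⟨a, rfl⟩ := old a b t h1 h2
    obtain ⟨c, rfl⟩ := old c d t h3 h4
    obtain ⟨e, rfl⟩ := old e f t h5 h6
    unfold q at hq hq'
    rw [zc] at h1 h3 h5
    rw [zc, zc] at hq
    rw [zc, zc] at hq'
    rcases Fin.eq_castSucc_or_eq_last b with ⟨b, rfl⟩ | rfl <;>
    rcases Fin.eq_castSucc_or_eq_last d with ⟨d, rfl⟩ | rfl <;>
    rcases Fin.eq_castSucc_or_eq_last f with ⟨f, rfl⟩ | rfl
    · rw [zc] at h2 h4 h6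
      rw [zc, zc] at hq hq'
      refine hg a b c d e f t h1 h2 h3 h4 h5 h6 (fun h => n1 ?_) (fun h => n2 ?_)
        (fun h => n3 ?_) hq hq'
      · rw [Prod.mk.injEq] at h ⊢
        exact ⟨by rw [h.1], by rw [h.2]⟩
      · rw [Prod.mk.injEq] at h ⊢
        exact ⟨by rw [h.1], by rw [h.2]⟩
      · rw [Prod.mk.injEq] at h ⊢
        exact ⟨by rw [h.1], by rw [h.2]⟩
    · rw [zc] at h2 h4
      rw [zl] at h6
      rw [zc, zc] at hq
      rw [zc, zl] at hq'
      refine gen_core hy hF h1 h2 h3 h4 h5 (fun h => n1 ?_) hq hq'.symm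
      rw [Prod.mk.injEq] at h ⊢
      exact ⟨by rw [h.1], by rw [h.2]⟩
    · rw [zc] at h2 h6
      rw [zl] at h4
      rw [zc, zl] at hq
      rw [zc, zc] at hq'
      refine gen_core hy hF h1 h2 h5 h6 h3 (fun h => n2 ?_) hq' hq.symm
      rw [Prod.mk.injEq] at h ⊢
      exact ⟨by rw [h.1], by rw [h.2]⟩
    · rw [zl] at h4
      rw [zc, zl] at hq hq'
      exact n3 (by rw [gen_two hy h4 (hq.symm.trans hq')])
    · rw [zc] at h4 h6
      rw [zl] at h2
      rw [zl, zc] at hq hq'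
      refine gen_core hy hF h3 h4 h5 h6 h1 (fun h => n3 ?_) (hq.symm.trans hq') hq
      rw [Prod.mk.injEq] at h ⊢
      exact ⟨by rw [h.1], by rw [h.2]⟩
    · rw [zl] at h2
      rw [zl] at hq'
      exact n2 (by rw [gen_two hy h2 hq'])
    · rw [zl] at h2
      rw [zl] at hq
      exact n1 (by rw [gen_two hy h2 hq])
    · rw [zl] at h2
      rw [zl] at hq
      exact n1 (by rw [gen_two hy h2 hq])

theorem exists_generic {V : Type} [Finite V] (x : V → ℝ) (hx : Function.Injective x) :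
    ∃ y : V → ℝ, (∀ u v, x u < x v ↔ y u < y v) ∧ Generic y := by
  classical
  let _ : LinearOrder V := LinearOrder.lift' x hx
  have : Fintype V := Fintype.ofFinite V
  obtain ⟨Y, hm, hg⟩ := gen_fin (Fintype.card V)
  let e : Fin (Fintype.card V) ≃o V := monoEquivOfFin V rfl
  refine ⟨fun v => Y (e.symm v), fun u v => ?_, ?_⟩
  · rw [hm.lt_iff_lt, e.symm.lt_iff_lt]
    exact Iff.rfl
  · intro a b c d e' f t h1 h2 h3 h4 h5 h6 n1 n2 n3
    refine hg (e.symm a) (e.symm b) (e.symm c) (e.symm d) (e.symm e') (e.symm f) t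
      h1 h2 h3 h4 h5 h6 (fun h => n1 ?_) (fun h => n2 ?_) (fun h => n3 ?_)
    · rw [Prod.mk.injEq] at h ⊢
      exact ⟨e.symm.injective h.1, e.symm.injective h.2⟩
    · rw [Prod.mk.injEq] at h ⊢
      exact ⟨e.symm.injective h.1, e.symm.injective h.2⟩
    · rw [Prod.mk.injEq] at h ⊢
      exact ⟨e.symm.injective h.1, e.symm.injective h.2⟩

end Pool.Agent.Confl
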