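import Pool.Agent.Confl.Parab

/-!
# The chord drawing: points and curves
-/

set_option autoImplicit false

open Filter Topology Set

namespace Pool.Agent.Confl

variable {V : Type}

/-- the abscissa of a point of an arc -/
noncomputable def geoAbs {G : SimpleGraph V} {x : V → ℝ} (a : Arc G x) (t : unitInterval) : ℝ :=
  cx G x a.l + t * (cx G x a.r - cx G x a.l)

theorem geo_re {G : SimpleGraph V} {x : V → ℝ} (a : Arc G x) (t : unitInterval) :
    (ccurve a t).re = geoAbs a t := rfl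

theorem geo_im {G : SimpleGraph V} {x : V → ℝ} (a : Arc G x) (t : unitInterval) :
    (ccurve a t).im = q x a.e.1.1 a.e.1.2 (geoAbs a t) := rfl

theorem geo_left {G : SimpleGraph V} {x : V → ℝ} (a : Arc G x) (t : unitInterval) :
    cx G x a.l ≤ geoAbs a t := by
  have h := mul_nonneg t.2.1 (sub_nonneg.2 a.lt.le)
  unfold geoAbs
  linarith

theorem geo_right {G : SimpleGraph V} {x : V → ℝ} (a : Arc G x) (t : unitInterval) :
    geoAbs a t ≤ cx G x a.r := by
  have h := mul_nonneg (sub_nonneg.2 t.2.2) (sub_nonneg.2 a.lt.le)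
  unfold geoAbs
  linarith

theorem geo_eq_left {G : SimpleGraph V} {x : V → ℝ} (a : Arc G x) (t : unitInterval)
    (h : geoAbs a t ≤ cx G x a.l) : t = 0 := by
  have h1 : (t : ℝ) * (cx G x a.r - cx G x a.l) ≤ 0 := by
    unfold geoAbs at h
    linarith
  have h2 : 0 < cx G x a.r - cx G x a.l := sub_pos.2 a.lt
  have h3 : (t : ℝ) ≤ 0 := by
    by_contra hc
    push Not at hc
    exact absurd h1 (not_le.2 (mul_pos hc h2))
  exact Subtype.ext (le_antisymm h3 t.2.1)

theorem geo_eq_right {G : SimpleGraph V} {x : V → ℝ} (a : Arc G x) (t : unitInterval)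
    (h : cx G x a.r ≤ geoAbs a t) : t = 1 := by
  have h1 : (1 - (t : ℝ)) * (cx G x a.r - cx G x a.l) ≤ 0 := by
    unfold geoAbs at h
    linarith
  have h2 : 0 < cx G x a.r - cx G x a.l := sub_pos.2 a.lt
  have h3 : (1 - (t : ℝ)) ≤ 0 := by
    by_contra hc
    push Not at hc
    exact absurd h1 (not_le.2 (mul_pos hc h2))
  exact Subtype.ext (le_antisymm t.2.2 (sub_nonpos.1 h3))

/-- a point of the arc which is no interior point of the interval is an end point -/
theorem geo_end {G : SimpleGraph V} {x : V → ℝ} (a : Arc G x) (t : unitInterval)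
    (h : ¬ (cx G x a.l < geoAbs a t ∧ geoAbs a t < cx G x a.r)) : t = 0 ∨ t = 1 := by
  by_cases h1 : cx G x a.l < geoAbs a t
  · exact Or.inr (geo_eq_right a t (not_lt.1 fun h2 => h ⟨h1, h2⟩))
  · exact Or.inl (geo_eq_left a t (not_lt.1 h1))

theorem geo_three {G : SimpleGraph V} {x : V → ℝ} (hg : Generic x) (e f g : Edge G x) (t : ℝ)
    (h1 : x e.1.1 < t) (h2 : t < x e.1.2) (h3 : x f.1.1 < t) (h4 : t < x f.1.2)
    (h5 : x g.1.1 < t) (h6 : t < x g.1.2) (h : q x e.1.1 e.1.2 t = q x f.1.1 f.1.2 t)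
    (h' : q x e.1.1 e.1.2 t = q x g.1.1 g.1.2 t) : e = f ∨ e = g ∨ f = g := by
  by_contra hc
  push Not at hc
  obtain ⟨c1, c2, c3⟩ := hc
  exact hg e.1.1 e.1.2 f.1.1 f.1.2 g.1.1 g.1.2 t h1 h2 h3 h4 h5 h6
    (fun hh => c1 (Subtype.ext hh)) (fun hh => c2 (Subtype.ext hh))
    (fun hh => c3 (Subtype.ext hh)) h h'

theorem geo_cro_ne {G : SimpleGraph V} {x : V → ℝ} (c : Cro G x) : c.1.1 ≠ c.1.2 := by
  intro h
  have h1 := c.2.1
  rw [h] at h1
  exact lt_irrefl _ h1

/-- a crossing is an interior point of its edges -/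
theorem geo_on_cro {G : SimpleGraph V} {x : V → ℝ} (e : Edge G x) (c : Cro G x)
    (h : On e (Sum.inr c)) : x e.1.1 < cx G x (Sum.inr c) ∧ cx G x (Sum.inr c) < x e.1.2 ∧
      (cpt G x (Sum.inr c)).im = q x e.1.1 e.1.2 (cx G x (Sum.inr c)) := by
  obtain ⟨h1, h2, h3, h4, h5⟩ := cx_on e _ h
  refine ⟨lt_of_le_of_ne h2 ?_, lt_of_le_of_ne h3 ?_, ?_⟩
  · intro hh
    exact absurd (h4 hh.symm) (by simp)
  · intro hh
    exact absurd (h5 hh) (by simp)
  · rw [h1]

theorem geo_cro_fst {G : SimpleGraph V} {x : V → ℝ} (c : Cro G x) : On c.1.1 (Sum.inr c) :=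
  Or.inl rfl

theorem geo_cro_snd {G : SimpleGraph V} {x : V → ℝ} (c : Cro G x) : On c.1.2 (Sum.inr c) :=
  Or.inr rfl

/-- an edge through a crossing is one of the two edges of the crossing -/
theorem geo_through {G : SimpleGraph V} {x : V → ℝ} (hg : Generic x) (e : Edge G x) (c : Cro G x)
    (h1 : x e.1.1 < cx G x (Sum.inr c)) (h2 : cx G x (Sum.inr c) < x e.1.2)
    (h3 : (cpt G x (Sum.inr c)).im = q x e.1.1 e.1.2 (cx G x (Sum.inr c))) :
    On e (Sum.inr c) := by
  obtain ⟨a1, a2, a3⟩ := geo_on_cro c.1.1 c (geo_cro_fst c)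
  obtain ⟨b1, b2, b3⟩ := geo_on_cro c.1.2 c (geo_cro_snd c)
  rcases geo_three hg e c.1.1 c.1.2 _ h1 h2 a1 a2 b1 b2 (h3.symm.trans a3) (h3.symm.trans b3)
    with h | h | h
  · exact Or.inl h.symm
  · exact Or.inr h.symm
  · exact absurd h (geo_cro_ne c)

theorem cpt_inj {G : SimpleGraph V} {x : V → ℝ} (hx : Function.Injective x) (hg : Generic x) :
    Function.Injective (cpt G x) := by
  have key : ∀ (v : V) (c : Cro G x), cpt G x (Sum.inl v) ≠ cpt G x (Sum.inr c) := by
    intro v c h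
    obtain ⟨a1, a2, a3⟩ := geo_on_cro c.1.1 c (geo_cro_fst c)
    have h1 := congrArg Complex.im h
    rw [a3] at h1
    have h2 : (cpt G x (Sum.inl v)).im = 0 := by simp [cpt]
    rw [h2] at h1
    exact absurd h1 (q_neg a1 a2).ne'
  rintro (u | c) (v | d) h
  · have h1 := congrArg Complex.re h
    simp only [cpt, Complex.ofReal_re] at h1
    rw [hx h1]
  · exact absurd h (key u d)
  · exact absurd h.symm (key v c)
  · have h1 : cx G x (Sum.inr c) = cx G x (Sum.inr d) := congrArg Complex.re h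
    have h2 := congrArg Complex.im h
    obtain ⟨a1, a2, a3⟩ := geo_on_cro c.1.1 c (geo_cro_fst c)
    obtain ⟨b1, b2, b3⟩ := geo_on_cro c.1.2 c (geo_cro_snd c)
    rw [h1] at a1 a2 a3 b1 b2 b3
    rw [h2] at a3 b3
    have ha := geo_through hg c.1.1 d a1 a2 a3
    have hb := geo_through hg c.1.2 d b1 b2 b3
    rcases ha with ha | ha <;> rcases hb with hb | hb
    · exact absurd (ha.symm.trans hb) (geo_cro_ne c)
    · congr 1
      apply Subtype.ext
      exact Prod.ext ha.symm hb.symm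
    · have h3 := c.2.1
      have h4 := d.2.1
      rw [ha, hb] at h4
      exact absurd h3 (lt_asymm h4)
    · exact absurd (ha.symm.trans hb) (geo_cro_ne c)

theorem finite_cro [Finite V] (G : SimpleGraph V) (x : V → ℝ) : Finite (Cro G x) :=
  inferInstance

theorem finite_arc [Finite V] (G : SimpleGraph V) (x : V → ℝ) : Finite (Arc G x) := by
  have : Finite (Cro G x) := finite_cro G x
  apply Finite.of_injective
    (fun a : Arc G x => ((a.e, a.l, a.r) : Edge G x × (V ⊕ Cro G x) × (V ⊕ Cro G x)))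
  rintro ⟨e, l, r, _, _, _, _⟩ ⟨e', l', r', _, _, _, _⟩ h
  simp only [Prod.mk.injEq] at h
  obtain ⟨rfl, rfl, rfl⟩ := h
  rfl

theorem ccurve_cont {G : SimpleGraph V} {x : V → ℝ} (a : Arc G x) : Continuous (ccurve a) := by
  have h : ccurve a = fun t => Complex.equivRealProdCLM.symm
      (geoAbs a t, q x a.e.1.1 a.e.1.2 (geoAbs a t)) := by
    funext t
    rfl
  rw [h]
  have h1 : Continuous (geoAbs a) := by
    unfold geoAbs
    fun_prop
  have h2 : Continuous (fun t => q x a.e.1.1 a.e.1.2 (geoAbs a t)) := by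
    unfold q
    fun_prop
  exact Complex.equivRealProdCLM.symm.continuous.comp (h1.prodMk h2)

theorem ccurve_inj {G : SimpleGraph V} {x : V → ℝ} (a : Arc G x) :
    Function.Injective (ccurve a) := by
  intro s t h
  have h1 := congrArg Complex.re h
  rw [geo_re, geo_re] at h1
  unfold geoAbs at h1
  have h2 : 0 < cx G x a.r - cx G x a.l := sub_pos.2 a.lt
  have h3 : (s : ℝ) * (cx G x a.r - cx G x a.l) = t * (cx G x a.r - cx G x a.l) := by linarith
  exact Subtype.ext (mul_right_cancel₀ h2.ne' h3)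

theorem ccurve_par {G : SimpleGraph V} {x : V → ℝ} (a : Arc G x) (b : Bool) :
    ccurve a (par b) = cpt G x (if b then a.r else a.l) := by
  cases b
  · have h := (cx_on a.e a.l a.on_l).1
    simp only [Bool.false_eq_true, if_false]
    rw [h]
    have h1 : geoAbs a (par false) = cx G x a.l := by
      simp [geoAbs, par]
    apply Complex.ext
    · rw [geo_re, h1]
    · rw [geo_im, h1]
  · have h := (cx_on a.e a.r a.on_r).1
    simp only [if_true]
    rw [h]
    have h1 : geoAbs a (par true) = cx G x a.r := by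
      simp [geoAbs, par]
    apply Complex.ext
    · rw [geo_re, h1]
    · rw [geo_im, h1]

theorem ccurve_int {G : SimpleGraph V} {x : V → ℝ} (hx : Function.Injective x) (hg : Generic x)
    (a : Arc G x) (t : unitInterval) (h0 : t ≠ 0) (h1 : t ≠ 1) :
    (ccurve a t).im < 0 ∧ ∀ n, ccurve a t ≠ cpt G x n := by
  have hl : cx G x a.l < geoAbs a t := not_le.1 fun h => h0 (geo_eq_left a t h)
  have hr : geoAbs a t < cx G x a.r := not_le.1 fun h => h1 (geo_eq_right a t h)
  have hl' : x a.e.1.1 < geoAbs a t := lt_of_le_of_lt (cx_on a.e a.l a.on_l).2.1 hl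
  have hr' : geoAbs a t < x a.e.1.2 := lt_of_lt_of_le hr (cx_on a.e a.r a.on_r).2.2.1
  have him : (ccurve a t).im < 0 := by
    rw [geo_im]
    exact q_neg hl' hr'
  refine ⟨him, ?_⟩
  rintro (v | c) h
  · rw [h] at him
    simp [cpt] at him
  · have h2 : geoAbs a t = cx G x (Sum.inr c) := congrArg Complex.re h
    have h3 := congrArg Complex.im h
    rw [geo_im] at h3
    rw [h2] at h3 hl hr hl' hr'
    exact a.cons _ (geo_through hg a.e c hl' hr' h3.symm) ⟨hl, hr⟩

/-- two arcs on the same edge -/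
theorem geo_same {G : SimpleGraph V} {x : V → ℝ} (hx : Function.Injective x)
    (hg : Generic x) (a b : Arc G x) (s t : unitInterval) (hab : a ≠ b) (he : a.e = b.e)
    (h : geoAbs a s = geoAbs b t) : s = 0 ∨ s = 1 := by
  apply geo_end
  rintro ⟨h1, h2⟩
  have e1 : cx G x b.l ≤ cx G x a.l := by
    have hc := a.cons b.l (he ▸ b.on_l)
    by_contra hcon
    exact hc ⟨not_le.1 hcon, lt_of_le_of_lt (h ▸ geo_left b t) h2⟩
  have e2 : cx G x a.r ≤ cx G x b.r := by
    have hc := a.cons b.r (he ▸ b.on_r)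
    by_contra hcon
    exact hc ⟨lt_of_lt_of_le h1 (h ▸ geo_right b t), not_le.1 hcon⟩
  have e3 : cx G x a.l ≤ cx G x b.l := by
    have hc := b.cons a.l (he ▸ a.on_l)
    by_contra hcon
    exact hc ⟨not_le.1 hcon, lt_of_lt_of_le h1 (h ▸ geo_right b t)⟩
  have e4 : cx G x b.r ≤ cx G x a.r := by
    have hc := b.cons a.r (he ▸ a.on_r)
    by_contra hcon
    exact hc ⟨lt_of_le_of_lt (h ▸ geo_left b t) h2, not_le.1 hcon⟩
  have l1 : cx G x a.l = cx G x b.l := le_antisymm e3 e1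
  have r1 : cx G x a.r = cx G x b.r := le_antisymm e2 e4
  have l2 : a.l = b.l := by
    apply cpt_inj hx hg
    rw [(cx_on a.e a.l a.on_l).1, (cx_on b.e b.l b.on_l).1, l1, he]
  have r2 : a.r = b.r := by
    apply cpt_inj hx hg
    rw [(cx_on a.e a.r a.on_r).1, (cx_on b.e b.r b.on_r).1, r1, he]
  apply hab
  obtain ⟨e, l, r, _, _, _, _⟩ := a
  obtain ⟨e', l', r', _, _, _, _⟩ := b
  simp only at he l2 r2
  subst he l2 r2
  rfl

/-- an arc meets a node of its edge only at its ends -/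
theorem geo_node {G : SimpleGraph V} {x : V → ℝ} (a : Arc G x) (s : unitInterval)
    (n : V ⊕ Cro G x) (hn : On a.e n) (h : geoAbs a s = cx G x n) : s = 0 ∨ s = 1 := by
  apply geo_end
  rw [h]
  exact a.cons n hn

theorem ccurve_disj {G : SimpleGraph V} {x : V → ℝ} (hx : Function.Injective x)
    (hg : Generic x) (a b : Arc G x) (s t : unitInterval) (hab : a ≠ b)
    (h : ccurve a s = ccurve b t) : (s = 0 ∨ s = 1) ∧ (t = 0 ∨ t = 1) := by
  have hre : geoAbs a s = geoAbs b t := congrArg Complex.re h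
  by_cases he : a.e = b.e
  · exact ⟨geo_same hx hg a b s t hab he hre,
      geo_same hx hg b a t s (Ne.symm hab) he.symm hre.symm⟩
  have him : q x a.e.1.1 a.e.1.2 (geoAbs a s) = q x b.e.1.1 b.e.1.2 (geoAbs b t) :=
    congrArg Complex.im h
  have al : x a.e.1.1 ≤ geoAbs a s := (cx_on a.e a.l a.on_l).2.1.trans (geo_left a s)
  have ar : geoAbs a s ≤ x a.e.1.2 := (geo_right a s).trans (cx_on a.e a.r a.on_r).2.2.1
  have bl : x b.e.1.1 ≤ geoAbs b t := (cx_on b.e b.l b.on_l).2.1.trans (geo_left b t)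
  have br : geoAbs b t ≤ x b.e.1.2 := (geo_right b t).trans (cx_on b.e b.r b.on_r).2.2.1
  have hzero : ∀ (c : Arc G x) (r : unitInterval), q x c.e.1.1 c.e.1.2 (geoAbs c r) = 0 →
      r = 0 ∨ r = 1 := by
    intro c r hq
    rcases mul_eq_zero.1 hq with h1 | h1
    · exact geo_node c r (Sum.inl c.e.1.1) (Or.inl rfl) (sub_eq_zero.1 h1)
    · exact geo_node c r (Sum.inl c.e.1.2) (Or.inr rfl) (sub_eq_zero.1 h1)
  by_cases ha0 : q x a.e.1.1 a.e.1.2 (geoAbs a s) = 0
  · exact ⟨hzero a s ha0, hzero b t (him ▸ ha0)⟩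
  have hb0 : q x b.e.1.1 b.e.1.2 (geoAbs b t) ≠ 0 := him ▸ ha0
  have hne : ∀ (c : Arc G x) (r : unitInterval), q x c.e.1.1 c.e.1.2 (geoAbs c r) ≠ 0 →
      x c.e.1.1 ≠ geoAbs c r ∧ geoAbs c r ≠ x c.e.1.2 := by
    intro c r hq
    constructor
    · intro h1
      apply hq
      rw [← h1, q, sub_self, zero_mul]
    · intro h1
      apply hq
      rw [h1, q, sub_self, mul_zero]
  have al' := lt_of_le_of_ne al (hne a s ha0).1
  have ar' := lt_of_le_of_ne ar (hne a s ha0).2
  have bl' := lt_of_le_of_ne bl (hne b t hb0).1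
  have br' := lt_of_le_of_ne br (hne b t hb0).2
  rw [← hre] at bl' br' him
  rcases cross_of_q_eq hx al' ar' bl' br' him with ⟨h1, h2⟩ | ⟨h1, h2, h3, h4⟩ | ⟨h1, h2, h3, h4⟩
  · exact absurd (Subtype.ext (Prod.ext h1 h2)) he
  · have hc : ∃ c : Cro G x, c.1.1 = a.e ∧ c.1.2 = b.e ∧ geoAbs a s = cx G x (Sum.inr c) :=
      ⟨⟨(a.e, b.e), h1, h2, h3⟩, rfl, rfl, h4⟩
    obtain ⟨c, c1, c2, c3⟩ := hc
    exact ⟨geo_node a s (Sum.inr c) (Or.inl c1) c3, geo_node b t (Sum.inr c) (Or.inr c2) (hre ▸ c3)⟩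
  · have hc : ∃ c : Cro G x, c.1.1 = b.e ∧ c.1.2 = a.e ∧ geoAbs a s = cx G x (Sum.inr c) :=
      ⟨⟨(b.e, a.e), h1, h2, h3⟩, rfl, rfl, h4⟩
    obtain ⟨c, c1, c2, c3⟩ := hc
    exact ⟨geo_node a s (Sum.inr c) (Or.inr c2) c3, geo_node b t (Sum.inr c) (Or.inl c1) (hre ▸ c3)⟩

end Pool.Agent.Confl
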