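import Mathlib
import Pool.Agent.Expand.PM

/-!
# The crossing lemma in the half-plane

Two paths in the closed lower half-plane which join interlacing pairs of real points meet.  The
functions `z ↦ |z - a| / (|z - a| + |z - c|)` and `z ↦ |z - b| / (|z - b| + |z - d|)` embed the
half-plane in the unit square; the theorem of Poincaré and Miranda gives the common point.
-/

set_option autoImplicit false

open Filter Topology Set

namespace Pool.Agent.Confl

/-- The theorem of Poincaré and Miranda for two functions with weak inequalities. -/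
private theorem halfPlane_pm (F1 F2 : ℝ → ℝ → ℝ) (hF1 : Continuous fun p : ℝ × ℝ => F1 p.1 p.2)
    (hF2 : Continuous fun p : ℝ × ℝ => F2 p.1 p.2) (h1 : ∀ t, F1 0 t ≤ 0) (h2 : ∀ t, 0 ≤ F1 1 t)
    (h3 : ∀ s, F2 s 0 ≤ 0) (h4 : ∀ s, 0 ≤ F2 s 1) : ∃ s t, F1 s t = 0 ∧ F2 s t = 0 := by
  by_contra hno
  push Not at hno
  have hc : IsCompact (Icc (0 : ℝ) 1 ×ˢ Icc (0 : ℝ) 1) := isCompact_Icc.prod isCompact_Icc
  obtain ⟨p0, -, hp0⟩ := hc.exists_isMinOn
    ⟨((0 : ℝ), (0 : ℝ)), ⟨⟨le_rfl, zero_le_one⟩, ⟨le_rfl, zero_le_one⟩⟩⟩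
    (f := fun p : ℝ × ℝ => |F1 p.1 p.2| + |F2 p.1 p.2|)
    (by fun_prop : Continuous fun p : ℝ × ℝ => |F1 p.1 p.2| + |F2 p.1 p.2|).continuousOn
  set δ := |F1 p0.1 p0.2| + |F2 p0.1 p0.2| with hδ
  have hδ0 : 0 < δ := by
    by_cases h : F1 p0.1 p0.2 = 0
    · have := abs_pos.2 (hno _ _ h)
      have := abs_nonneg (F1 p0.1 p0.2)
      linarith
    · have := abs_pos.2 h
      have := abs_nonneg (F2 p0.1 p0.2)
      linarith
  have hmin : ∀ s t, 0 ≤ s → s ≤ 1 → 0 ≤ t → t ≤ 1 → δ ≤ |F1 s t| + |F2 s t| := by
    intro s t hs0 hs1 ht0 ht1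
    exact hp0 (show (s, t) ∈ Icc (0 : ℝ) 1 ×ˢ Icc (0 : ℝ) 1 from ⟨⟨hs0, hs1⟩, ⟨ht0, ht1⟩⟩)
  set a : EuclideanSpace ℝ (Fin 2) := WithLp.toLp 2 (fun _ => (1 / 2 : ℝ)) with ha
  have hai : ∀ i, a i = 1 / 2 := fun i => rfl
  set F : EuclideanSpace ℝ (Fin 2) → Fin 2 → ℝ := fun x =>
    ![F1 (x 0) (x 1) + δ / 4 * (2 * x 0 - 1), F2 (x 0) (x 1) + δ / 4 * (2 * x 1 - 1)] with hF
  have hcoord : Continuous fun x : EuclideanSpace ℝ (Fin 2) => (x 0, x 1) := by fun_prop
  have hcF : Continuous F := by
    rw [continuous_pi_iff]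
    intro i
    fin_cases i
    · change Continuous fun x : EuclideanSpace ℝ (Fin 2) =>
        F1 (x 0) (x 1) + δ / 4 * (2 * x 0 - 1)
      have e := hF1.comp hcoord
      have e' : Continuous fun x : EuclideanSpace ℝ (Fin 2) => F1 (x 0) (x 1) := e
      fun_prop
    · change Continuous fun x : EuclideanSpace ℝ (Fin 2) =>
        F2 (x 0) (x 1) + δ / 4 * (2 * x 1 - 1)
      have e := hF2.comp hcoord
      have e' : Continuous fun x : EuclideanSpace ℝ (Fin 2) => F2 (x 0) (x 1) := e
      fun_prop
  obtain ⟨x, hx, hx0⟩ := Pool.Agent.Expand.poincare_miranda a (1 / 2) (by norm_num) F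
    hcF.continuousOn (by
      intro x _ i hi
      rw [hai] at hi
      fin_cases i
      · change F1 (x 0) (x 1) + δ / 4 * (2 * x 0 - 1) < 0
        have h0 : x 0 = 0 := by
          change x 0 = 1 / 2 - 1 / 2 at hi
          linarith
        rw [h0]
        have := h1 (x 1)
        linarith
      · change F2 (x 0) (x 1) + δ / 4 * (2 * x 1 - 1) < 0
        have h0 : x 1 = 0 := by
          change x 1 = 1 / 2 - 1 / 2 at hi
          linarith
        rw [h0]
        have := h3 (x 0)
        linarith) (by
      intro x _ i hi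
      rw [hai] at hi
      fin_cases i
      · change 0 < F1 (x 0) (x 1) + δ / 4 * (2 * x 0 - 1)
        have h0 : x 0 = 1 := by
          change x 0 = 1 / 2 + 1 / 2 at hi
          linarith
        rw [h0]
        have := h2 (x 1)
        linarith
      · change 0 < F2 (x 0) (x 1) + δ / 4 * (2 * x 1 - 1)
        have h0 : x 1 = 1 := by
          change x 1 = 1 / 2 + 1 / 2 at hi
          linarith
        rw [h0]
        have := h4 (x 0)
        linarith)
  have e0 : F1 (x 0) (x 1) + δ / 4 * (2 * x 0 - 1) = 0 := congrFun hx0 0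
  have e1 : F2 (x 0) (x 1) + δ / 4 * (2 * x 1 - 1) = 0 := congrFun hx0 1
  have b0 := abs_le.1 (hx 0)
  have b1 := abs_le.1 (hx 1)
  rw [hai] at b0 b1
  have h5 := hmin (x 0) (x 1) (by linarith) (by linarith) (by linarith) (by linarith)
  have h6 : |F1 (x 0) (x 1)| ≤ δ / 4 := by
    rw [abs_le]
    constructor <;> nlinarith
  have h7 : |F2 (x 0) (x 1)| ≤ δ / 4 := by
    rw [abs_le]
    constructor <;> nlinarith
  linarith

/-- Two Apollonian circles of interlacing pairs meet in one point of the half-plane. -/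
private theorem halfPlane_inj {a b c d : ℝ} (hab : a < b) (hbc : b < c) (hcd : c < d) {z w : ℂ}
    (hz : z.im ≤ 0) (hw : w.im ≤ 0)
    (h1 : Complex.normSq (z - a) * Complex.normSq (w - c) =
      Complex.normSq (w - a) * Complex.normSq (z - c))
    (h2 : Complex.normSq (z - b) * Complex.normSq (w - d) =
      Complex.normSq (w - b) * Complex.normSq (z - d)) : z = w := by
  simp only [Complex.normSq_apply, Complex.sub_re, Complex.sub_im, Complex.ofReal_re,
    Complex.ofReal_im, sub_zero] at h1 h2
  set x := z.re with hx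
  set y := z.im with hy
  set x' := w.re with hx'
  set y' := w.im with hy'
  set n := x * x + y * y with hn
  set n' := x' * x' + y' * y' with hn'
  have e1 : 2 * a * c * (x - x') + (a + c) * (n' - n) + 2 * (n * x' - n' * x) = 0 := by
    have h : (a - c) * (2 * a * c * (x - x') + (a + c) * (n' - n) + 2 * (n * x' - n' * x)) = 0 := by
      rw [hn, hn']
      linear_combination h1
    rcases mul_eq_zero.1 h with h | h
    · exfalso; linarith
    · exact h
  have e2 : 2 * b * d * (x - x') + (b + d) * (n' - n) + 2 * (n * x' - n' * x) = 0 := by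
    have h : (b - d) * (2 * b * d * (x - x') + (b + d) * (n' - n) + 2 * (n * x' - n' * x)) = 0 := by
      rw [hn, hn']
      linear_combination h2
    rcases mul_eq_zero.1 h with h | h
    · exfalso; linarith
    · exact h
  have e3 : n * (x - x') + x * (n' - n) + (n * x' - n' * x) = 0 := by ring
  set D := n * (b + d - a - c) - 2 * x * (b * d - a * c) + (b * d * (a + c) - a * c * (b + d))
    with hD
  have hσ : 0 < b + d - a - c := by linarith
  have hDpos : 0 < D := by
    have hdisc : 0 < (b - a) * (d - a) * (c - b) * (d - c) := by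
      have h1 : 0 < b - a := by linarith
      have h2 : 0 < d - a := by linarith
      have h3 : 0 < c - b := by linarith
      have h4 : 0 < d - c := by linarith
      positivity
    have h5 : (b + d - a - c) * D = ((b + d - a - c) * x - (b * d - a * c)) ^ 2 +
        (b + d - a - c) ^ 2 * (y * y) + (b - a) * (d - a) * (c - b) * (d - c) := by
      rw [hD, hn]
      ring
    have h6 : 0 < (b + d - a - c) * D := by
      rw [h5]
      have := sq_nonneg ((b + d - a - c) * x - (b * d - a * c))
      have := mul_self_nonneg y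
      have : 0 ≤ (b + d - a - c) ^ 2 * (y * y) := by positivity
      linarith
    exact (mul_pos_iff_of_pos_left hσ).1 h6
  have hp : D * (x - x') = 0 := by
    rw [hD]
    linear_combination (b + d - 2 * x) / (-2) * e1 - (a + c - 2 * x) / (-2) * e2 + (a + c - b - d) * (-1) * e3
  have hq : D * (n' - n) = 0 := by
    rw [hD]
    linear_combination (b * d - n) * e1 - (a * c - n) * e2 + 2 * (a * c - b * d) * e3
  have hp' : x = x' := by
    rcases mul_eq_zero.1 hp with h | h
    · exact absurd h hDpos.ne'
    · linarith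
  have hq' : n' = n := by
    rcases mul_eq_zero.1 hq with h | h
    · exact absurd h hDpos.ne'
    · linarith
  have hyy : y = y' := by
    rw [hn, hn', hp'] at hq'
    have h : (y - y') * (y + y') = 0 := by linarith
    rcases mul_eq_zero.1 h with h | h
    · linarith
    · linarith
  exact Complex.ext hp' hyy

/-- The coordinate of a point with respect to two real points. -/
private noncomputable def apo (a c : ℝ) (z : ℂ) : ℝ := ‖z - a‖ / (‖z - a‖ + ‖z - c‖)

private theorem apo_den {a c : ℝ} (h : a < c) (z : ℂ) : 0 < ‖z - a‖ + ‖z - c‖ := by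
  have h1 : ‖((a : ℂ) - c)‖ ≤ ‖z - a‖ + ‖z - c‖ := by
    have := norm_sub_le (z - c) (z - a)
    have e : (z - c) - (z - a) = (a : ℂ) - c := by ring
    rw [e] at this
    linarith
  have h2 : 0 < ‖((a : ℂ) - c)‖ := by
    rw [norm_pos_iff, sub_ne_zero]
    intro h3
    exact h.ne (by exact_mod_cast h3)
  linarith

private theorem apo_cont {a c : ℝ} (h : a < c) : Continuous (apo a c) := by
  unfold apo
  refine Continuous.div (by fun_prop) (by fun_prop) fun z => (apo_den h z).ne'

private theorem apo_nonneg {a c : ℝ} (h : a < c) (z : ℂ) : 0 ≤ apo a c z :=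
  div_nonneg (norm_nonneg _) (apo_den h z).le

private theorem apo_le_one {a c : ℝ} (h : a < c) (z : ℂ) : apo a c z ≤ 1 := by
  unfold apo
  rw [div_le_one (apo_den h z)]
  have := norm_nonneg (z - c)
  linarith

private theorem apo_left (a c : ℝ) : apo a c a = 0 := by
  unfold apo
  rw [sub_self, norm_zero, zero_div]

private theorem apo_right {a c : ℝ} (h : a < c) : apo a c c = 1 := by
  unfold apo
  rw [div_eq_one_iff_eq (apo_den h c).ne', sub_self, norm_zero, add_zero]

private theorem apo_eq {a c : ℝ} (h : a < c) {z w : ℂ} (he : apo a c z = apo a c w) :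
    Complex.normSq (z - a) * Complex.normSq (w - c) =
      Complex.normSq (w - a) * Complex.normSq (z - c) := by
  unfold apo at he
  rw [div_eq_div_iff (apo_den h z).ne' (apo_den h w).ne'] at he
  have h1 : ‖z - a‖ * ‖w - c‖ = ‖w - a‖ * ‖z - c‖ := by linarith
  rw [Complex.normSq_eq_norm_sq, Complex.normSq_eq_norm_sq, Complex.normSq_eq_norm_sq,
    Complex.normSq_eq_norm_sq, ← mul_pow, ← mul_pow, h1]

/-- Two paths in the closed lower half-plane joining interlacing pairs of real points meet. -/
theorem joined_cross {a b c d : ℝ} (hab : a < b) (hbc : b < c) (hcd : c < d) {S T : Set ℂ}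
    (hS : ∀ z ∈ S, z.im ≤ 0) (hT : ∀ z ∈ T, z.im ≤ 0) (h1 : JoinedIn S (a : ℂ) (c : ℂ))
    (h2 : JoinedIn T (b : ℂ) (d : ℂ)) : (S ∩ T).Nonempty := by
  have hac : a < c := hab.trans hbc
  have hbd : b < d := hbc.trans hcd
  set g1 := h1.somePath.extend with hg1
  set g2 := h2.somePath.extend with hg2
  have hc1 : Continuous g1 := h1.somePath.continuous_extend
  have hc2 : Continuous g2 := h2.somePath.continuous_extend
  have hm1 : ∀ t, g1 t ∈ S := by
    intro t
    have : g1 t ∈ Set.range h1.somePath := by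
      rw [← Path.extend_range]
      exact ⟨t, rfl⟩
    obtain ⟨u, hu⟩ := this
    rw [← hu]
    exact h1.somePath_mem u
  have hm2 : ∀ t, g2 t ∈ T := by
    intro t
    have : g2 t ∈ Set.range h2.somePath := by
      rw [← Path.extend_range]
      exact ⟨t, rfl⟩
    obtain ⟨u, hu⟩ := this
    rw [← hu]
    exact h2.somePath_mem u
  have c1 := apo_cont hac
  have c2 := apo_cont hbd
  obtain ⟨s, t, e1, e2⟩ := halfPlane_pm (fun s t => apo a c (g1 s) - apo a c (g2 t))
    (fun s t => apo b d (g2 t) - apo b d (g1 s)) (by fun_prop) (by fun_prop)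
    (fun t => by
      have e : g1 0 = a := h1.somePath.extend_zero
      simp only [e, apo_left]
      have := apo_nonneg hac (g2 t)
      linarith)
    (fun t => by
      have e : g1 1 = c := h1.somePath.extend_one
      simp only [e, apo_right hac]
      have := apo_le_one hac (g2 t)
      linarith)
    (fun s => by
      have e : g2 0 = b := h2.somePath.extend_zero
      simp only [e, apo_left]
      have := apo_nonneg hbd (g1 s)
      linarith)
    (fun s => by
      have e : g2 1 = d := h2.somePath.extend_one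
      simp only [e, apo_right hbd]
      have := apo_le_one hbd (g1 s)
      linarith)
  have hz : g1 s = g2 t := halfPlane_inj hab hbc hcd (hS _ (hm1 s)) (hT _ (hm2 t))
    (apo_eq hac (sub_eq_zero.1 e1)) (apo_eq hbd (sub_eq_zero.1 e2).symm)
  exact ⟨g1 s, hm1 s, hz ▸ hm2 t⟩

end Pool.Agent.Confl
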