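import Mathlib
import Pool.Agent.B7219d.PTAll
import Pool.Agent.B7219d.Enc
import Pool.Agent.Confl.Alg

/-!
# `NoConflict` is decidable in polynomial time
-/

set_option autoImplicit false

namespace Pool.Agent.Confl

open Pool.Agent.PT
open Pool.Agent.B7219d (nn aj UF_nn UP_aj polyTime_closure_all)
open SimpleGraph Turing Computability

namespace Poly

/-! ### Reading the word -/

private theorem enc_lt (I : GInst) {i : ℕ} (hi : i < I.1) : (enc I)[i]? = some (some true) := by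
  classical
  unfold enc
  rw [List.getElem?_append_left (by simpa using hi)]
  simp [hi]

private theorem enc_sep (I : GInst) : (enc I)[I.1]? = some none := by
  classical
  unfold enc
  rw [List.getElem?_append_right (by simp)]
  simp

private theorem enc_mat (I : GInst) {p : ℕ} (hp : p < I.1 * I.1) :
    (enc I)[I.1 + 1 + p]? = some (some true) ↔
      I.2.Adj (Fin.divNat ⟨p, hp⟩) (Fin.modNat ⟨p, hp⟩) := by
  classical
  unfold enc
  rw [List.getElem?_append_right (by simp; omega)]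
  rw [List.length_replicate, show I.1 + 1 + p - I.1 = p + 1 by omega, List.getElem?_cons_succ]
  rw [List.getElem?_ofFn]
  simp [hp]

private theorem enc_length (I : GInst) : (enc I).length = I.1 + 1 + I.1 * I.1 := by
  classical
  simp [enc]
  omega

private theorem nn_enc (I : GInst) : nn (enc I) = I.1 := by
  classical
  unfold nn
  have h1 : ∀ i ∈ Finset.range (enc I).length, (if ∀ j, j < i + 1 → ¬ (enc I)[j]? = some none
      then 1 else 0) = if i < I.1 then 1 else 0 := by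
    intro i _
    by_cases hi : i < I.1
    · rw [if_pos hi, if_pos fun j hj => by rw [enc_lt I (by omega)]; simp]
    · rw [if_neg hi, if_neg fun h => h I.1 (by omega) (enc_sep I)]
  rw [Finset.sum_congr rfl h1, ← Finset.sum_filter]
  have : (Finset.range (enc I).length).filter (fun i => i < I.1) = Finset.range I.1 := by
    ext i
    simp only [Finset.mem_filter, Finset.mem_range, enc_length]
    omega
  rw [this]; simp

private theorem aj_enc (I : GInst) (i j : Fin I.1) : aj (enc I) i j ↔ I.2.Adj i j := by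
  unfold aj
  rw [nn_enc]
  have h1 : (i : ℕ) * I.1 + j < I.1 * I.1 := by
    calc (i : ℕ) * I.1 + j < i * I.1 + I.1 := by have := j.2; omega
      _ = (i + 1) * I.1 := by ring
      _ ≤ I.1 * I.1 := Nat.mul_le_mul_right _ i.2
  rw [enc_mat I h1]
  have e1 : (Fin.divNat ⟨(i : ℕ) * I.1 + j, h1⟩ : Fin I.1) = i := by
    ext
    simp only [Fin.coe_divNat]
    rw [Nat.add_comm, Nat.add_mul_div_right _ _ (by have := j.2; omega), Nat.div_eq_of_lt j.2]
    omega
  have e2 : (Fin.modNat ⟨(i : ℕ) * I.1 + j, h1⟩ : Fin I.1) = j := by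
    ext
    simp only [Fin.coe_modNat]
    rw [Nat.add_comm, Nat.add_mul_mod_self_right, Nat.mod_eq_of_lt j.2]
  rw [e1, e2]

/-! ### Codes -/

/-- Code of a literal node. -/
private def lc (n o a b s : ℕ) : ℕ := 2 * ((o * n + a) * n + b) + s

/-- Code of a walk node. -/
private def wc (n o p q b r s : ℕ) : ℕ :=
  2 * (n * n * n) + (2 * ((((o * n + p) * n + q) * n + b) * n + r) + s)

/-- Code of a truth value. -/
private def bc (s : Bool) : ℕ := if s then 0 else 1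

/-- Code of a node. -/
private def cd {n : ℕ} : Node (Fin n) → ℕ
  | .lit o a b s => lc n o a b (bc s)
  | .walk o p q b r s => wc n o p q b r (bc s)

private theorem dig {n a b a' b' : ℕ} (hb : b < n) (hb' : b' < n)
    (h : a * n + b = a' * n + b') : a = a' ∧ b = b' := by
  have h0 : 0 < n := by omega
  have h1 : a = a' := by
    have := congrArg (· / n) h
    simp only [Nat.add_comm (_ * n)] at this
    rwa [Nat.add_mul_div_right _ _ h0, Nat.add_mul_div_right _ _ h0, Nat.div_eq_of_lt hb,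
      Nat.div_eq_of_lt hb', Nat.zero_add, Nat.zero_add] at this
  subst h1
  exact ⟨rfl, by omega⟩

private theorem dig_lt {n m a b : ℕ} (ha : a < m) (hb : b < n) : a * n + b < m * n := by
  calc a * n + b < a * n + n := by omega
    _ = (a + 1) * n := by ring
    _ ≤ m * n := Nat.mul_le_mul_right _ ha

private theorem bc_lt (s : Bool) : bc s < 2 := by cases s <;> simp [bc]

private theorem bc_inj {s t : Bool} (h : bc s = bc t) : s = t := by
  cases s <;> cases t <;> simp_all [bc]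

private theorem bc_not (s : Bool) : bc (!s) = 1 - bc s := by cases s <;> simp [bc]

private theorem lc_lt {n : ℕ} (o a b : Fin n) (s : Bool) : lc n o a b (bc s) < 2 * (n * n * n) := by
  have h1 := dig_lt (dig_lt o.2 a.2) b.2
  have h2 := bc_lt s
  unfold lc
  omega

private theorem wc_lt {n : ℕ} (o p q b r : Fin n) (s : Bool) :
    wc n o p q b r (bc s) < 2 * (n * n * n) + 2 * (n * n * n * n * n) := by
  have h1 := dig_lt (dig_lt (dig_lt (dig_lt o.2 p.2) q.2) b.2) r.2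
  have h2 := bc_lt s
  unfold wc
  omega

private theorem cd_lt {n : ℕ} (x : Node (Fin n)) :
    cd x < 2 * (n * n * n) + 2 * (n * n * n * n * n) := by
  cases x with
  | lit o a b s => exact (lc_lt o a b s).trans_le (by omega)
  | walk o p q b r s => exact wc_lt o p q b r s

private theorem lc_inj {n : ℕ} {o a b o' a' b' : Fin n} {s s' : Bool}
    (h : lc n o a b (bc s) = lc n o' a' b' (bc s')) : o = o' ∧ a = a' ∧ b = b' ∧ s = s' := by
  unfold lc at h
  obtain ⟨h1, h2⟩ := dig (n := 2) (a := (o * n + a) * n + b) (a' := (o' * n + a') * n + b')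
    (bc_lt s) (bc_lt s') (by omega)
  obtain ⟨h3, h4⟩ := dig b.2 b'.2 h1
  obtain ⟨h5, h6⟩ := dig a.2 a'.2 h3
  exact ⟨Fin.ext h5, Fin.ext h6, Fin.ext h4, bc_inj h2⟩

private theorem wc_inj {n : ℕ} {o p q b r o' p' q' b' r' : Fin n} {s s' : Bool}
    (h : wc n o p q b r (bc s) = wc n o' p' q' b' r' (bc s')) :
    o = o' ∧ p = p' ∧ q = q' ∧ b = b' ∧ r = r' ∧ s = s' := by
  unfold wc at h
  obtain ⟨h1, h2⟩ := dig (n := 2) (a := (((o * n + p) * n + q) * n + b) * n + r)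
    (a' := (((o' * n + p') * n + q') * n + b') * n + r') (bc_lt s) (bc_lt s') (by omega)
  obtain ⟨h3, h4⟩ := dig r.2 r'.2 h1
  obtain ⟨h5, h6⟩ := dig b.2 b'.2 h3
  obtain ⟨h7, h8⟩ := dig q.2 q'.2 h5
  obtain ⟨h9, h10⟩ := dig p.2 p'.2 h7
  exact ⟨Fin.ext h9, Fin.ext h10, Fin.ext h8, Fin.ext h6, Fin.ext h4, bc_inj h2⟩

private theorem cd_inj {n : ℕ} {x y : Node (Fin n)} (h : cd x = cd y) : x = y := by
  cases x with
  | lit o a b s =>
    cases y with
    | lit o' a' b' s' =>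
      obtain ⟨h1, h2, h3, h4⟩ := lc_inj h
      rw [h1, h2, h3, h4]
    | walk o' p' q' b' r' s' =>
      exfalso
      have h1 := lc_lt o a b s
      have h2 : lc n o a b (bc s) = wc n o' p' q' b' r' (bc s') := h
      unfold wc at h2
      omega
  | walk o p q b r s =>
    cases y with
    | lit o' a' b' s' =>
      exfalso
      have h1 := lc_lt o' a' b' s'
      have h2 : wc n o p q b r (bc s) = lc n o' a' b' (bc s') := h
      unfold wc at h2
      omega
    | walk o' p' q' b' r' s' =>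
      obtain ⟨h1, h2, h3, h4, h5, h6⟩ := wc_inj h
      rw [h1, h2, h3, h4, h5, h6]

/-! ### The steps on codes -/

/-- The steps. -/
private def St (x : List (Option Bool)) (i j o p q b r r' s : ℕ) : Prop :=
  (p ≠ q ∧ i = lc (nn x) o p q s ∧ j = lc (nn x) o q p (1 - s)) ∨
  ((aj x p q ∧ b ≠ p ∧ b ≠ q ∧ p ≠ o ∧ q ≠ o) ∧ i = lc (nn x) o p b s ∧
    j = wc (nn x) o p q b b s) ∨
  ((aj x r r' ∧ r ≠ p ∧ r ≠ q ∧ r' ≠ p ∧ r' ≠ q) ∧
    ¬ ((aj x p r ∧ aj x q r') ∨ (aj x p r' ∧ aj x q r)) ∧ i = wc (nn x) o p q b r s ∧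
    j = wc (nn x) o p q b r' s) ∨
  ((aj x p q ∧ b ≠ p ∧ b ≠ q ∧ p ≠ o ∧ q ≠ o) ∧ i = wc (nn x) o p q b o s ∧
    j = lc (nn x) o q b s)

private theorem UF_lc {f g h k : List (Option Bool) → (ℕ → ℕ) → ℕ} (hf : UF f) (hg : UF g)
    (hh : UF h) (hk : UF k) :
    UF (fun x e => lc (nn x) (f x e) (g x e) (h x e) (k x e)) :=
  ((UF.const 2).mul (((((hf.mul UF_nn).add hg)).mul UF_nn).add hh)).add hk

private theorem UF_wc {f g h k l m : List (Option Bool) → (ℕ → ℕ) → ℕ} (hf : UF f) (hg : UF g)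
    (hh : UF h) (hk : UF k) (hl : UF l) (hm : UF m) :
    UF (fun x e => wc (nn x) (f x e) (g x e) (h x e) (k x e) (l x e) (m x e)) :=
  ((UF.const 2).mul ((UF_nn.mul UF_nn).mul UF_nn)).add
    (((UF.const 2).mul (((((((hf.mul UF_nn).add hg).mul UF_nn).add hh).mul UF_nn).add hk).mul
      UF_nn |>.add hl)).add hm)

private theorem UP_aj' {f g : List (Option Bool) → (ℕ → ℕ) → ℕ} (hf : UF f) (hg : UF g) :
    UP (fun x e => aj x (f x e) (g x e)) := UP.comp₂ (P := fun x i j => aj x i j) UP_aj hf hg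

private theorem UP_St {i j o p q b r r' s : List (Option Bool) → (ℕ → ℕ) → ℕ} (hi : UF i)
    (hj : UF j) (ho : UF o) (hp : UF p) (hq : UF q) (hb : UF b) (hr : UF r) (hr' : UF r')
    (hs : UF s) : UP (fun x e => St x (i x e) (j x e) (o x e) (p x e) (q x e) (b x e) (r x e)
      (r' x e) (s x e)) := by
  have hc : UP (fun x e => aj x (p x e) (q x e) ∧ b x e ≠ p x e ∧ b x e ≠ q x e ∧
      p x e ≠ o x e ∧ q x e ≠ o x e) :=
    (UP_aj' hp hq).and ((UP.ne hb hp).and ((UP.ne hb hq).and ((UP.ne hp ho).and (UP.ne hq ho))))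
  refine UP.or ((UP.ne hp hq).and ((UP.eq hi (UF_lc ho hp hq hs)).and
    (UP.eq hj (UF_lc ho hq hp ((UF.const 1).sub hs))))) (UP.or (hc.and
      ((UP.eq hi (UF_lc ho hp hb hs)).and (UP.eq hj (UF_wc ho hp hq hb hb hs)))) (UP.or ?_
        (hc.and ((UP.eq hi (UF_wc ho hp hq hb ho hs)).and (UP.eq hj (UF_lc ho hq hb hs))))))
  refine UP.and ((UP_aj' hr hr').and ((UP.ne hr hp).and ((UP.ne hr hq).and ((UP.ne hr' hp).and
    (UP.ne hr' hq))))) (UP.and (UP.not (UP.or ((UP_aj' hp hr).and (UP_aj' hq hr'))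
      ((UP_aj' hp hr').and (UP_aj' hq hr)))) ((UP.eq hi (UF_wc ho hp hq hb hr hs)).and
        (UP.eq hj (UF_wc ho hp hq hb hr' hs))))

/-- Steps in both directions. -/
private def SS (x : List (Option Bool)) (i j o p q b r r' s : ℕ) : Prop :=
  St x i j o p q b r r' s ∨ St x j i o p q b r r' s

/-- The relation on codes. -/
private def EE (x : List (Option Bool)) (i j : ℕ) : Prop :=
  ∃ o, o < nn x ∧ ∃ p, p < nn x ∧ ∃ q, q < nn x ∧ ∃ b, b < nn x ∧ ∃ r, r < nn x ∧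
    ∃ r', r' < nn x ∧ ∃ s, s < 2 ∧ SS x i j o p q b r r' s

private theorem UP_EE : UP (fun x e => EE x (e 0) (e 1)) := by
  have h0 : UP (fun x e => SS x (e 7) (e 8) (e 6) (e 5) (e 4) (e 3) (e 2) (e 1) (e 0)) :=
    UP.or (UP_St (UF.var 7) (UF.var 8) (UF.var 6) (UF.var 5) (UF.var 4) (UF.var 3) (UF.var 2)
      (UF.var 1) (UF.var 0)) (UP_St (UF.var 8) (UF.var 7) (UF.var 6) (UF.var 5) (UF.var 4)
      (UF.var 3) (UF.var 2) (UF.var 1) (UF.var 0))
  have h1 : UP (fun x e => ∃ s, s < 2 ∧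
      SS x (e 6) (e 7) (e 5) (e 4) (e 3) (e 2) (e 1) (e 0) s) :=
    UP.bex (P := fun x e s => SS x (e 6) (e 7) (e 5) (e 4) (e 3) (e 2) (e 1) (e 0) s)
      (UF.const 2) h0
  have h2 : UP (fun x e => ∃ r', r' < nn x ∧ ∃ s, s < 2 ∧
      SS x (e 5) (e 6) (e 4) (e 3) (e 2) (e 1) (e 0) r' s) :=
    UP.bex (P := fun x e r' => ∃ s, s < 2 ∧
      SS x (e 5) (e 6) (e 4) (e 3) (e 2) (e 1) (e 0) r' s) UF_nn h1
  have h3 : UP (fun x e => ∃ r, r < nn x ∧ ∃ r', r' < nn x ∧ ∃ s, s < 2 ∧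
      SS x (e 4) (e 5) (e 3) (e 2) (e 1) (e 0) r r' s) :=
    UP.bex (P := fun x e r => ∃ r', r' < nn x ∧ ∃ s, s < 2 ∧
      SS x (e 4) (e 5) (e 3) (e 2) (e 1) (e 0) r r' s) UF_nn h2
  have h4 : UP (fun x e => ∃ b, b < nn x ∧ ∃ r, r < nn x ∧ ∃ r', r' < nn x ∧ ∃ s, s < 2 ∧
      SS x (e 3) (e 4) (e 2) (e 1) (e 0) b r r' s) :=
    UP.bex (P := fun x e b => ∃ r, r < nn x ∧ ∃ r', r' < nn x ∧ ∃ s, s < 2 ∧
      SS x (e 3) (e 4) (e 2) (e 1) (e 0) b r r' s) UF_nn h3
  have h5 : UP (fun x e => ∃ q, q < nn x ∧ ∃ b, b < nn x ∧ ∃ r, r < nn x ∧ ∃ r', r' < nn x ∧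
      ∃ s, s < 2 ∧ SS x (e 2) (e 3) (e 1) (e 0) q b r r' s) :=
    UP.bex (P := fun x e q => ∃ b, b < nn x ∧ ∃ r, r < nn x ∧ ∃ r', r' < nn x ∧ ∃ s, s < 2 ∧
      SS x (e 2) (e 3) (e 1) (e 0) q b r r' s) UF_nn h4
  have h6 : UP (fun x e => ∃ p, p < nn x ∧ ∃ q, q < nn x ∧ ∃ b, b < nn x ∧ ∃ r, r < nn x ∧
      ∃ r', r' < nn x ∧ ∃ s, s < 2 ∧ SS x (e 1) (e 2) (e 0) p q b r r' s) :=
    UP.bex (P := fun x e p => ∃ q, q < nn x ∧ ∃ b, b < nn x ∧ ∃ r, r < nn x ∧ ∃ r', r' < nn x ∧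
      ∃ s, s < 2 ∧ SS x (e 1) (e 2) (e 0) p q b r r' s) UF_nn h5
  exact UP.bex (P := fun x e o => ∃ p, p < nn x ∧ ∃ q, q < nn x ∧ ∃ b, b < nn x ∧ ∃ r,
    r < nn x ∧ ∃ r', r' < nn x ∧ ∃ s, s < 2 ∧ SS x (e 0) (e 1) o p q b r r' s) UF_nn h6

/-- From codes to nodes. -/
private theorem step_of_St (I : GInst) {i j : ℕ} (o p q b r r' : Fin I.1) (s : Bool)
    (h : St (enc I) i j o p q b r r' (bc s)) :
    ∃ x y : Node (Fin I.1), i = cd x ∧ j = cd y ∧ Step I.2 x y := by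
  have hne : ∀ {a c : Fin I.1}, (a : ℕ) ≠ c → a ≠ c := fun h e => h (congrArg _ e)
  unfold St at h
  simp only [nn_enc, aj_enc] at h
  rcases h with ⟨h1, h2, h3⟩ | ⟨⟨h1, h2, h3, h4, h5⟩, h6, h7⟩ | ⟨⟨h1, h2, h3, h4, h5⟩, h6, h7, h8⟩ |
    ⟨⟨h1, h2, h3, h4, h5⟩, h6, h7⟩
  · exact ⟨.lit o p q s, .lit o q p (!s), h2, by rw [h3]; simp only [cd, bc_not],
      .flip o p q s (hne h1)⟩
  · exact ⟨.lit o p b s, .walk o p q b b s, h6, h7,
      .enter o p q b s h1 (hne h2) (hne h3) (hne h4) (hne h5)⟩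
  · exact ⟨.walk o p q b r s, .walk o p q b r' s, h7, h8,
      .move o p q b r r' s h1 (hne h2) (hne h3) (hne h4) (hne h5) h6⟩
  · exact ⟨.walk o p q b o s, .lit o q b s, h6, h7,
      .leave o p q b s h1 (hne h2) (hne h3) (hne h4) (hne h5)⟩

/-- From nodes to codes. -/
private theorem St_of_step (I : GInst) {x y : Node (Fin I.1)} (h : Step I.2 x y) :
    ∃ (o p q b r r' : Fin I.1) (s : Bool), St (enc I) (cd x) (cd y) o p q b r r' (bc s) := by
  have hne : ∀ {a c : Fin I.1}, a ≠ c → (a : ℕ) ≠ c := fun h e => h (Fin.ext e)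
  cases h with
  | flip o a b s h =>
    refine ⟨o, a, b, o, o, o, s, Or.inl ⟨hne h, ?_, ?_⟩⟩
    · rw [nn_enc]; rfl
    · rw [nn_enc, ← bc_not]; rfl
  | enter o p q b s h hp hq hpo hqo =>
    refine ⟨o, p, q, b, o, o, s, Or.inr (Or.inl ⟨⟨(aj_enc I _ _).2 h, hne hp, hne hq, hne hpo,
      hne hqo⟩, ?_, ?_⟩)⟩
    · rw [nn_enc]; rfl
    · rw [nn_enc]; rfl
  | move o p q b r r' s h h1 h2 h3 h4 hi =>
    refine ⟨o, p, q, b, r, r', s, Or.inr (Or.inr (Or.inl ⟨⟨(aj_enc I _ _).2 h, hne h1, hne h2,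
      hne h3, hne h4⟩, ?_, ?_, ?_⟩))⟩
    · simp only [aj_enc]; exact hi
    · rw [nn_enc]; rfl
    · rw [nn_enc]; rfl
  | leave o p q b s h hp hq hpo hqo =>
    refine ⟨o, p, q, b, o, o, s, Or.inr (Or.inr (Or.inr ⟨⟨(aj_enc I _ _).2 h, hne hp, hne hq,
      hne hpo, hne hqo⟩, ?_, ?_⟩))⟩
    · rw [nn_enc]; rfl
    · rw [nn_enc]; rfl

private theorem EE_iff (I : GInst) (i j : ℕ) : EE (enc I) i j ↔
    ∃ x y : Node (Fin I.1), i = cd x ∧ j = cd y ∧ (Step I.2 x y ∨ Step I.2 y x) := by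
  constructor
  · rintro ⟨o, ho, p, hp, q, hq, b, hb, r, hr, r', hr', s, hs, h⟩
    rw [nn_enc] at ho hp hq hb hr hr'
    obtain ⟨s', rfl⟩ : ∃ s', bc s' = s := by
      rcases Nat.lt_succ_iff_lt_or_eq.1 hs with h | h
      · exact ⟨true, by simp [bc]; omega⟩
      · exact ⟨false, by simp [bc]; omega⟩
    rcases h with h | h
    · obtain ⟨x, y, h1, h2, h3⟩ := step_of_St I ⟨o, ho⟩ ⟨p, hp⟩ ⟨q, hq⟩ ⟨b, hb⟩ ⟨r, hr⟩
        ⟨r', hr'⟩ s' h
      exact ⟨x, y, h1, h2, Or.inl h3⟩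
    · obtain ⟨x, y, h1, h2, h3⟩ := step_of_St I ⟨o, ho⟩ ⟨p, hp⟩ ⟨q, hq⟩ ⟨b, hb⟩ ⟨r, hr⟩
        ⟨r', hr'⟩ s' h
      exact ⟨y, x, h2, h1, Or.inr h3⟩
  · rintro ⟨x, y, rfl, rfl, h | h⟩
    · obtain ⟨o, p, q, b, r, r', s, h1⟩ := St_of_step I h
      refine ⟨o, ?_, p, ?_, q, ?_, b, ?_, r, ?_, r', ?_, bc s, bc_lt s, Or.inl h1⟩ <;>
        (rw [nn_enc]; exact Fin.is_lt _)
    · obtain ⟨o, p, q, b, r, r', s, h1⟩ := St_of_step I h
      refine ⟨o, ?_, p, ?_, q, ?_, b, ?_, r, ?_, r', ?_, bc s, bc_lt s, Or.inr h1⟩ <;>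
        (rw [nn_enc]; exact Fin.is_lt _)

/-- The bound for the codes. -/
private noncomputable def MM (x : List (Option Bool)) : ℕ :=
  2 * (nn x * nn x * nn x) + 2 * (nn x * nn x * nn x * nn x * nn x)

private theorem UF_MM : UF (fun x (_ : ℕ → ℕ) => MM x) :=
  ((UF.const 2).mul ((UF_nn.mul UF_nn).mul UF_nn)).add
    ((UF.const 2).mul ((((UF_nn.mul UF_nn).mul UF_nn).mul UF_nn).mul UF_nn))

private theorem gen_iff (I : GInst) (x y : Node (Fin I.1)) :
    Relation.ReflTransGen (fun i j => i < MM (enc I) ∧ j < MM (enc I) ∧ EE (enc I) i j)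
      (cd x) (cd y) ↔ Relation.EqvGen (Step I.2) x y := by
  have hM : ∀ z : Node (Fin I.1), cd z < MM (enc I) := fun z => by
    unfold MM; rw [nn_enc]; exact cd_lt z
  constructor
  · intro h
    have h1 : ∀ j, Relation.ReflTransGen (fun i j => i < MM (enc I) ∧ j < MM (enc I) ∧
        EE (enc I) i j) (cd x) j → ∃ z, j = cd z ∧ Relation.EqvGen (Step I.2) x z := by
      intro j hj
      induction hj with
      | refl => exact ⟨x, rfl, Relation.EqvGen.refl x⟩
      | tail _ h2 ih =>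
        obtain ⟨z, rfl, hz⟩ := ih
        obtain ⟨z', w, h3, rfl, h4⟩ := (EE_iff I _ _).1 h2.2.2
        rw [← cd_inj h3] at h4
        refine ⟨w, rfl, hz.trans _ _ _ ?_⟩
        rcases h4 with h4 | h4
        · exact Relation.EqvGen.rel _ _ h4
        · exact (Relation.EqvGen.rel _ _ h4).symm
    obtain ⟨z, h2, h3⟩ := h1 _ h
    rwa [← cd_inj h2] at h3
  · intro h
    induction h with
    | rel x y h => exact Relation.ReflTransGen.single ⟨hM x, hM y, (EE_iff I _ _).2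
        ⟨x, y, rfl, rfl, Or.inl h⟩⟩
    | refl x => exact Relation.ReflTransGen.refl
    | symm x y _ ih =>
      have hs : ∀ i j, (i < MM (enc I) ∧ j < MM (enc I) ∧ EE (enc I) i j) →
          (j < MM (enc I) ∧ i < MM (enc I) ∧ EE (enc I) j i) := by
        rintro i j ⟨h1, h2, h3⟩
        obtain ⟨x, y, h4, h5, h6⟩ := (EE_iff I _ _).1 h3
        exact ⟨h2, h1, (EE_iff I _ _).2 ⟨y, x, h5, h4, h6.symm⟩⟩
      refine (Relation.reflTransGen_swap.1 ?_)
      exact Relation.ReflTransGen.mono hs _ _ ih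
    | trans x y z _ _ ih1 ih2 => exact ih1.trans ih2

end Poly

open Pool.Agent.Confl.Poly

/-- Whether a graph has no conflict is decided in polynomial time. -/
theorem noConflict_polyTime : ∃ f : GInst → Bool,
    Nonempty (TM2ComputableInPolyTime enc encodeBool f) ∧
      ∀ I : GInst, f I = true ↔ NoConflict I.2 := by
  classical
  refine ⟨fun I => decide (NoConflict I.2), ?_, fun I => by simp⟩
  refine polyTime_closure_all enc (M := MM) (N := fun x => nn x * nn x * nn x) (E := EE)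
    (A := fun _ => False) (B := fun _ => True) (s := fun v => 2 * v) (t := fun v => 2 * v + 1)
    UF_MM ((UF_nn.mul UF_nn).mul UF_nn) UP_EE UP.false UP.true ((UF.const 2).mul (UF.var 0))
    (((UF.const 2).mul (UF.var 0)).add (UF.const 1)) ?_ _ fun I => ?_
  · intro x v hv
    unfold MM
    constructor <;> omega
  · simp only [decide_eq_true_eq, false_or, true_and, nn_enc]
    constructor
    · intro h v hv h1
      have h0 : 0 < I.1 := by
        rcases Nat.eq_zero_or_pos I.1 with h | h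
        · simp [h] at hv
        · exact h
      have ho : v / I.1 / I.1 < I.1 := by
        rw [Nat.div_lt_iff_lt_mul h0, Nat.div_lt_iff_lt_mul h0]; exact hv
      have e0 : (v / I.1 / I.1 * I.1 + v / I.1 % I.1) * I.1 + v % I.1 = v := by
        have e1 := Nat.div_add_mod' (v / I.1) I.1
        have e2 := Nat.div_add_mod' v I.1
        rw [e1, e2]
      refine h ⟨_, ho⟩ ⟨_, Nat.mod_lt (v / I.1) h0⟩ ⟨_, Nat.mod_lt v h0⟩ ((gen_iff I _ _).1 ?_)
      have e1 : cd (Node.lit (⟨_, ho⟩ : Fin I.1) ⟨_, Nat.mod_lt (v / I.1) h0⟩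
          ⟨_, Nat.mod_lt v h0⟩ true) = 2 * v := by
        simp only [cd, lc, bc, e0]; simp
      have e2 : cd (Node.lit (⟨_, ho⟩ : Fin I.1) ⟨_, Nat.mod_lt (v / I.1) h0⟩
          ⟨_, Nat.mod_lt v h0⟩ false) = 2 * v + 1 := by
        simp only [cd, lc, bc, e0]; simp
      rw [e1, e2]
      exact h1
    · intro h o a b h1
      refine h ((o * I.1 + a) * I.1 + b) (dig_lt (dig_lt o.2 a.2) b.2) ?_
      have h2 := (gen_iff I _ _).2 h1
      have e1 : cd (Node.lit o a b true) = 2 * (((o : ℕ) * I.1 + a) * I.1 + b) := by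
        simp only [cd, lc, bc]; simp
      have e2 : cd (Node.lit o a b false) = 2 * (((o : ℕ) * I.1 + a) * I.1 + b) + 1 := by
        simp only [cd, lc, bc]; simp
      rw [e1, e2] at h2
      exact h2

end Pool.Agent.Confl
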