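import Pool.Agent.Confl.Alg

/-!
# Soundness of the algorithm: an order satisfying the local condition excludes conflicts
(package CF6A)
-/

set_option autoImplicit false

namespace Pool.Agent.Confl

variable {V : Type}

private lemma snd_btw_symm (x : V → ℝ) (p q r : V) : Btw x p q r ↔ Btw x q p r := by
  unfold Btw; tauto

private lemma snd_illegal_symm {G : SimpleGraph V} {p q r s : V} (h : Illegal G p q r s) :
    Illegal G q p r s := by
  unfold Illegal at *; tauto

private lemma snd_illegal_symm' {G : SimpleGraph V} {p q r s : V} (h : Illegal G p q r s) :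
    Illegal G p q s r := by
  unfold Illegal at *; tauto

/-- An edge which is illegal for `pq` does not cross it. -/
private lemma snd_noncross {G : SimpleGraph V} {x : V → ℝ} (hx : Function.Injective x)
    (hlc : LC G x) {p q r r' : V} (hpq : G.Adj p q) (hr : G.Adj r r')
    (h3 : r' ≠ p) (h4 : r' ≠ q) (hi : Illegal G p q r r') (hb : Btw x p q r) :
    Btw x p q r' := by
  wlog hlt : x p < x q generalizing p q with H
  · have hne : p ≠ q := hpq.ne
    have hlt' : x q < x p := lt_of_le_of_ne (not_lt.1 hlt) (fun h => hne (hx h).symm)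
    exact (snd_btw_symm x q p r').1
      (H hpq.symm h4 h3 (snd_illegal_symm hi) ((snd_btw_symm x p q r).1 hb) hlt')
  · have hb' : x p < x r ∧ x r < x q := by
      rcases hb with h | h
      · exact h
      · exact absurd (h.1.trans h.2) (not_lt.2 hlt.le)
    by_contra hn
    have hn' : x r' < x p ∨ x q < x r' := by
      by_contra h5
      push Not at h5
      exact hn (Or.inl ⟨lt_of_le_of_ne h5.1 (fun h => h3 (hx h).symm),
        lt_of_le_of_ne h5.2 (fun h => h4 (hx h))⟩)
    apply hi
    rcases hn' with h5 | h5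
    · rcases hlc r' p r q h5 hb'.1 hb'.2 hr.symm hpq with ⟨h6, h7⟩ | ⟨h6, h7⟩
      · exact Or.inr ⟨h6.symm, h7.symm⟩
      · exact Or.inl ⟨h7, h6.symm⟩
    · rcases hlc p r q r' hb'.1 hb'.2 h5 hpq hr with ⟨h6, h7⟩ | ⟨h6, h7⟩
      · exact Or.inl ⟨h6, h7⟩
      · exact Or.inr ⟨h6, h7.symm⟩

private lemma snd_noncross_iff {G : SimpleGraph V} {x : V → ℝ} (hx : Function.Injective x)
    (hlc : LC G x) {p q r r' : V} (hpq : G.Adj p q) (hr : G.Adj r r') (h1 : r ≠ p) (h2 : r ≠ q)
    (h3 : r' ≠ p) (h4 : r' ≠ q) (hi : Illegal G p q r r') :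
    Btw x p q r ↔ Btw x p q r' :=
  ⟨snd_noncross hx hlc hpq hr h3 h4 hi,
    snd_noncross hx hlc hpq hr.symm h1 h2 (snd_illegal_symm' hi)⟩

open Classical in
/-- The rank of `w` in the cyclic order starting at `o`. -/
private noncomputable def sndK (x : V → ℝ) (C : ℝ) (o w : V) : ℝ :=
  if x w < x o then x w + C else x w

private lemma snd_key {x : V → ℝ} (hx : Function.Injective x) {C : ℝ}
    (hC : ∀ v w, x v - x w < C) {o p q b : V} (hpb : b ≠ p) (hqb : b ≠ q) (hpo : p ≠ o)
    (hqo : q ≠ o) (h : Btw x p q o ↔ Btw x p q b) :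
    sndK x C o p < sndK x C o b ↔ sndK x C o q < sndK x C o b := by
  have e1 : x b ≠ x p := fun h => hpb (hx h)
  have e2 : x b ≠ x q := fun h => hqb (hx h)
  have e3 : x p ≠ x o := fun h => hpo (hx h)
  have e4 : x q ≠ x o := fun h => hqo (hx h)
  have c1 := hC p b
  have c2 := hC b p
  have c3 := hC q b
  have c4 := hC b q
  have c5 := hC p o
  have c6 := hC o p
  have c7 := hC q o
  have c8 := hC o q
  have c9 := hC o b
  have c10 := hC b o
  unfold sndK Btw at *
  by_cases g5 : x b < x o <;>
  rcases lt_or_gt_of_ne e1 with g1 | g1 <;> rcases lt_or_gt_of_ne e2 with g2 | g2 <;>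
    rcases lt_or_gt_of_ne e3 with g3 | g3 <;> rcases lt_or_gt_of_ne e4 with g4 | g4 <;>
    simp only [g3, g4, not_lt.2 g3.le, not_lt.2 g4.le, g5, if_true, if_false] <;>
    constructor <;> intro h6 <;> first | linarith | skip
  all_goals
    exfalso
    simp [g1, g2, g3, g4, not_lt.2 g1.le, not_lt.2 g2.le, not_lt.2 g3.le, not_lt.2 g4.le] at h
    try linarith

private lemma snd_K_inj {x : V → ℝ} (hx : Function.Injective x) {C : ℝ}
    (hC : ∀ v w, x v - x w < C) (o : V) : Function.Injective (sndK x C o) := by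
  intro a b h
  unfold sndK at h
  have c1 := hC a b
  have c2 := hC b a
  apply hx
  split_ifs at h <;> linarith

open Classical in
/-- Truth of a literal. -/
private noncomputable def sndT (x : V → ℝ) (C : ℝ) (o a b : V) (s : Bool) : Prop :=
  if a = b then s = true else (sndK x C o a < sndK x C o b ↔ s = true)

open Classical in
/-- The invariant. -/
private noncomputable def sndP (G : SimpleGraph V) (x : V → ℝ) (C : ℝ) : Node V → Prop
  | .lit o a b s => sndT x C o a b s
  | .walk o p q b r s =>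
      if G.Adj p q ∧ b ≠ p ∧ b ≠ q ∧ p ≠ o ∧ q ≠ o then
        (if (Btw x p q r ↔ Btw x p q b) then sndT x C o p b s else sndT x C o q b s)
      else True

private lemma snd_step {G : SimpleGraph V} {x : V → ℝ} (hx : Function.Injective x) {C : ℝ}
    (hC : ∀ v w, x v - x w < C) (hlc : LC G x) {n m : Node V} (h : Step G n m) :
    sndP G x C n ↔ sndP G x C m := by
  cases h with
  | flip o a b s h =>
    have hne : sndK x C o a ≠ sndK x C o b := fun h' => h (snd_K_inj hx hC o h')
    simp only [sndP, sndT, if_neg h, if_neg (Ne.symm h)]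
    rcases lt_or_gt_of_ne hne with h1 | h1
    · simp [h1, not_lt.2 h1.le]
    · simp [h1, not_lt.2 h1.le]
  | enter o p q b s h hp hq hpo hqo =>
    simp only [sndP]
    rw [if_pos ⟨h, hp, hq, hpo, hqo⟩]
    simp
  | move o p q b r r' s h h1 h2 h3 h4 hi =>
    simp only [sndP]
    by_cases hc : G.Adj p q ∧ b ≠ p ∧ b ≠ q ∧ p ≠ o ∧ q ≠ o
    · rw [if_pos hc, if_pos hc, snd_noncross_iff hx hlc hc.1 h h1 h2 h3 h4 hi]
    · rw [if_neg hc, if_neg hc]
  | leave o p q b s h hp hq hpo hqo =>
    simp only [sndP]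
    rw [if_pos ⟨h, hp, hq, hpo, hqo⟩]
    by_cases hc : (Btw x p q o ↔ Btw x p q b)
    · rw [if_pos hc]
      simp only [sndT, if_neg (Ne.symm hp), if_neg (Ne.symm hq), snd_key hx hC hp hq hpo hqo hc]
    · rw [if_neg hc]

theorem noConflict_of_lc [Finite V] (G : SimpleGraph V) (x : V → ℝ) (hx : Function.Injective x)
    (h : LC G x) : NoConflict G := by
  intro o a b hab
  obtain ⟨C, hC⟩ : ∃ C : ℝ, ∀ v w, x v - x w < C := by
    obtain ⟨M, hM⟩ := (Set.finite_range (fun p : V × V => x p.1 - x p.2)).bddAbove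
    exact ⟨M + 1, fun v w => lt_of_le_of_lt (hM ⟨(v, w), rfl⟩) (lt_add_one M)⟩
  have key : ∀ n m : Node V, Relation.EqvGen (Step G) n m → (sndP G x C n ↔ sndP G x C m) := by
    intro n m hnm
    induction hnm with
    | rel n m h' => exact snd_step hx hC h h'
    | refl n => exact Iff.rfl
    | symm n m _ ih => exact ih.symm
    | trans n m k _ _ ih1 ih2 => exact ih1.trans ih2
  have h1 := key _ _ hab
  simp only [sndP, sndT] at h1
  split_ifs at h1 with h2
  · simp at h1
  · by_cases h3 : sndK x C o a < sndK x C o b <;> simp [h3] at h1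

end Pool.Agent.Confl
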