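import Pool.Agent.Confl.Defs

/-!
# Reversal and surgery of smooth paths
-/

set_option autoImplicit false

namespace Pool.Agent.Confl

variable {V : Type}

namespace Skel

variable (S : Skel V)

/-- The reversed dart. -/
def surgRev (d : S.Dart) : S.Dart := (d.1, !d.2)

lemma surgRev_head (d : S.Dart) : S.head (S.surgRev d) = S.tail d := by
  unfold head tail surgRev
  simp

lemma surgRev_tail (d : S.Dart) : S.tail (S.surgRev d) = S.head d := rfl

lemma surgRev_turn {d d' : S.Dart} (h : S.Turn d d') : S.Turn (S.surgRev d') (S.surgRev d) := by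
  obtain ⟨j, h1, h2, h3⟩ := h
  refine ⟨j, by rw [surgRev_head]; exact h2, by rw [surgRev_tail]; exact h1, ?_⟩
  unfold surgRev
  simp only [Bool.not_not]
  exact h3.symm

lemma surg_map_tail (d : S.Dart) (l : List S.Dart) (h : (d :: l).IsChain S.Turn) :
    (d :: l).map S.tail = S.tail d :: ((d :: l).map S.head).dropLast := by
  induction l generalizing d with
  | nil => simp
  | cons e l ih =>
    rw [List.isChain_cons_cons] at h
    obtain ⟨⟨j, h1, h2, -⟩, h4⟩ := h
    have e1 : ((d :: e :: l).map S.head).dropLast =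
        S.head d :: ((e :: l).map S.head).dropLast := by
      simp only [List.map_cons, List.dropLast_cons_cons]
    rw [List.map_cons, ih e h4, e1, h1, h2]

lemma surg_dropLast_inr (d : S.Dart) (l : List S.Dart) (h : (d :: l).IsChain S.Turn) :
    ∀ n ∈ ((d :: l).map S.head).dropLast, ∃ j, n = Sum.inr j := by
  induction l generalizing d with
  | nil => simp
  | cons e l ih =>
    rw [List.isChain_cons_cons] at h
    obtain ⟨⟨j, h1, h2, -⟩, h4⟩ := h
    intro n hn
    rw [List.map_cons, List.map_cons, List.dropLast_cons_cons, List.mem_cons] at hn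
    rcases hn with rfl | hn
    · exact ⟨j, h1⟩
    · exact ih e h4 n (by rw [List.map_cons]; exact hn)

end Skel

/-- The reversed smooth path. -/
lemma smooth_rev_path (S : Skel V) {u v : V} {p : List S.Dart} (hp : S.IsSmoothPath u v p) :
    S.IsSmoothPath v u (p.map S.surgRev).reverse ∧
      ∀ j : S.J, Sum.inr j ∈ ((p.map S.surgRev).reverse).map S.head ↔
        Sum.inr j ∈ p.map S.head := by
  obtain ⟨hs, hf, ht, hn⟩ := hp
  match p, hs, hf, ht, hn with
  | [], hs, _, _, _ => simp at hs
  | d :: l, hs, hf, ht, hn =>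
    have e1 : (((d :: l).map S.surgRev).reverse).map S.head =
        ((d :: l).map S.tail).reverse := by
      rw [List.map_reverse, List.map_map]
      congr 1
      exact List.map_congr_left fun a _ => S.surgRev_head a
    have e2 := S.surg_map_tail d l ht
    have e3 := S.surg_dropLast_inr d l ht
    have hd : S.tail d = Sum.inl u := by simpa using hs
    have hl : ((d :: l).map S.head).getLast? = some (Sum.inl v) := by
      rw [List.getLast?_map]
      exact hf
    have e4 : (d :: l).map S.head = ((d :: l).map S.head).dropLast ++ [Sum.inl v] := by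
      exact (List.dropLast_append_getLast? _ hl).symm
    refine ⟨⟨?_, ?_, ?_, ?_⟩, ?_⟩
    · rw [List.head?_reverse, List.getLast?_map, Option.map_map]
      exact hf
    · rw [List.getLast?_reverse, List.head?_map, Option.map_map]
      simp only [List.head?_cons, Option.map_some, Function.comp, S.surgRev_head, hd]
    · rw [List.isChain_reverse, List.isChain_map]
      exact ht.imp fun a b h => S.surgRev_turn h
    · rw [e1, List.nodup_reverse, e2, List.nodup_cons]
      refine ⟨fun h => ?_, hn.sublist (List.dropLast_sublist _)⟩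
      obtain ⟨j, hj⟩ := e3 _ h
      rw [hd] at hj
      cases hj
    · intro j
      rw [e1, List.mem_reverse, e2, List.mem_cons, hd]
      constructor
      · rintro (h | h)
        · cases h
        · exact List.mem_of_mem_dropLast h
      · intro h
        right
        rw [e4, List.mem_append, List.mem_singleton] at h
        rcases h with h | h
        · exact h
        · cases h

theorem smooth_reverse (S : Skel V) {u v : V} {p : List S.Dart} (hp : S.IsSmoothPath u v p) :
    ∃ p' : List S.Dart, S.IsSmoothPath v u p' ∧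
      ∀ j : S.J, Sum.inr j ∈ p'.map S.head ↔ Sum.inr j ∈ p.map S.head :=
  ⟨_, smooth_rev_path S hp⟩

/-- The first element with a given property. -/
private lemma surg_first {α : Type*} (P : α → Prop) (l : List α) (h : ∃ a ∈ l, P a) :
    ∃ l1 a l2, l = l1 ++ a :: l2 ∧ P a ∧ ∀ b ∈ l1, ¬ P b := by
  induction l with
  | nil => obtain ⟨a, ha, -⟩ := h; cases ha
  | cons c l ih =>
    by_cases hc : P c
    · exact ⟨[], c, l, rfl, hc, by simp⟩
    · obtain ⟨a, ha, hPa⟩ := h
      rw [List.mem_cons] at ha
      rcases ha with rfl | ha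
      · exact absurd hPa hc
      · obtain ⟨l1, a', l2, rfl, h2, h3⟩ := ih ⟨a, ha, hPa⟩
        refine ⟨c :: l1, a', l2, rfl, h2, ?_⟩
        intro b hb
        rw [List.mem_cons] at hb
        rcases hb with rfl | hb
        · exact hc
        · exact h3 b hb

/-- Splicing of two smooth paths. -/
private lemma surg_splice (S : Skel V) {a b c d : V} {p1 p2 q1 q2 : List S.Dart}
    {d1 e1 e2 : S.Dart} (hp : S.IsSmoothPath a c (p1 ++ d1 :: p2))
    (hq : S.IsSmoothPath b d (q1 ++ e1 :: e2 :: q2)) {j : S.J} (h1 : S.head d1 = Sum.inr j)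
    (h2 : S.head e1 = Sum.inr j)
    (h3 : ∀ i : S.J, Sum.inr i ∈ p1.map S.head →
      Sum.inr i ∉ (q1 ++ e1 :: e2 :: q2).map S.head)
    (h4 : S.dir d1.1 (!d1.2) ≠ S.dir e2.1 e2.2) :
    S.IsSmoothPath a d ((p1 ++ [d1]) ++ e2 :: q2) := by
  obtain ⟨ps, pf, pt, pn⟩ := hp
  obtain ⟨qs, qf, qt, qn⟩ := hq
  have ep : p1 ++ d1 :: p2 = (p1 ++ [d1]) ++ p2 := by simp
  have eq : q1 ++ e1 :: e2 :: q2 = (q1 ++ [e1]) ++ e2 :: q2 := by simp
  have t2 : S.tail e2 = Sum.inr j := by
    have h5 : (e1 :: e2 :: q2).IsChain S.Turn := qt.right_of_append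
    rw [List.isChain_cons_cons] at h5
    obtain ⟨⟨i, h6, h7, -⟩, -⟩ := h5
    rw [h2] at h6
    rw [h7, ← h6]
  refine ⟨?_, ?_, ?_, ?_⟩
  · rw [← ps]
    cases p1 <;> simp
  · rw [← qf, eq, List.getLast?_append_of_ne_nil _ (by simp),
      List.getLast?_append_of_ne_nil _ (by simp)]
  · rw [ep] at pt
    rw [eq] at qt
    refine List.IsChain.append pt.left_of_append qt.right_of_append ?_
    intro x hx y hy
    simp only [List.getLast?_append_of_ne_nil _ (List.cons_ne_nil d1 []),
      List.getLast?_singleton, Option.mem_def, Option.some.injEq] at hx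
    simp only [List.head?_cons, Option.mem_def, Option.some.injEq] at hy
    subst hx hy
    exact ⟨j, h1, t2, h4⟩
  · rw [List.map_append]
    rw [ep, List.map_append] at pn
    rw [eq, List.map_append] at qn
    rw [List.nodup_append] at pn qn ⊢
    refine ⟨pn.1, qn.2.1, ?_⟩
    intro x hx y hy hxy
    subst hxy
    rw [List.map_append, List.mem_append] at hx
    rcases hx with hx | hx
    · -- `x` is a head in `p1`: a junction
      have hxj : ∃ i, x = Sum.inr i := by
        obtain ⟨g, hg, rfl⟩ := List.mem_map.1 hx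
        obtain ⟨l1, l2, hl⟩ := List.append_of_mem hg
        have h5 : (p1 ++ d1 :: p2).IsChain S.Turn := pt
        rw [hl] at h5
        have h6 : (g :: (l2 ++ d1 :: p2)).IsChain S.Turn := by
          have h7 : (l1 ++ (g :: (l2 ++ d1 :: p2))).IsChain S.Turn := by
            simpa using h5
          exact h7.right_of_append
        cases l2 with
        | nil =>
          simp only [List.nil_append] at h6
          rw [List.isChain_cons_cons] at h6
          obtain ⟨⟨i, h8, -, -⟩, -⟩ := h6
          exact ⟨i, h8⟩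
        | cons g' l2 =>
          simp only [List.cons_append] at h6
          rw [List.isChain_cons_cons] at h6
          obtain ⟨⟨i, h8, -, -⟩, -⟩ := h6
          exact ⟨i, h8⟩
      obtain ⟨i, rfl⟩ := hxj
      refine h3 i hx ?_
      rw [eq, List.map_append, List.mem_append]
      exact Or.inr hy
    · simp only [List.map_cons, List.map_nil, List.mem_singleton] at hx
      rw [hx, h1, ← h2] at hy
      exact qn.2.2 (S.head e1) (by simp) (S.head e1) hy rfl

theorem smooth_surgery (S : Skel V) {a b c d : V} {p q : List S.Dart}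
    (hp : S.IsSmoothPath a c p) (hq : S.IsSmoothPath b d q)
    (h : ∃ j : S.J, Sum.inr j ∈ p.map S.head ∧ Sum.inr j ∈ q.map S.head) :
    (∃ r, S.IsSmoothPath a b r) ∨ (∃ r, S.IsSmoothPath a d r) := by
  obtain ⟨p1, d1, p2, rfl, ⟨j, h1, h2⟩, h3⟩ := surg_first
    (fun g : S.Dart => ∃ j : S.J, S.head g = Sum.inr j ∧ Sum.inr j ∈ q.map S.head) p (by
      obtain ⟨j, h1, h2⟩ := h
      obtain ⟨g, hg, hgj⟩ := List.mem_map.1 h1
      exact ⟨g, hg, j, hgj, h2⟩)
  have h3' : ∀ i : S.J, Sum.inr i ∈ p1.map S.head → Sum.inr i ∉ q.map S.head := by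
    intro i hi hi'
    obtain ⟨g, hg, hgi⟩ := List.mem_map.1 hi
    exact h3 g hg ⟨i, hgi, hi'⟩
  obtain ⟨e1, he1, hej⟩ := List.mem_map.1 h2
  obtain ⟨q1, q', rfl⟩ := List.append_of_mem he1
  cases q' with
  | nil =>
    have := hq.finish
    rw [List.getLast?_append_of_ne_nil _ (by simp)] at this
    simp only [List.getLast?_singleton, Option.map_some, Option.some.injEq] at this
    rw [this] at hej
    cases hej
  | cons e2 q2 =>
    by_cases h4 : S.dir d1.1 (!d1.2) = S.dir e2.1 e2.2
    · left
      have h5 : (e1 :: e2 :: q2).IsChain S.Turn := hq.turns.right_of_append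
      rw [List.isChain_cons_cons] at h5
      obtain ⟨⟨i, h6, h7, h8⟩, -⟩ := h5
      have hji : i = j := by
        rw [hej] at h6
        exact (Sum.inr_injective h6).symm
      subst hji
      obtain ⟨hr, hrj⟩ := smooth_rev_path S hq
      have er : ((q1 ++ e1 :: e2 :: q2).map S.surgRev).reverse =
          (q2.map S.surgRev).reverse ++ S.surgRev e2 :: S.surgRev e1 ::
            (q1.map S.surgRev).reverse := by
        simp
      rw [er] at hr hrj
      refine ⟨_, surg_splice S hp hr h1 (by rw [S.surgRev_head]; exact h7) ?_ ?_⟩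
      · intro i' hi' hi''
        exact h3' i' hi' ((hrj i').1 hi'')
      · unfold Skel.surgRev
        rw [h4]
        exact h8.symm
    · right
      exact ⟨_, surg_splice S hp hq h1 hej h3' h4⟩

end Pool.Agent.Confl
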