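import Mathlib

/-!
# A homeomorphism of the plane which pinches cones

Around finitely many points `c j` of the open lower half-plane the plane is squeezed towards the line
`c j + ℝ u j`; outside small discs nothing happens.
-/

set_option autoImplicit false

open Filter Topology Set

namespace Pool.Agent.Confl

/-- The difference between the squeezing map and the identity. -/
noncomputable def pinchH (r : ℝ) (w : ℂ) : ℂ := ⟨0, w.im * (min 1 (‖w‖ / r) - 1)⟩

theorem pinchH_cont (r : ℝ) : Continuous (pinchH r) := by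
  have h : pinchH r = fun w : ℂ =>
      ((w.im * (min 1 (‖w‖ / r) - 1) : ℝ) : ℂ) * Complex.I := by
    funext w
    apply Complex.ext <;> simp [pinchH]
  rw [h]
  fun_prop

theorem pinchH_far {r : ℝ} (hr : 0 < r) {w : ℂ} (h : r ≤ ‖w‖) : pinchH r w = 0 := by
  have h1 : (1 : ℝ) ≤ ‖w‖ / r := by rwa [le_div_iff₀ hr, one_mul]
  apply Complex.ext
  · rfl
  · simp [pinchH, min_eq_left h1]

theorem pinchH_near {r : ℝ} (hr : 0 < r) {w : ℂ} (h : ‖w‖ < r) :
    w + pinchH r w = ⟨w.re, w.im * ‖w‖ / r⟩ := by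
  have h1 : ‖w‖ / r ≤ 1 := by rw [div_le_one hr]; exact h.le
  apply Complex.ext
  · simp [pinchH]
  · simp only [pinchH, Complex.add_im, min_eq_right h1]
    ring

theorem pinch_norm_le {r : ℝ} (hr : 0 < r) {w : ℂ} (h : ‖w‖ < r) :
    ‖(⟨w.re, w.im * ‖w‖ / r⟩ : ℂ)‖ ≤ ‖w‖ := by
  have h1 : ‖w‖ / r ≤ 1 := by rw [div_le_one hr]; exact h.le
  have h0 : 0 ≤ ‖w‖ / r := by positivity
  refine (sq_le_sq₀ (norm_nonneg _) (norm_nonneg _)).1 ?_
  rw [← Complex.normSq_eq_norm_sq, ← Complex.normSq_eq_norm_sq, Complex.normSq_apply,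
    Complex.normSq_apply]
  have e : w.im * ‖w‖ / r = w.im * (‖w‖ / r) := by ring
  simp only [e]
  have h2 : (‖w‖ / r) * (‖w‖ / r) ≤ 1 := by nlinarith
  nlinarith [mul_self_nonneg w.im]

theorem pinch_inj_aux {r : ℝ} (hr : 0 < r) {w w' : ℂ}
    (h : (⟨w.re, w.im * ‖w‖ / r⟩ : ℂ) = ⟨w'.re, w'.im * ‖w'‖ / r⟩) : w = w' := by
  have h1 : w.re = w'.re := (Complex.ext_iff.1 h).1
  have h2 : w.im * ‖w‖ / r = w'.im * ‖w'‖ / r := (Complex.ext_iff.1 h).2
  have h3 : w.im * ‖w‖ = w'.im * ‖w'‖ := by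
    have := congrArg (fun z => z * r) h2
    simpa [div_mul_cancel₀ _ hr.ne'] using this
  have hn : ‖w‖ * ‖w‖ = w.re * w.re + w.im * w.im := by
    rw [← Complex.normSq_apply, Complex.normSq_eq_norm_sq, sq]
  have hn' : ‖w'‖ * ‖w'‖ = w'.re * w'.re + w'.im * w'.im := by
    rw [← Complex.normSq_apply, Complex.normSq_eq_norm_sq, sq]
  have h4 : w.im * w.im * (w.re * w.re + w.im * w.im) =
      w'.im * w'.im * (w.re * w.re + w'.im * w'.im) := by
    have e1 : w.im * w.im * (w.re * w.re + w.im * w.im) = (w.im * ‖w‖) * (w.im * ‖w‖) := by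
      rw [← hn]; ring
    have e2 : w'.im * w'.im * (w.re * w.re + w'.im * w'.im) = (w'.im * ‖w'‖) * (w'.im * ‖w'‖) := by
      rw [h1, ← hn']; ring
    rw [e1, e2, h3]
  have h5 : (w.im * w.im - w'.im * w'.im) * (w.re * w.re + w.im * w.im + w'.im * w'.im) = 0 := by
    linear_combination h4
  have h6 : w.im * w.im = w'.im * w'.im := by
    rcases mul_eq_zero.1 h5 with h | h
    · linarith
    · have a1 := mul_self_nonneg w.re
      have a2 := mul_self_nonneg w.im
      have a3 := mul_self_nonneg w'.im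
      have b1 : w.im * w.im = 0 := by linarith
      have b2 : w'.im * w'.im = 0 := by linarith
      rw [b1, b2]
  have h7 : ‖w‖ = ‖w'‖ := by
    have e : ‖w‖ * ‖w‖ = ‖w'‖ * ‖w'‖ := by rw [hn, hn', h1, h6]
    exact (mul_self_inj (norm_nonneg _) (norm_nonneg _)).1 e
  apply Complex.ext h1
  rcases mul_self_eq_mul_self_iff.1 h6 with h | h
  · exact h
  · rw [← h7, h] at h3
    have h8 : w'.im * ‖w‖ = 0 := by linarith
    rcases mul_eq_zero.1 h8 with h9 | h9
    · rw [h, h9, neg_zero]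
    · have hw : w = 0 := norm_eq_zero.1 h9
      have hw' : w' = 0 := norm_eq_zero.1 (by rw [← h7]; exact h9)
      rw [hw, hw']

theorem pinch {J : Type} [Finite J] (c : J → ℂ) (hc : Function.Injective c)
    (hi : ∀ j, (c j).im < 0) (u : J → ℂ) (hu : ∀ j, ‖u j‖ = 1) :
    ∃ (r : ℝ) (Φ : ℂ → ℂ), 0 < r ∧ Continuous Φ ∧ Function.Injective Φ ∧
      (∀ z : ℂ, z.im = 0 → Φ z = z) ∧ (∀ z : ℂ, z.im < 0 → (Φ z).im < 0) ∧
      (∀ j, Φ (c j) = c j) ∧
      ∀ j z, ‖z - c j‖ < r → Φ z = c j + u j *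
        ⟨((z - c j) * (starRingEnd ℂ) (u j)).re,
          ((z - c j) * (starRingEnd ℂ) (u j)).im * ‖z - c j‖ / r⟩ := by
  classical
  have := Fintype.ofFinite J
  obtain ⟨r, hr, hr1, hr2⟩ : ∃ r : ℝ, 0 < r ∧ (∀ j, r < -(c j).im) ∧
      ∀ j k, j ≠ k → r < ‖c j - c k‖ / 2 := by
    have h1 : ∀ᶠ r in 𝓝[>] (0 : ℝ), ∀ j, r < -(c j).im := by
      rw [eventually_all]
      intro j
      exact nhdsWithin_le_nhds (Iio_mem_nhds (by linarith [hi j]))
    have h2 : ∀ᶠ r in 𝓝[>] (0 : ℝ), ∀ j k, j ≠ k → r < ‖c j - c k‖ / 2 := by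
      rw [eventually_all]
      intro j
      rw [eventually_all]
      intro k
      by_cases h : j = k
      · exact Eventually.of_forall fun _ h' => absurd h h'
      · have h3 : 0 < ‖c j - c k‖ / 2 :=
          half_pos (norm_pos_iff.2 (sub_ne_zero.2 fun h' => h (hc h')))
        filter_upwards [nhdsWithin_le_nhds (Iio_mem_nhds h3)] with r hr _
        exact hr
    have h0 : ∀ᶠ r in 𝓝[>] (0 : ℝ), r ∈ Ioi (0 : ℝ) := self_mem_nhdsWithin
    obtain ⟨r, h⟩ := (h0.and (h1.and h2)).exists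
    exact ⟨r, h.1, h.2.1, h.2.2⟩
  let W : J → ℂ → ℂ := fun j z => (z - c j) * (starRingEnd ℂ) (u j)
  have hW : ∀ j z, ‖W j z‖ = ‖z - c j‖ := by
    intro j z
    change ‖(z - c j) * (starRingEnd ℂ) (u j)‖ = _
    rw [norm_mul, RCLike.norm_conj, hu, mul_one]
  have huu : ∀ j, u j * (starRingEnd ℂ) (u j) = 1 := by
    intro j
    rw [Complex.mul_conj, Complex.normSq_eq_norm_sq, hu]
    simp
  let Φ : ℂ → ℂ := fun z => z + ∑ j, u j * pinchH r (W j z)
  have hsep : ∀ j k z, ‖z - c j‖ < r → ‖z - c k‖ < r → j = k := by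
    intro j k z h1 h2
    by_contra hne
    have h3 := hr2 j k hne
    have h4 : ‖c j - c k‖ ≤ ‖z - c j‖ + ‖z - c k‖ := by
      have e : c j - c k = (z - c k) - (z - c j) := by ring
      rw [e]
      have := norm_sub_le (z - c k) (z - c j)
      linarith
    linarith
  have hΦfar : ∀ z, (∀ j, r ≤ ‖z - c j‖) → Φ z = z := by
    intro z h
    change z + ∑ j, u j * pinchH r (W j z) = z
    rw [Finset.sum_eq_zero fun j _ => by
      rw [pinchH_far hr (by rw [hW]; exact h j), mul_zero], add_zero]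
  have hΦnear : ∀ j z, ‖z - c j‖ < r → Φ z = c j + u j * ⟨(W j z).re, (W j z).im * ‖W j z‖ / r⟩ := by
    intro j z h
    change z + ∑ j, u j * pinchH r (W j z) = _
    rw [Finset.sum_eq_single j]
    · rw [← pinchH_near hr (by rw [hW]; exact h), mul_add]
      have e : u j * W j z = z - c j := by
        change u j * ((z - c j) * (starRingEnd ℂ) (u j)) = _
        rw [mul_comm (z - c j), ← mul_assoc, huu, one_mul]
      rw [e]
      ring
    · intro k _ hk
      have : r ≤ ‖z - c k‖ := by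
        by_contra hcon
        exact hk (hsep k j z (not_le.1 hcon) h)
      rw [pinchH_far hr (by rw [hW]; exact this), mul_zero]
    · intro h'
      exact absurd (Finset.mem_univ j) h'
  have hΦdisc : ∀ j z, ‖z - c j‖ < r → ‖Φ z - c j‖ < r := by
    intro j z h
    rw [hΦnear j z h, add_sub_cancel_left, norm_mul, hu, one_mul]
    have h1 : ‖W j z‖ < r := by rw [hW]; exact h
    exact (pinch_norm_le hr h1).trans_lt h1
  have hcase : ∀ z, (∀ j, r ≤ ‖z - c j‖) ∨ ∃ j, ‖z - c j‖ < r := by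
    intro z
    by_cases h : ∃ j, ‖z - c j‖ < r
    · exact Or.inr h
    · left
      intro j
      by_contra hcon
      exact h ⟨j, not_le.1 hcon⟩
  have him : ∀ j z, ‖z - c j‖ < r → z.im < 0 := by
    intro j z h
    have h1 := (Complex.abs_im_le_norm (z - c j)).trans_lt h
    rw [Complex.sub_im, abs_lt] at h1
    have h2 := hr1 j
    linarith [h1.2]
  refine ⟨r, Φ, hr, ?_, ?_, ?_, ?_, ?_, ?_⟩
  · change Continuous fun z => z + ∑ j, u j * pinchH r (W j z)
    refine continuous_id.add (continuous_finsetSum _ fun j _ => ?_)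
    refine continuous_const.mul ((pinchH_cont r).comp ?_)
    change Continuous fun z => (z - c j) * (starRingEnd ℂ) (u j)
    fun_prop
  · intro z z' h
    rcases hcase z with h1 | ⟨j, h1⟩ <;> rcases hcase z' with h2 | ⟨k, h2⟩
    · rwa [hΦfar z h1, hΦfar z' h2] at h
    · have h3 := hΦdisc k z' h2
      rw [← h, hΦfar z h1] at h3
      exact absurd h3 (not_lt.2 (h1 k))
    · have h3 := hΦdisc j z h1
      rw [h, hΦfar z' h2] at h3
      exact absurd h3 (not_lt.2 (h2 j))
    · have h3 := hΦdisc j z h1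
      have h4 := hΦdisc k z' h2
      rw [← h] at h4
      obtain rfl := hsep j k _ h3 h4
      rw [hΦnear j z h1, hΦnear j z' h2] at h
      have h5 := mul_left_cancel₀ (fun h0 => by
        have := hu j
        rw [h0, norm_zero] at this
        exact zero_ne_one this) (add_left_cancel h)
      have h6 := pinch_inj_aux hr h5
      have h7 : z - c j = z' - c j := by
        have e : ∀ y, u j * W j y = y - c j := by
          intro y
          change u j * ((y - c j) * (starRingEnd ℂ) (u j)) = _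
          rw [mul_comm (y - c j), ← mul_assoc, huu, one_mul]
        rw [← e z, ← e z', h6]
      exact sub_left_injective h7
  · intro z hz
    refine hΦfar z fun j => ?_
    by_contra hcon
    have := him j z (not_le.1 hcon)
    linarith
  · intro z hz
    rcases hcase z with h1 | ⟨j, h1⟩
    · rw [hΦfar z h1]; exact hz
    · exact him j _ (hΦdisc j z h1)
  · intro j
    have h1 : ‖c j - c j‖ < r := by simpa using hr
    rw [hΦnear j (c j) h1]
    have h2 : W j (c j) = 0 := by
      change (c j - c j) * (starRingEnd ℂ) (u j) = 0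
      simp
    rw [h2]
    have h3 : (⟨(0 : ℂ).re, (0 : ℂ).im * ‖(0 : ℂ)‖ / r⟩ : ℂ) = 0 := by
      apply Complex.ext <;> simp
    rw [h3, mul_zero, add_zero]
  · intro j z h
    rw [hΦnear j z h, hW]

end Pool.Agent.Confl
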