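import Pool.Agent.Confl.Chords
import Pool.Agent.Confl.Pinch

/-!
# From cones to tangents
-/

set_option autoImplicit false

open Filter Topology Set

namespace Pool.Agent.Confl

variable {V : Type}

/-- the direction of `1 + i δ` tends to `1` -/
private lemma upgrade_dir {α : Type} {l : Filter α} {δ : α → ℝ} (h : Tendsto δ l (𝓝 0)) :
    Tendsto (fun t => ((⟨1, δ t⟩ : ℂ) / ((‖(⟨1, δ t⟩ : ℂ)‖ : ℝ) : ℂ))) l (𝓝 1) := by
  have h1 : Tendsto (fun t => (⟨1, δ t⟩ : ℂ)) l (𝓝 (1 : ℂ)) := by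
    have h2 : Tendsto (fun t => (1 : ℂ) + (δ t : ℂ) * Complex.I) l (𝓝 ((1 : ℂ) + ((0 : ℝ) : ℂ) *
        Complex.I)) :=
      tendsto_const_nhds.add (((Complex.continuous_ofReal.tendsto 0).comp h).mul_const _)
    simp only [Complex.ofReal_zero, zero_mul, add_zero] at h2
    refine h2.congr fun t => ?_
    apply Complex.ext <;> simp
  have h3 : Tendsto (fun t => ((‖(⟨1, δ t⟩ : ℂ)‖ : ℝ) : ℂ)) l (𝓝 ((‖(1 : ℂ)‖ : ℝ) : ℂ)) :=
    (Complex.continuous_ofReal.tendsto _).comp h1.norm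
  rw [norm_one, Complex.ofReal_one] at h3
  have h4 := h1.div h3 one_ne_zero
  rwa [div_one] at h4

private lemma upgrade_tangent {X : Type} [TopologicalSpace X] {f : X → ℂ} {p : X} {c u : ℂ}
    {σ r M : ℝ} {Φ : ℂ → ℂ} (hf : Tendsto f (𝓝[≠] p) (𝓝 c)) (hu : ‖u‖ = 1)
    (hσ : σ = 1 ∨ σ = -1) (hr : 0 < r)
    (hΦ : ∀ z, ‖z - c‖ < r → Φ z = c + u *
        ⟨((z - c) * (starRingEnd ℂ) u).re, ((z - c) * (starRingEnd ℂ) u).im * ‖z - c‖ / r⟩)
    (hM : ∀ᶠ t in 𝓝[≠] p, 0 < σ * ((f t - c) * (starRingEnd ℂ) u).re ∧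
      |((f t - c) * (starRingEnd ℂ) u).im| ≤ M * (σ * ((f t - c) * (starRingEnd ℂ) u).re)) :
    Tendsto (fun t => (Φ (f t) - c) / (‖Φ (f t) - c‖ : ℂ)) (𝓝[≠] p) (𝓝 ((σ : ℂ) * u)) := by
  have hn : Tendsto (fun t => ‖f t - c‖) (𝓝[≠] p) (𝓝 0) := by
    have h1 := (hf.sub_const c).norm
    rwa [sub_self, norm_zero] at h1
  have hσ2 : σ * σ = 1 := by rcases hσ with h | h <;> rw [h] <;> norm_num
  set δ : X → ℝ := fun t => ((f t - c) * (starRingEnd ℂ) u).im * ‖f t - c‖ / r /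
    ((f t - c) * (starRingEnd ℂ) u).re with hδ
  have hδ0 : Tendsto δ (𝓝[≠] p) (𝓝 0) := by
    have h1 : Tendsto (fun t => M * ‖f t - c‖ / r) (𝓝[≠] p) (𝓝 0) := by
      have h2 := (hn.const_mul M).div_const r
      rwa [mul_zero, zero_div] at h2
    refine squeeze_zero_norm' ?_ h1
    filter_upwards [hM] with t ht
    obtain ⟨h2, h3⟩ := ht
    have h4 : |((f t - c) * (starRingEnd ℂ) u).re| = σ * ((f t - c) * (starRingEnd ℂ) u).re := by
      rcases hσ with h | h
      · rw [h, one_mul] at h2 ⊢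
        exact abs_of_pos h2
      · rw [h] at h2 ⊢
        rw [abs_of_neg (by linarith)]
        ring
    rw [hδ, Real.norm_eq_abs, abs_div, abs_div, abs_mul, abs_of_nonneg (norm_nonneg (f t - c)),
      abs_of_pos hr, h4, div_le_iff₀ h2]
    calc |((f t - c) * (starRingEnd ℂ) u).im| * ‖f t - c‖ / r
        ≤ (M * (σ * ((f t - c) * (starRingEnd ℂ) u).re)) * ‖f t - c‖ / r := by gcongr
      _ = M * ‖f t - c‖ / r * (σ * ((f t - c) * (starRingEnd ℂ) u).re) := by ring
  have h5 := (upgrade_dir hδ0).const_mul ((σ : ℂ) * u)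
  rw [mul_one] at h5
  refine h5.congr' ?_
  filter_upwards [hM, hn.eventually (gt_mem_nhds hr)] with t ht htr
  obtain ⟨h2, -⟩ := ht
  set ξ := ((f t - c) * (starRingEnd ℂ) u).re with hξ
  have hξ0 : ξ ≠ 0 := by
    intro h
    rw [h, mul_zero] at h2
    exact lt_irrefl _ h2
  have h6 : Φ (f t) - c = u * (ξ * ⟨1, δ t⟩) := by
    rw [hΦ _ htr, add_sub_cancel_left]
    congr 1
    apply Complex.ext
    · rw [Complex.re_ofReal_mul]
      exact (mul_one ξ).symm
    · rw [Complex.im_ofReal_mul]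
      exact (mul_div_cancel₀ _ hξ0).symm
  have h7 : ‖Φ (f t) - c‖ = σ * ξ * ‖(⟨1, δ t⟩ : ℂ)‖ := by
    rw [h6, norm_mul, hu, one_mul, norm_mul, Complex.norm_real, Real.norm_eq_abs]
    congr 1
    rcases hσ with h | h
    · rw [h, one_mul] at h2 ⊢
      exact abs_of_pos h2
    · rw [h] at h2 ⊢
      rw [abs_of_neg (by linarith)]
      ring
  have h8 : (⟨1, δ t⟩ : ℂ) ≠ 0 := by
    intro h
    have := congrArg Complex.re h
    simp at this
  have h9 : ((‖(⟨1, δ t⟩ : ℂ)‖ : ℝ) : ℂ) ≠ 0 := by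
    rw [Ne, Complex.ofReal_eq_zero, norm_eq_zero]
    exact h8
  have h10 : (ξ : ℂ) ≠ 0 := by rwa [Ne, Complex.ofReal_eq_zero]
  have h11 : (σ : ℂ) * σ = 1 := by rw [← Complex.ofReal_mul, hσ2, Complex.ofReal_one]
  have h12 : (σ : ℂ) ≠ 0 := by
    intro h
    rw [h, mul_zero] at h11
    exact zero_ne_one h11
  rw [h7, h6]
  push_cast
  rw [← mul_div_assoc, div_eq_div_iff h9 (by
    exact mul_ne_zero (mul_ne_zero h12 h10) h9)]
  linear_combination (u * ξ * (⟨1, δ t⟩ : ℂ) * ((‖(⟨1, δ t⟩ : ℂ)‖ : ℝ) : ℂ)) * h11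

theorem upgrade (W : WeakDrawing V) : ∃ D : Drawing V, D.toSkel = W.toSkel := by
  have := W.finite_J
  obtain ⟨r, Φ, hr, hcont, hinj, him0, himneg, hfix, hloc⟩ :=
    pinch (fun j => W.pt (Sum.inr j)) (fun j j' h => Sum.inr_injective (W.pt_inj h))
      W.junction_im W.u W.norm_u
  have hpt : ∀ n, Φ (W.pt n) = W.pt n := by
    rintro (v | j)
    · exact him0 _ (W.vertex_im v)
    · exact hfix j
  refine ⟨{ toSkel := W.toSkel
            finite_J := W.finite_J
            finite_A := W.finite_A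
            pt_inj := W.pt_inj
            vertex_im := W.vertex_im
            junction_im := W.junction_im
            curve := fun a t => Φ (W.curve a t)
            curve_cont := fun a => hcont.comp (W.curve_cont a)
            curve_inj := fun a => hinj.comp (W.curve_inj a)
            curve_par := fun a b => by rw [W.curve_par, hpt]
            curve_int := fun a t h0 h1 => ⟨himneg _ (W.curve_int a t h0 h1).1, fun x hx =>
              (W.curve_int a t h0 h1).2 x (hinj (hx.trans (hpt x).symm))⟩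
            curve_disj := fun a b s t hab h => W.curve_disj a b s t hab (hinj h)
            u := W.u
            norm_u := W.norm_u
            tangent := fun a b j h => ?_ }, rfl⟩
  obtain ⟨M, hM⟩ := W.cone a b j h
  refine upgrade_tangent (M := M) (r := r) ?_ (W.norm_u j) ?_ hr (hloc j) hM
  · have h1 : Tendsto (W.curve a) (𝓝 (par b)) (𝓝 (W.curve a (par b))) :=
      (W.curve_cont a).tendsto _
    rw [W.curve_par, h] at h1
    exact h1.mono_left nhdsWithin_le_nhds
  · cases W.dir a b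
    · right; simp [sgn]
    · left; simp [sgn]

end Pool.Agent.Confl
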