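import Pool.Agent.Confl.HalfPlane
import Pool.Agent.Confl.Curves
import Pool.Agent.Confl.Surgery
import Pool.Agent.Confl.Complete
import Pool.Agent.Confl.Sound
import Pool.Agent.Confl.Poly
import Pool.Agent.Confl.Gen
import Pool.Agent.Confl.Geo
import Pool.Agent.Confl.Cone
import Pool.Agent.Confl.SoundC
import Pool.Agent.Confl.CompleteC
import Pool.Agent.Confl.Upgrade

/-! # Recognition of outerconfluent graphs: assembly -/

set_option autoImplicit false

open Filter Topology Set Turing Computability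

namespace Pool.Agent.Confl

variable {V : Type}

theorem chord_weak [Finite V] (G : SimpleGraph V) (x : V → ℝ) (hx : Function.Injective x)
    (hg : Generic x) : ∃ W : WeakDrawing V, W.toSkel = chordSkel G x :=
  ⟨{ toSkel := chordSkel G x
     finite_J := finite_cro G x
     finite_A := finite_arc G x
     pt_inj := cpt_inj hx hg
     vertex_im := fun v => by simp [chordSkel, cpt]
     junction_im := fun c => by
       have h := X_mem c.2.1 c.2.2.1 c.2.2.2
       exact q_neg (c.2.1.trans h.1) h.2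
     curve := ccurve
     curve_cont := ccurve_cont
     curve_inj := ccurve_inj
     curve_par := ccurve_par
     curve_int := fun a t h0 h1 => ccurve_int hx hg a t h0 h1
     curve_disj := fun a b s t hab h => ccurve_disj hx hg a b s t hab h
     u := cu
     norm_u := norm_cu
     cone := fun a b c h => cu_cone a b c h }, rfl⟩

/-! ## CF13 assembly -/

theorem lc_of_outerconfluentAt (G : SimpleGraph V) (x : V → ℝ) (hx : Function.Injective x)
    (h : OuterconfluentAt G x) : LC G x := by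
  obtain ⟨D, hD, hord⟩ := h
  intro a b c d hab hbc hcd hac hbd
  have hpt : ∀ v, D.pt (Sum.inl v) = (((D.pt (Sum.inl v)).re : ℝ) : ℂ) := fun v => by
    apply Complex.ext
    · simp
    · simp [D.vertex_im v]
  have nab : a ≠ b := fun h => by rw [h] at hab; exact lt_irrefl _ hab
  have nac : a ≠ c := fun h => by rw [h] at hab; exact lt_asymm hab hbc
  have nad : a ≠ d := fun h => by
    rw [h] at hab; exact lt_asymm (hab.trans hbc) hcd
  have nbc : b ≠ c := fun h => by rw [h] at hbc; exact lt_irrefl _ hbc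
  have nbd : b ≠ d := fun h => by rw [h] at hbc; exact lt_asymm hbc hcd
  have ncd : c ≠ d := fun h => by rw [h] at hcd; exact lt_irrefl _ hcd
  obtain ⟨p, hp⟩ := (hD a c nac).1 hac
  obtain ⟨q, hq⟩ := (hD b d nbd).1 hbd
  have h1 := joined_path D hp
  have h2 := joined_path D hq
  rw [hpt a, hpt c] at h1
  rw [hpt b, hpt d] at h2
  have him : ∀ (l : List D.Dart) (z : ℂ), z ∈ (⋃ d ∈ l, range (D.curve d.1)) → z.im ≤ 0 := by
    intro l z hz
    simp only [Set.mem_iUnion, Set.mem_range] at hz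
    obtain ⟨d, _, t, rfl⟩ := hz
    exact curve_im D d.1 t
  have hne := joined_cross ((hord a b).1 hab) ((hord b c).1 hbc) ((hord c d).1 hcd)
    (him p) (him q) h1 h2
  have hj := common_junction D hp hq nab nad nbc.symm ncd hne
  obtain ⟨p', hp', hpj⟩ := smooth_reverse D.toSkel hp
  obtain ⟨q', hq', hqj⟩ := smooth_reverse D.toSkel hq
  have e1 := smooth_surgery D.toSkel hp hq hj
  have e2 := smooth_surgery D.toSkel hp' hq (by
    obtain ⟨j, h1, h2⟩ := hj; exact ⟨j, (hpj j).2 h1, h2⟩)
  have e3 := smooth_surgery D.toSkel hq hp (by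
    obtain ⟨j, h1, h2⟩ := hj; exact ⟨j, h2, h1⟩)
  have e4 := smooth_surgery D.toSkel hq' hp (by
    obtain ⟨j, h1, h2⟩ := hj; exact ⟨j, (hqj j).2 h2, h1⟩)
  rw [← hD a b nab, ← hD a d nad] at e1
  rw [← hD c b nbc.symm, ← hD c d ncd] at e2
  rw [← hD b a nab.symm, ← hD b c nbc] at e3
  rw [← hD d a nad.symm, ← hD d c ncd.symm] at e4
  have s1 : G.Adj c b ↔ G.Adj b c := G.adj_comm c b
  have s2 : G.Adj b a ↔ G.Adj a b := G.adj_comm b a
  have s3 : G.Adj d a ↔ G.Adj a d := G.adj_comm d a
  have s4 : G.Adj d c ↔ G.Adj c d := G.adj_comm d c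
  rw [s1] at e2; rw [s2] at e3; rw [s3, s4] at e4
  tauto

theorem represents_eq {S S' : Skel V} (h : S = S') {G : SimpleGraph V} (hr : S'.Represents G) :
    S.Represents G := by rw [h]; exact hr

theorem outerconfluentAt_of_lc [Finite V] (G : SimpleGraph V) (x : V → ℝ)
    (hx : Function.Injective x) (h3 : G.CliqueFree 3) (h : LC G x) : OuterconfluentAt G x := by
  obtain ⟨y, hxy, hg⟩ := exists_generic x hx
  have hy : Function.Injective y := by
    intro u v huv
    by_contra hne
    rcases lt_or_gt_of_ne (fun h => hne (hx h) : x u ≠ x v) with h | h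
    · exact absurd ((hxy u v).1 h) (by rw [huv]; exact lt_irrefl _)
    · exact absurd ((hxy v u).1 h) (by rw [huv]; exact lt_irrefl _)
  have hlc : LC G y := by
    intro a b c d hab hbc hcd hac hbd
    exact h a b c d ((hxy _ _).2 hab) ((hxy _ _).2 hbc) ((hxy _ _).2 hcd) hac hbd
  obtain ⟨W, hW⟩ := chord_weak G y hy hg
  obtain ⟨D, hD⟩ := upgrade W
  have hDs : D.toSkel = chordSkel G y := hD.trans hW
  have hrep : (chordSkel G y).Represents G := by
    intro u v _
    exact ⟨fun h => chord_complete G y hy hg h3 hlc h, fun ⟨p, hp⟩ =>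
      chord_sound G y hy hg h3 hlc hp⟩
  refine ⟨D, represents_eq hDs hrep, fun u v => ?_⟩
  have hp : ∀ w, (D.pt (Sum.inl w)).re = y w := by
    intro w
    have key : ∀ S : Skel V, S = chordSkel G y → (S.pt (Sum.inl w)).re = y w := by
      rintro S rfl
      simp [chordSkel, cpt]
    exact key D.toSkel hDs
  rw [hp, hp]
  exact hxy u v

theorem main :
    (∃ f : GInst → Bool, Nonempty (TM2ComputableInPolyTime enc encodeBool f) ∧
      (∀ I, f I = true ↔ ∃ x : Fin I.1 → ℝ, Function.Injective x ∧ LC I.2 x) ∧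
      (∀ I, Outerconfluent I.2 → f I = true) ∧
      (∀ I, I.2.CliqueFree 3 → (f I = true ↔ Outerconfluent I.2))) ∧
    (∀ (V : Type) [Finite V] (G : SimpleGraph V) (x : V → ℝ), Function.Injective x →
      (OuterconfluentAt G x → LC G x) ∧
      (G.CliqueFree 3 → (OuterconfluentAt G x ↔ LC G x)) ∧
      (G.Connected → (LC G x ↔ ArcProp G x))) := by
  obtain ⟨f, hf, hfn⟩ := noConflict_polyTime
  have h1 : ∀ I : GInst, f I = true ↔ ∃ x : Fin I.1 → ℝ, Function.Injective x ∧ LC I.2 x :=
    fun I => (hfn I).trans ⟨fun h => lc_of_noConflict I.2 h, fun ⟨x, hx, h⟩ =>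
      noConflict_of_lc I.2 x hx h⟩
  have h2 : ∀ (V : Type) (G : SimpleGraph V), Outerconfluent G →
      ∃ x : V → ℝ, Function.Injective x ∧ OuterconfluentAt G x := by
    rintro V G ⟨D, hD⟩
    refine ⟨fun v => (D.pt (Sum.inl v)).re, fun u v huv => ?_, D, hD, fun u v => Iff.rfl⟩
    have : D.pt (Sum.inl u) = D.pt (Sum.inl v) :=
      Complex.ext huv (by rw [D.vertex_im, D.vertex_im])
    exact Sum.inl_injective (D.pt_inj this)
  refine ⟨⟨f, hf, h1, fun I hI => ?_, fun I hI => ⟨fun h => ?_, fun h => ?_⟩⟩, ?_⟩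
  · obtain ⟨x, hx, hx'⟩ := h2 _ _ hI
    exact (h1 I).2 ⟨x, hx, lc_of_outerconfluentAt _ _ hx hx'⟩
  · obtain ⟨x, hx, hlc⟩ := (h1 I).1 h
    obtain ⟨D, hD, _⟩ := outerconfluentAt_of_lc I.2 x hx hI hlc
    exact ⟨D, hD⟩
  · obtain ⟨x, hx, hx'⟩ := h2 _ _ h
    exact (h1 I).2 ⟨x, hx, lc_of_outerconfluentAt _ _ hx hx'⟩
  · intro V _ G x hx
    exact ⟨lc_of_outerconfluentAt G x hx, fun h3 => ⟨lc_of_outerconfluentAt G x hx,
      outerconfluentAt_of_lc G x hx h3⟩, lc_iff_arcProp G x hx⟩

end Pool.Agent.Confl
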