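import Pool.Agent.Confl.Chords

/-!
# The chord drawing: algebra of the parabolas
-/

set_option autoImplicit false

open Filter Topology Set

namespace Pool.Agent.Confl

variable {V : Type}

theorem X_mem {x : V → ℝ} {a b c d : V} (h1 : x a < x c) (h2 : x c < x b) (h3 : x b < x d) :
    x c < X x a b c d ∧ X x a b c d < x b := by
  have hd : 0 < (x c + x d) - (x a + x b) := by linarith
  unfold X
  constructor
  · rw [lt_div_iff₀ hd]
    nlinarith [mul_pos (sub_pos.2 h1) (sub_pos.2 h2)]
  · rw [div_lt_iff₀ hd]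
    nlinarith [mul_pos (sub_pos.2 h2) (sub_pos.2 h3)]

theorem q_sub {x : V → ℝ} {a b c d : V} (h : x a + x b ≠ x c + x d) (t : ℝ) :
    q x a b t - q x c d t = ((x c + x d) - (x a + x b)) * (t - X x a b c d) := by
  have hd : (x c + x d) - (x a + x b) ≠ 0 := sub_ne_zero.2 h.symm
  unfold X q
  field_simp
  ring

theorem X_comm (x : V → ℝ) (a b c d : V) : X x a b c d = X x c d a b := by
  unfold X
  rw [← neg_div_neg_eq]
  congr 1 <;> ring

theorem X_swap (x : V → ℝ) (a b c d : V) : X x a b c d = X x b a c d := by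
  unfold X
  congr 1 <;> ring

theorem q_neg {x : V → ℝ} {a b : V} {t : ℝ} (h1 : x a < t) (h2 : t < x b) : q x a b t < 0 :=
  mul_neg_of_pos_of_neg (sub_pos.2 h1) (sub_neg.2 h2)

/-- Two chords with a common interior point are equal or cross there. -/
theorem cross_of_q_eq {x : V → ℝ} (hx : Function.Injective x) {a b c d : V} {t : ℝ}
    (h1 : x a < t) (h2 : t < x b) (h3 : x c < t) (h4 : t < x d) (h : q x a b t = q x c d t) :
    (a = c ∧ b = d) ∨ (x a < x c ∧ x c < x b ∧ x b < x d ∧ t = X x a b c d) ∨
      (x c < x a ∧ x a < x d ∧ x d < x b ∧ t = X x c d a b) := by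
  have key : (t - x a) * (x b - t) = (t - x c) * (x d - t) := by
    unfold q at h
    linarith
  have hXeq : x a + x b ≠ x c + x d → t = X x a b c d := by
    intro hne
    have h5 := q_sub hne t
    rw [h, sub_self] at h5
    rcases mul_eq_zero.1 h5.symm with h6 | h6
    · exact absurd (by linarith : x a + x b = x c + x d) hne
    · linarith
  have pa : 0 < t - x a := sub_pos.2 h1
  have pb : 0 < x b - t := sub_pos.2 h2
  have pc : 0 < t - x c := sub_pos.2 h3
  have pd : 0 < x d - t := sub_pos.2 h4
  rcases lt_trichotomy (x a) (x c) with hac | hac | hac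
  · have hbd : x b < x d := by
      by_contra hcon
      push Not at hcon
      nlinarith [mul_lt_mul_of_pos_right (by linarith : t - x c < t - x a) pd,
        mul_le_mul_of_nonneg_left (by linarith : x d - t ≤ x b - t) pa.le]
    exact Or.inr (Or.inl ⟨hac, by linarith, hbd, hXeq (by linarith)⟩)
  · have h5 : x b = x d := by
      rw [hac] at key
      have := mul_left_cancel₀ pc.ne' key
      linarith
    exact Or.inl ⟨hx hac, hx h5⟩
  · have hbd : x d < x b := by
      by_contra hcon
      push Not at hcon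
      nlinarith [mul_lt_mul_of_pos_right (by linarith : t - x a < t - x c) pb,
        mul_le_mul_of_nonneg_left (by linarith : x b - t ≤ x d - t) pc.le]
    exact Or.inr (Or.inr ⟨hac, by linarith, hbd, (hXeq (by linarith)).trans (X_comm x a b c d)⟩)

/-- Coordinates of nodes on an edge. -/
theorem cx_on {G : SimpleGraph V} {x : V → ℝ} (e : Edge G x) (n : V ⊕ Cro G x) (h : On e n) :
    cpt G x n = ⟨cx G x n, q x e.1.1 e.1.2 (cx G x n)⟩ ∧ x e.1.1 ≤ cx G x n ∧
      cx G x n ≤ x e.1.2 ∧ (cx G x n = x e.1.1 → n = Sum.inl e.1.1) ∧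
      (cx G x n = x e.1.2 → n = Sum.inl e.1.2) := by
  have he := e.2.1
  rcases n with v | c
  · rcases h with h | h
    · subst h
      refine ⟨?_, le_rfl, he.le, fun _ => rfl, fun h => ?_⟩
      · apply Complex.ext
        · simp [cpt, cx]
        · simp [cpt, cx, q]
      · exact absurd h he.ne
    · subst h
      refine ⟨?_, he.le, le_rfl, fun h => ?_, fun _ => rfl⟩
      · apply Complex.ext
        · simp [cpt, cx]
        · simp [cpt, cx, q]
      · exact absurd h he.ne'
  · obtain ⟨h1, h2, h3⟩ := c.2
    have hX := X_mem h1 h2 h3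
    rcases h with h | h
    · subst h
      refine ⟨rfl, (h1.trans hX.1).le, hX.2.le, fun h => ?_, fun h => ?_⟩
      · exact absurd h (h1.trans hX.1).ne'
      · exact absurd h hX.2.ne
    · subst h
      refine ⟨?_, hX.1.le, (hX.2.trans h3).le, fun h => ?_, fun h => ?_⟩
      · have h4 := q_sub (x := x) (a := c.1.1.1.1) (b := c.1.1.1.2) (c := c.1.2.1.1)
          (d := c.1.2.1.2) (by linarith) (cx G x (Sum.inr c))
        have h5 : cx G x (Sum.inr c) - X x c.1.1.1.1 c.1.1.1.2 c.1.2.1.1 c.1.2.1.2 = 0 :=
          sub_self _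
        rw [h5, mul_zero] at h4
        apply Complex.ext
        · rfl
        · exact sub_eq_zero.1 h4
      · exact absurd h hX.1.ne'
      · exact absurd h (hX.2.trans h3).ne

end Pool.Agent.Confl
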