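import Pool.Agent.Confl.Chords

/-!
# One step along a smooth path of the chord drawing
-/

set_option autoImplicit false

open Filter Topology Set

namespace Pool.Agent.Confl

variable {V : Type}

/-- Strict betweenness as the sign of the parabola. -/
theorem btw_iff_q (x : V → ℝ) (a b c : V) : Btw x a b c ↔ q x a b (x c) < 0 := by
  unfold Btw q
  constructor
  · rintro (⟨h1, h2⟩ | ⟨h1, h2⟩)
    · exact mul_neg_of_pos_of_neg (by linarith) (by linarith)
    · exact mul_neg_of_neg_of_pos (by linarith) (by linarith)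
  · intro h
    rcases mul_neg_iff.1 h with ⟨h1, h2⟩ | ⟨h1, h2⟩
    · exact Or.inl ⟨by linarith, by linarith⟩
    · exact Or.inr ⟨by linarith, by linarith⟩

theorem nbtw_iff_q {x : V → ℝ} (hx : Function.Injective x) (a b d : V) :
    (¬ Btw x a b d ∧ d ≠ a ∧ d ≠ b) ↔ 0 < q x a b (x d) := by
  rw [btw_iff_q]
  constructor
  · rintro ⟨h, h1, h2⟩
    refine lt_of_le_of_ne (not_lt.1 h) (Ne.symm ?_)
    unfold q
    exact mul_ne_zero (sub_ne_zero.2 fun h => h1 (hx h)) (sub_ne_zero.2 fun h => h2 (hx h))
  · intro h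
    refine ⟨not_lt.2 h.le, ?_, ?_⟩
    · rintro rfl
      simp [q] at h
    · rintro rfl
      simp [q] at h

/-- Alternation as a sign. -/
theorem alt_iff_q {x : V → ℝ} (hx : Function.Injective x) (a b c d : V) :
    Alt x a b c d ↔ q x a b (x c) * q x a b (x d) < 0 := by
  unfold Alt
  rw [nbtw_iff_q hx, nbtw_iff_q hx, btw_iff_q, btw_iff_q, mul_neg_iff]
  tauto

theorem alt_comm {x : V → ℝ} (hx : Function.Injective x) {a b c d : V} (h : Alt x a b c d) :
    Alt x c d a b := by
  rw [alt_iff_q hx] at h ⊢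
  unfold q at h ⊢
  nlinarith [h]

theorem alt_ne {x : V → ℝ} (hx : Function.Injective x) {a b c d : V} (h : Alt x a b c d) :
    c ≠ a ∧ c ≠ b ∧ d ≠ a ∧ d ≠ b := by
  rw [alt_iff_q hx] at h
  refine ⟨?_, ?_, ?_, ?_⟩ <;> rintro rfl <;> simp [q] at h

/-- The sum of the coordinates of alternating pairs are different. -/
theorem alt_sum_ne {x : V → ℝ} (hx : Function.Injective x) {a b c d : V} (h : Alt x a b c d) :
    x a + x b ≠ x c + x d := by
  intro he
  rw [alt_iff_q hx] at h
  have h1 : q x a b (x c) = x a * x b - x c * x d := by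
    unfold q
    have : x a = x c + x d - x b := by linarith
    rw [this]; ring
  have h2 : q x a b (x d) = x a * x b - x c * x d := by
    unfold q
    have : x a = x c + x d - x b := by linarith
    rw [this]; ring
  rw [h1, h2] at h
  nlinarith [mul_self_nonneg (x a * x b - x c * x d)]

theorem q_sub_stepC {x : V → ℝ} {a b c d : V} (h : x a + x b ≠ x c + x d) (t : ℝ) :
    q x a b t - q x c d t = ((x c + x d) - (x a + x b)) * (t - X x a b c d) := by
  have h' : (x c + x d) - (x a + x b) ≠ 0 := sub_ne_zero.2 (Ne.symm h)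
  unfold q X
  field_simp
  ring

/-- The crossing lies strictly between the ends of the first chord. -/
theorem alt_X_mem {x : V → ℝ} (hx : Function.Injective x) {a b c d : V} (h : Alt x a b c d) :
    (x a - X x a b c d) * (x b - X x a b c d) < 0 := by
  have hs := alt_sum_ne hx h
  have h' : (x c + x d) - (x a + x b) ≠ 0 := sub_ne_zero.2 (Ne.symm hs)
  have h1 := q_sub_stepC hs (x a)
  have h2 := q_sub_stepC hs (x b)
  have hq := alt_comm hx h
  rw [alt_iff_q hx] at hq
  have h3 : q x a b (x a) = 0 := by simp [q]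
  have h4 : q x a b (x b) = 0 := by simp [q]
  rw [h3] at h1
  rw [h4] at h2
  have h5 : q x c d (x a) * q x c d (x b) =
      (((x c + x d) - (x a + x b)) ^ 2) * ((x a - X x a b c d) * (x b - X x a b c d)) := by
    have e1 : q x c d (x a) = -(((x c + x d) - (x a + x b)) * (x a - X x a b c d)) := by
      linarith
    have e2 : q x c d (x b) = -(((x c + x d) - (x a + x b)) * (x b - X x a b c d)) := by
      linarith
    rw [e1, e2]; ring
  rw [h5] at hq
  have h6 : 0 < ((x c + x d) - (x a + x b)) ^ 2 := by positivity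
  by_contra hcon
  exact absurd hq (not_lt.2 (mul_nonneg h6.le (not_lt.1 hcon)))

theorem X_comm_stepC (x : V → ℝ) (a b c d : V) : X x a b c d = X x c d a b := by
  unfold X
  rw [← neg_sub (x a * x b) (x c * x d), ← neg_sub (x a + x b) (x c + x d), neg_div_neg_eq]

theorem lc_alt (G : SimpleGraph V) (x : V → ℝ) (hx : Function.Injective x)
    (hlc : LC G x) {a b c d : V} (hab : G.Adj a b) (hcd : G.Adj c d) (h : Alt x a b c d) :
    (G.Adj a c ∧ G.Adj b d) ∨ (G.Adj a d ∧ G.Adj b c) := by
  have hne : x a ≠ x b := fun h => hab.ne (hx h)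
  have key : ∀ p q r s : V, x p < x q → Btw x p q r → ¬ Btw x p q s → s ≠ p → s ≠ q →
      G.Adj p q → G.Adj r s → (G.Adj p r ∧ G.Adj q s) ∨ (G.Adj p s ∧ G.Adj q r) := by
    intro p q r s hpq hr hs hsp hsq apq ars
    have hsp' : x s ≠ x p := fun h => hsp (hx h)
    have hsq' : x s ≠ x q := fun h => hsq (hx h)
    have hr' : x p < x r ∧ x r < x q := by
      rcases hr with h | h
      · exact h
      · exact absurd (h.1.trans h.2) (not_lt.2 hpq.le)
    have hs' : x s < x p ∨ x q < x s := by
      rcases lt_or_gt_of_ne hsp' with h | h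
      · exact Or.inl h
      · rcases lt_or_gt_of_ne hsq' with h2 | h2
        · exact absurd (Or.inl ⟨h, h2⟩) hs
        · exact Or.inr h2
    rcases hs' with hs' | hs'
    · rcases hlc s p r q hs' hr'.1 hr'.2 ars.symm apq with ⟨h1, h2⟩ | ⟨h1, h2⟩
      · exact Or.inr ⟨h1.symm, h2.symm⟩
      · exact Or.inl ⟨h2, h1.symm⟩
    · rcases hlc p r q s hr'.1 hr'.2 hs' apq ars with ⟨h1, h2⟩ | ⟨h1, h2⟩
      · exact Or.inl ⟨h1, h2⟩
      · exact Or.inr ⟨h1, h2.symm⟩
  rcases lt_or_gt_of_ne hne with hlt | hlt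
  · rcases h with ⟨e1, e2, e3, e4⟩ | ⟨e1, e2, e3, e4⟩
    · exact key a b c d hlt e1 e2 e3 e4 hab hcd
    · exact (key a b d c hlt e1 e2 e3 e4 hab hcd.symm).symm
  · have hb : ∀ w, Btw x a b w → Btw x b a w := by
      intro w h; exact Or.symm h
    have hb' : ∀ w, Btw x b a w → Btw x a b w := by
      intro w h; exact Or.symm h
    rcases h with ⟨e1, e2, e3, e4⟩ | ⟨e1, e2, e3, e4⟩
    · rcases key b a c d hlt (hb c e1) (fun h => e2 (hb' d h)) e4 e3 hab.symm hcd with
        ⟨h1, h2⟩ | ⟨h1, h2⟩
      · exact Or.inr ⟨h2, h1⟩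
      · exact Or.inl ⟨h2, h1⟩
    · rcases key b a d c hlt (hb d e1) (fun h => e2 (hb' c h)) e4 e3 hab.symm hcd.symm with
        ⟨h1, h2⟩ | ⟨h1, h2⟩
      · exact Or.inl ⟨h2, h1⟩
      · exact Or.inr ⟨h2, h1⟩

/-- No triangles. -/
theorem no_triangle {G : SimpleGraph V} (h3 : G.CliqueFree 3) {a b c : V} (h1 : G.Adj a b)
    (h2 : G.Adj b c) (h4 : G.Adj a c) : False := by
  classical
  exact h3 {a, b, c} (SimpleGraph.is3Clique_triple_iff.2 ⟨h1, h4, h2⟩)

set_option linter.unusedVariables false in
theorem chord_step (G : SimpleGraph V) (x : V → ℝ) (hx : Function.Injective x) (hg : Generic x)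
    (h3 : G.CliqueFree 3) (hlc : LC G x) {u a b c d : V} {s : ℝ} (hab : G.Adj a b)
    (hub : G.Adj u b)
    (H : ∀ c d, G.Adj c d → Alt x a b c d → 0 < (X x a b c d - s) * (x b - x a) → G.Adj a d →
      G.Adj u d)
    (hcd : G.Adj c d) (hal : Alt x a b c d) (hs : 0 < (X x a b c d - s) * (x b - x a))
    (had : G.Adj a d) :
    G.Adj u d ∧ ∀ e f, G.Adj e f → Alt x c d e f →
      0 < (X x c d e f - X x a b c d) * (x d - x c) → G.Adj c f → G.Adj u f := by
  have hud : G.Adj u d := H c d hcd hal hs had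
  refine ⟨hud, ?_⟩
  intro e f hef halt hpos hcf
  have hbc : G.Adj b c := by
    rcases lc_alt G x hx hlc hab hcd hal with ⟨_, h⟩ | ⟨_, h⟩
    · exact (no_triangle h3 hab h had).elim
    · exact h
  have hde : G.Adj d e := by
    rcases lc_alt G x hx hlc hcd hef halt with ⟨_, h⟩ | ⟨_, h⟩
    · exact (no_triangle h3 hcd h hcf).elim
    · exact h
  by_cases huf : u = f
  · subst huf
    exact (no_triangle h3 hef hud hde.symm).elim
  by_cases hue : u = e
  · subst hue; exact hef
  by_cases hbf : b = f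
  · subst hbf; exact hub
  by_cases hbe : b = e
  · subst hbe
    exact (no_triangle h3 hbc hcd hde.symm).elim
  have hne := alt_ne hx halt
  -- the signs
  have qne : ∀ v, v ≠ e → v ≠ f → q x e f (x v) ≠ 0 := by
    intro v h1 h2
    unfold q
    exact mul_ne_zero (sub_ne_zero.2 fun h => h1 (hx h)) (sub_ne_zero.2 fun h => h2 (hx h))
  have hqu := qne u hue huf
  have hqb := qne b hbe hbf
  have hqd := qne d hne.2.1.symm hne.2.2.2.symm
  by_cases h1 : q x e f (x u) * q x e f (x d) < 0
  · rcases lc_alt G x hx hlc hef hud ((alt_iff_q hx e f u d).2 h1) with ⟨_, h⟩ | ⟨_, h⟩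
    · exact (no_triangle h3 hde hef h.symm).elim
    · exact h.symm
  by_cases h2 : q x e f (x u) * q x e f (x b) < 0
  · rcases lc_alt G x hx hlc hef hub ((alt_iff_q hx e f u b).2 h2) with ⟨h, _⟩ | ⟨_, h⟩
    · exact (no_triangle h3 hud hde h.symm).elim
    · exact h.symm
  -- D at b has the sign of D at d
  have h1' : 0 < q x e f (x u) * q x e f (x d) :=
    lt_of_le_of_ne (not_lt.1 h1) (Ne.symm (mul_ne_zero hqu hqd))
  have h2' : 0 < q x e f (x u) * q x e f (x b) :=
    lt_of_le_of_ne (not_lt.1 h2) (Ne.symm (mul_ne_zero hqu hqb))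
  have hbd : 0 < q x e f (x b) * q x e f (x d) := by
    have h5 : 0 < (q x e f (x u)) ^ 2 * (q x e f (x b) * q x e f (x d)) := by
      have := mul_pos h1' h2'
      calc (0 : ℝ) < _ := this
        _ = _ := by ring
    exact (mul_pos_iff_of_pos_left (by positivity)).1 h5
  have hR := alt_X_mem hx halt
  have hsum := alt_sum_ne hx halt
  have hQ := alt_X_mem hx hal
  have hsumQ := alt_sum_ne hx hal
  have hQ1 := q_sub_stepC hsumQ (X x a b c d)
  have hR1 := q_sub_stepC hsum (X x a b c d)
  have hR2 := q_sub_stepC hsum (x d)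
  have hlin : ∀ t, q x a b t - q x e f t =
      ((x e + x f) - (x a + x b)) * t + (x a * x b - x e * x f) := by
    intro t; unfold q; ring
  have hN1 : (x e + x f) - (x c + x d) ≠ 0 := sub_ne_zero.2 hsum.symm
  have q1 : q x c d (x d) = 0 := by simp [q]
  have q2 : q x a b (x b) = 0 := by simp [q]
  have q3 : q x a b (x a) = 0 := by simp [q]
  generalize hQdef : X x a b c d = Q at *
  generalize hRdef : X x c d e f = R at *
  -- positions on the chord cd
  have hpos2 : (Q - R) * (x d - R) < 0 := by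
    rcases mul_pos_iff.1 hpos with ⟨e1, e2⟩ | ⟨e1, e2⟩
    · have e3 : 0 < x d - R := by
        by_contra hcon
        have : 0 ≤ (x c - R) * (x d - R) := mul_nonneg_of_nonpos_of_nonpos (by linarith) (by linarith)
        linarith
      exact mul_neg_of_neg_of_pos (by linarith) e3
    · have e3 : x d - R < 0 := by
        by_contra hcon
        have : 0 ≤ (x c - R) * (x d - R) := mul_nonneg (by linarith) (by linarith)
        linarith
      exact mul_neg_of_pos_of_neg (by linarith) e3
  have hDQ : 0 < (q x a b Q - q x e f Q) * q x e f (x d) := by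
    have e1 : q x a b Q - q x e f Q = ((x e + x f) - (x c + x d)) * (Q - R) := by
      have : q x a b Q - q x c d Q = 0 := by rw [hQ1]; ring
      linarith
    have e2 : q x e f (x d) = -(((x e + x f) - (x c + x d)) * (x d - R)) := by
      rw [q1] at hR2; linarith
    rw [e1, e2]
    have e3 : 0 < ((x e + x f) - (x c + x d)) ^ 2 := by positivity
    have e4 : ((x e + x f) - (x c + x d)) * (Q - R) *
        -(((x e + x f) - (x c + x d)) * (x d - R)) =
        -(((x e + x f) - (x c + x d)) ^ 2 * ((Q - R) * (x d - R))) := by ring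
    rw [e4]
    exact neg_pos.2 (mul_neg_of_pos_of_neg e3 hpos2)
  have hDb : 0 < (q x a b Q - q x e f Q) * q x e f (x b) := by
    have h5 : 0 < (q x e f (x d)) ^ 2 * ((q x a b Q - q x e f Q) * q x e f (x b)) := by
      have := mul_pos hDQ hbd
      calc (0 : ℝ) < _ := this
        _ = _ := by ring
    exact (mul_pos_iff_of_pos_left (by positivity)).1 h5
  have eb : q x a b (x b) - q x e f (x b) = - q x e f (x b) := by rw [q2]; ring
  have ea : q x a b (x a) - q x e f (x a) = - q x e f (x a) := by rw [q3]; ring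
  have hN2 : x a + x b ≠ x e + x f := by
    intro he
    have e1 := hlin Q
    have e2 := hlin (x b)
    have hz : (x e + x f) - (x a + x b) = 0 := by linarith
    rw [hz] at e1 e2
    have e3 : q x a b Q - q x e f Q = - q x e f (x b) := by linarith
    rw [e3] at hDb
    have e4 := mul_self_nonneg (q x e f (x b))
    linarith [neg_mul (q x e f (x b)) (q x e f (x b))]
  have hT := q_sub_stepC hN2
  generalize hTdef : X x a b e f = T at *
  have hN2' : (x e + x f) - (x a + x b) ≠ 0 := sub_ne_zero.2 hN2.symm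
  have hN2p : 0 < ((x e + x f) - (x a + x b)) ^ 2 := by positivity
  have hTb : (Q - T) * (x b - T) < 0 := by
    have e1 : (q x a b Q - q x e f Q) * q x e f (x b) =
        -(((x e + x f) - (x a + x b)) ^ 2 * ((Q - T) * (x b - T))) := by
      have e2 : q x e f (x b) = -(((x e + x f) - (x a + x b)) * (x b - T)) := by
        have := hT (x b); rw [q2] at this; linarith
      rw [e2, hT Q]; ring
    rw [e1] at hDb
    by_contra hcon
    have := mul_nonneg hN2p.le (not_lt.1 hcon)
    linarith
  -- T is between Q and b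
  have hab2 : (x a - T) * (x b - T) < 0 ∧ 0 < (T - Q) * (x b - x a) := by
    rcases mul_neg_iff.1 hTb with ⟨e1, e2⟩ | ⟨e1, e2⟩
    · rcases mul_neg_iff.1 hQ with ⟨e3, e4⟩ | ⟨e3, e4⟩
      · exact ⟨mul_neg_of_pos_of_neg (by linarith) e2, mul_pos_of_neg_of_neg (by linarith) (by linarith)⟩
      · linarith
    · rcases mul_neg_iff.1 hQ with ⟨e3, e4⟩ | ⟨e3, e4⟩
      · linarith
      · exact ⟨mul_neg_of_neg_of_pos (by linarith) e2, mul_pos (by linarith) (by linarith)⟩
  have haltef : Alt x e f a b := by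
    rw [alt_iff_q hx]
    have e1 : q x e f (x a) = -(((x e + x f) - (x a + x b)) * (x a - T)) := by
      have := hT (x a); rw [q3] at this; linarith
    have e2 : q x e f (x b) = -(((x e + x f) - (x a + x b)) * (x b - T)) := by
      have := hT (x b); rw [q2] at this; linarith
    rw [e1, e2]
    have e3 : -(((x e + x f) - (x a + x b)) * (x a - T)) *
        -(((x e + x f) - (x a + x b)) * (x b - T)) =
        ((x e + x f) - (x a + x b)) ^ 2 * ((x a - T) * (x b - T)) := by ring
    rw [e3]
    exact mul_neg_of_pos_of_neg hN2p hab2.1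
  have haltab := alt_comm hx haltef
  have hbey : 0 < (X x a b e f - s) * (x b - x a) := by
    rw [hTdef]
    have e1 : (T - s) * (x b - x a) = (T - Q) * (x b - x a) + (Q - s) * (x b - x a) := by ring
    rw [e1]; exact add_pos hab2.2 hs
  rcases lc_alt G x hx hlc hab hef haltab with ⟨h, _⟩ | ⟨h, _⟩
  · exact (no_triangle h3 had hde h).elim
  · exact H e f hef haltab hbey h

end Pool.Agent.Confl
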